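import Pool.Agent.H.MP_b2d7dd_lc.TD.Defs

/-!
# Definitions used in the statement

The outer weight of a term of high-school arithmetic. The weight `wt`, `cst`, `cs`, `lg` and `Sim` are
defined in `Pool.Agent.TD` (module TD/Defs); the terms, their values, their strings and the class coRP
in `Pool.Agent.TI` (module TI/Defs).
-/

namespace Pool.Agent.TQ

open Pool.Agent.TI Pool.Agent.TD

/-- The outer weight: the number of symbols, plus `cs t * lg s` for every power `s ^ t` which is not a
power with a constant exponent outside of all exponents and outside of the bases of the powers whose
exponents are not constant. -/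
def wo : Tm → ℕ
  | .one => 1
  | .var _ => 1
  | .add s t => wo s + wo t + 1
  | .mul s t => wo s + wo t + 1
  | .pow s t => if cst t then wo s + wt t + 1 else wt s + wt t + 1 + cs t * lg s

/-- In every power `s ^ t` (outside of exponents and of bases of powers whose exponents are not
constant) the exponent `t` is constant and satisfies `Sim`, or `s ^ t` satisfies `Sim`. -/
def SimO : Tm → Prop
  | .one => True
  | .var _ => True
  | .add s t => SimO s ∧ SimO t
  | .mul s t => SimO s ∧ SimO t
  | .pow s t => if cst t then SimO s ∧ Sim t else Sim (.pow s t)

/-- The strings `x` of the identities `s = t` which hold in `N_HS`, where the sum of the outer weights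
of `s` and `t` is at most the power with exponent `k` of the length of `x`. -/
def identitiesO (k : ℕ) : Set (List Bool) :=
  {x | ∃ s t : Tm, Valid s t ∧ wo s + wo t ≤ x.length ^ k ∧ x = s.code ++ t.code}

end Pool.Agent.TQ
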