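import Pool.Agent.H.MP_b2d7dd_lc.TD.Stk
import Pool.Agent.H.MP_b2d7dd_lc.TQ.Defs

/-!
# Module Wo: the outer weight

`thr n u` = `u` if the weight of `u` is at most `n`, otherwise `1`. `exT n s t` = the family of the
subterms of small weight of an identity. `Gd n u`: what is used about the subterms of the terms of outer
weight at most `n`.
-/

namespace Pool.Agent.TQ

open Pool.Agent.TI (Tm Tok names Tm.toks)
open Pool.Agent.TC (Stk subs exF length_subs stk_pair)
open Pool.Agent.TD

/-- The term if its weight is at most `n`, otherwise `1`. -/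
def thr (n : ℕ) (u : Tm) : Tm := if wt u ≤ n then u else .one

/-- The subterms of small weight. -/
def exT (n : ℕ) (s t : Tm) (a : ℕ) : Tm := thr n (exF s t a)

/-- Properties of the subterms. -/
def Gd (n : ℕ) (u : Tm) : Prop :=
  wo u ≤ n ∧ ∀ a b, u = .pow a b → wt b ≤ n ∧ (Tr a b → wt u ≤ n)

theorem wo_le (t : Tm) : wo t ≤ wt t := by
  induction t with
  | one => exact le_rfl
  | var w => exact le_rfl
  | add s t hs ht =>
    show wo s + wo t + 1 ≤ wt s + wt t + 1
    omega
  | mul s t hs ht =>
    show wo s + wo t + 1 ≤ wt s + wt t + 1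
    omega
  | pow s t hs ht =>
    show (if cst t = true then wo s + wt t + 1 else wt s + wt t + 1 + cs t * lg s) ≤
      wt s + wt t + 1 + cs t * lg s
    split_ifs
    · omega
    · exact le_rfl

theorem sz_le_wo (t : Tm) : t.sz ≤ wo t := by
  induction t with
  | one => exact le_rfl
  | var w => exact le_rfl
  | add s t hs ht =>
    show s.sz + t.sz + 1 ≤ wo s + wo t + 1
    omega
  | mul s t hs ht =>
    show s.sz + t.sz + 1 ≤ wo s + wo t + 1
    omega
  | pow s t hs ht =>
    show s.sz + t.sz + 1 ≤
      (if cst t = true then wo s + wt t + 1 else wt s + wt t + 1 + cs t * lg s)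
    have h1 := sz_le s
    have h2 := sz_le t
    split_ifs <;> omega

theorem wo_pos (t : Tm) : 1 ≤ wo t := by
  cases t with
  | one => exact le_rfl
  | var w => exact le_rfl
  | add s t => exact Nat.le_add_left _ _
  | mul s t => exact Nat.le_add_left _ _
  | pow s t =>
    show 1 ≤ (if cst t = true then wo s + wt t + 1 else wt s + wt t + 1 + cs t * lg s)
    split_ifs <;> omega

theorem sim_simO {t : Tm} (h : Sim t) : SimO t := by
  induction t with
  | one => exact trivial
  | var w => exact trivial
  | add s t hs ht => exact ⟨hs h.1, ht h.2⟩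
  | mul s t hs ht => exact ⟨hs h.1, ht h.2⟩
  | pow s t hs ht =>
    show if cst t = true then SimO s ∧ Sim t else Sim (.pow s t)
    split_ifs
    · exact ⟨hs h.2.1, h.2.2⟩
    · exact h

theorem simO_wo {t : Tm} (h : SimO t) : wo t = t.sz := by
  induction t with
  | one => rfl
  | var w => rfl
  | add s t hs ht =>
    show wo s + wo t + 1 = s.sz + t.sz + 1
    rw [hs h.1, ht h.2]
  | mul s t hs ht =>
    show wo s + wo t + 1 = s.sz + t.sz + 1
    rw [hs h.1, ht h.2]
  | pow s t hs ht =>
    have h' : if cst t = true then SimO s ∧ Sim t else Sim (.pow s t) := h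
    by_cases hc : cst t = true
    · rw [if_pos hc] at h'
      have e : wo (.pow s t) = wo s + wt t + 1 := if_pos hc
      rw [e, hs h'.1, sim_wt h'.2]
      rfl
    · rw [if_neg hc] at h'
      have e : wo (.pow s t) = wt (.pow s t) := if_neg hc
      rw [e, sim_wt h']

theorem wt_subs {t u : Tm} (h : u ∈ subs t) : wt u ≤ wt t := by
  induction t with
  | one => exact le_of_eq (by rw [List.mem_singleton.1 h])
  | var w => exact le_of_eq (by rw [List.mem_singleton.1 h])
  | add s t hs ht =>
    simp only [subs, List.mem_append, List.mem_singleton] at h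
    rcases h with (h | h) | h
    · exact (ht h).trans (by simp only [wt]; omega)
    · exact (hs h).trans (by simp only [wt]; omega)
    · rw [h]
  | mul s t hs ht =>
    simp only [subs, List.mem_append, List.mem_singleton] at h
    rcases h with (h | h) | h
    · exact (ht h).trans (by simp only [wt]; omega)
    · exact (hs h).trans (by simp only [wt]; omega)
    · rw [h]
  | pow s t hs ht =>
    simp only [subs, List.mem_append, List.mem_singleton] at h
    rcases h with (h | h) | h
    · exact (ht h).trans (by simp only [wt]; omega)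
    · exact (hs h).trans (by simp only [wt]; omega)
    · rw [h]

private theorem Wo_wt_pow (a b : Tm) : wt a ≤ wt (.pow a b) ∧ wt b ≤ wt (.pow a b) := by
  have e : wt (.pow a b) = wt a + wt b + 1 + cs b * lg a := rfl
  rw [e]
  omega

private theorem Wo_small {u : Tm} {n : ℕ} (h : wt u ≤ n) : Gd n u := by
  refine ⟨(wo_le u).trans h, fun a b hab => ⟨?_, fun _ => h⟩⟩
  rw [hab] at h
  exact (Wo_wt_pow a b).2.trans h

theorem gd_subs {t u : Tm} {n : ℕ} (ht : wo t ≤ n) (h : u ∈ subs t) : Gd n u := by
  induction t with
  | one =>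
    rw [List.mem_singleton.1 h]
    exact Wo_small ht
  | var w =>
    rw [List.mem_singleton.1 h]
    exact Wo_small ht
  | add s t hs ht' =>
    have e : wo (.add s t) = wo s + wo t + 1 := rfl
    simp only [subs, List.mem_append, List.mem_singleton] at h
    rcases h with (h | h) | h
    · exact ht' (by omega) h
    · exact hs (by omega) h
    · rw [h]
      exact ⟨ht, fun a b hab => absurd hab (by simp)⟩
  | mul s t hs ht' =>
    have e : wo (.mul s t) = wo s + wo t + 1 := rfl
    simp only [subs, List.mem_append, List.mem_singleton] at h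
    rcases h with (h | h) | h
    · exact ht' (by omega) h
    · exact hs (by omega) h
    · rw [h]
      exact ⟨ht, fun a b hab => absurd hab (by simp)⟩
  | pow s t hs ht' =>
    by_cases hc : cst t = true
    · have e : wo (.pow s t) = wo s + wt t + 1 := if_pos hc
      simp only [subs, List.mem_append, List.mem_singleton] at h
      rcases h with (h | h) | h
      · have := wt_subs h
        exact Wo_small (by omega)
      · exact hs (by omega) h
      · rw [h]
        refine ⟨ht, fun a b hab => ?_⟩
        injection hab with e1 e2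
        rw [← e1, ← e2]
        refine ⟨by omega, fun hT => ?_⟩
        have h2 := hT.2
        rw [hc] at h2
        exact absurd h2 (by simp)
    · have e : wo (.pow s t) = wt (.pow s t) := if_neg hc
      have := wt_subs h
      exact Wo_small (by omega)

/-- The number of summands is at most doubly exponential. -/
theorem lg_le_wo (t : Tm) : lg t ≤ 2 ^ wo t := by
  have key : ∀ a b : ℕ, 1 ≤ a → 1 ≤ b → 2 ^ a + 2 ^ b + 1 ≤ 2 ^ (a + b + 1) := by
    intro a b ha hb
    have h1 : 2 * 2 ^ a ≤ 2 ^ (a + b) := by
      rw [mul_comm, ← pow_succ]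
      exact Nat.pow_le_pow_right two_pos (by omega)
    have h2 : 2 * 2 ^ b ≤ 2 ^ (a + b) := by
      rw [mul_comm, ← pow_succ]
      exact Nat.pow_le_pow_right two_pos (by omega)
    have h3 : 1 ≤ 2 ^ (a + b) := Nat.one_le_two_pow
    rw [pow_succ]
    omega
  induction t with
  | one => exact Nat.zero_le _
  | var w => exact Nat.zero_le _
  | add s t hs ht =>
    show lg s + lg t + 1 ≤ 2 ^ (wo s + wo t + 1)
    have := key _ _ (wo_pos s) (wo_pos t)
    omega
  | mul s t hs ht =>
    show lg s + lg t ≤ 2 ^ (wo s + wo t + 1)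
    have := key _ _ (wo_pos s) (wo_pos t)
    omega
  | pow s t hs _ =>
    by_cases hc : cst t = true
    · have e : wo (.pow s t) = wo s + wt t + 1 := if_pos hc
      rw [e]
      show cs t * lg s ≤ _
      have h1 : cs t ≤ 2 ^ wt t := (cs_le t).trans (Nat.pow_le_pow_right two_pos (lg_le t))
      refine (Nat.mul_le_mul h1 hs).trans ?_
      rw [← pow_add]
      exact Nat.pow_le_pow_right two_pos (by omega)
    · have e : wo (.pow s t) = wt (.pow s t) := if_neg hc
      rw [e]
      exact (lg_le _).trans Nat.lt_two_pow_self.le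

theorem ats_wt {t u : Tm} {n : ℕ} (ht : wo t ≤ n) (h : u ∈ ats t) : wt u ≤ n := by
  induction t with
  | one => exact absurd h (Set.notMem_empty u)
  | var w =>
    have h1 : u = .var w := h
    rw [h1]
    exact ht
  | add s t hs ht' =>
    have e : wo (.add s t) = wo s + wo t + 1 := rfl
    rcases h with h | h
    · exact hs (by omega) h
    · exact ht' (by omega) h
  | mul s t hs ht' =>
    have e : wo (.mul s t) = wo s + wo t + 1 := rfl
    rcases h with h | h
    · exact hs (by omega) h
    · exact ht' (by omega) h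
  | pow s t hs _ =>
    by_cases hc : cst t = true
    · have e : wo (.pow s t) = wo s + wt t + 1 := if_pos hc
      rcases h with h | h
      · have h2 := h.2.2
        rw [hc] at h2
        exact absurd h2 (by simp)
      · exact hs (by omega) h
    · have e : wo (.pow s t) = wt (.pow s t) := if_neg hc
      rcases h with h | h
      · rw [h.1, ← e]
        exact ht
      · have h1 := (Wo_wt_pow s t).1
        have h2 := wo_le s
        exact hs (by omega) h

private theorem Wo_one (n : ℕ) : thr n .one = .one := by
  unfold thr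
  split_ifs <;> rfl

private theorem Wo_cases (n : ℕ) (u : Tm) : thr n u = .one ∨ (thr n u = u ∧ wt u ≤ n) := by
  unfold thr
  by_cases h : wt u ≤ n
  · exact Or.inr ⟨if_pos h, h⟩
  · exact Or.inl (if_neg h)

private theorem Wo_thr {n : ℕ} {u : Tm} (h : wt u ≤ n) : thr n u = u := if_pos h

theorem exT_eq (n : ℕ) (s t : Tm) (a : ℕ) :
    exT n s t a = ((subs t ++ subs s).map (thr n)).getD a .one := by
  unfold exT exF
  rw [List.getD_eq_getElem?_getD, List.getD_eq_getElem?_getD, List.getElem?_map]
  cases (subs t ++ subs s)[a]? with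
  | none => exact Wo_one n
  | some x => rfl

private theorem Wo_self (t : Tm) : t ∈ subs t := by
  cases t <;> simp [subs]

private theorem Wo_ats {t u : Tm} (h : u ∈ ats t) : u ∈ subs t := by
  induction t with
  | one => exact absurd h (Set.notMem_empty u)
  | var w =>
    have h1 : u = .var w := h
    rw [h1]
    exact Wo_self _
  | add s t hs ht =>
    simp only [subs, List.mem_append]
    rcases h with h | h
    · exact Or.inl (Or.inr (hs h))
    · exact Or.inl (Or.inl (ht h))
  | mul s t hs ht =>
    simp only [subs, List.mem_append]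
    rcases h with h | h
    · exact Or.inl (Or.inr (hs h))
    · exact Or.inl (Or.inl (ht h))
  | pow s t hs _ =>
    rcases h with h | h
    · rw [h.1]
      exact Wo_self _
    · simp only [subs, List.mem_append]
      exact Or.inl (Or.inr (hs h))

private theorem Wo_bases {t c : Tm} (h : c ∈ bases t) : ∃ b, Tm.pow c b ∈ subs t := by
  induction t with
  | one => exact absurd h (Set.notMem_empty c)
  | var w => exact absurd h (Set.notMem_empty c)
  | add s t hs ht =>
    simp only [subs, List.mem_append]
    rcases h with h | h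
    · obtain ⟨b, hb⟩ := hs h
      exact ⟨b, Or.inl (Or.inr hb)⟩
    · obtain ⟨b, hb⟩ := ht h
      exact ⟨b, Or.inl (Or.inl hb)⟩
  | mul s t hs ht =>
    simp only [subs, List.mem_append]
    rcases h with h | h
    · obtain ⟨b, hb⟩ := hs h
      exact ⟨b, Or.inl (Or.inr hb)⟩
    · obtain ⟨b, hb⟩ := ht h
      exact ⟨b, Or.inl (Or.inl hb)⟩
  | pow s t hs _ =>
    rcases h with h | h
    · rw [h]
      exact ⟨t, Wo_self _⟩
    · obtain ⟨b, hb⟩ := hs h
      simp only [subs, List.mem_append]
      exact ⟨b, Or.inl (Or.inr hb)⟩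

private theorem Wo_getD_lt {U : List Tm} (x : Tm) {i : ℕ} (hi : i < U.length) :
    (U ++ [x]).getD i .one = U.getD i .one := by
  rw [List.getD_eq_getElem?_getD, List.getD_eq_getElem?_getD, List.getElem?_append_left hi]

private theorem Wo_getD_eq (U : List Tm) (x : Tm) : (U ++ [x]).getD U.length .one = x := by
  rw [List.getD_eq_getElem?_getD, List.getElem?_append_right le_rfl, Nat.sub_self]
  rfl

private theorem Wo_mem {U : List Tm} {a : Tm} (h : a ∈ U) :
    ∃ j < U.length, U.getD j .one = a := by
  obtain ⟨j, hj, h1⟩ := List.mem_iff_getElem.1 h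
  refine ⟨j, hj, ?_⟩
  rw [List.getD_eq_getElem?_getD, List.getElem?_eq_getElem hj, h1]
  rfl

private theorem Wo_step {U : List Tm} {x : Tm}
    (ih : ∀ i < U.length, ∀ u ∈ subs (U.getD i .one), ∃ j ≤ i, U.getD j .one = u)
    (hx : ∀ u ∈ subs x, u = x ∨ ∃ j < U.length, U.getD j .one = u) :
    ∀ i < (U ++ [x]).length, ∀ u ∈ subs ((U ++ [x]).getD i .one),
      ∃ j ≤ i, (U ++ [x]).getD j .one = u := by
  intro i hi u hu
  rw [List.length_append, List.length_singleton] at hi
  rcases Nat.lt_or_ge i U.length with h1 | h1
  · rw [Wo_getD_lt x h1] at hu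
    obtain ⟨j, hj, h2⟩ := ih i h1 u hu
    exact ⟨j, hj, by rw [Wo_getD_lt x (lt_of_le_of_lt hj h1)]; exact h2⟩
  · have h2 : i = U.length := by omega
    subst h2
    rw [Wo_getD_eq] at hu
    rcases hx u hu with h3 | ⟨j, hj, h3⟩
    · exact ⟨U.length, le_rfl, by rw [Wo_getD_eq, h3]⟩
    · exact ⟨j, hj.le, by rw [Wo_getD_lt x hj]; exact h3⟩

private theorem Wo_sub {U : List Tm}
    (ih : ∀ i < U.length, ∀ u ∈ subs (U.getD i .one), ∃ j ≤ i, U.getD j .one = u) {a : Tm}
    (ha : a ∈ U) : ∀ u ∈ subs a, ∃ j < U.length, U.getD j .one = u := by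
  intro u hu
  obtain ⟨k, hk, h1⟩ := Wo_mem ha
  obtain ⟨j, hj, h2⟩ := ih k hk u (by rw [h1]; exact hu)
  exact ⟨j, lt_of_le_of_lt hj hk, h2⟩

private theorem Wo_all {T : List Tok} {st U : List Tm} (h : Stk T st U) :
    ∀ i < U.length, ∀ u ∈ subs (U.getD i .one), ∃ j ≤ i, U.getD j .one = u := by
  induction h with
  | nil => exact fun i hi => absurd hi (Nat.not_lt_zero i)
  | one _ ih => exact Wo_step ih fun u hu => Or.inl (List.mem_singleton.1 hu)
  | var w _ ih => exact Wo_step ih fun u hu => Or.inl (List.mem_singleton.1 hu)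
  | @add T st U a b h ih =>
    refine Wo_step ih fun u hu => ?_
    simp only [subs, List.mem_append, List.mem_singleton] at hu
    rcases hu with (hu | hu) | hu
    · exact Or.inr (Wo_sub ih (h.mem b (List.mem_cons_of_mem _ List.mem_cons_self)) u hu)
    · exact Or.inr (Wo_sub ih (h.mem a List.mem_cons_self) u hu)
    · exact Or.inl hu
  | @mul T st U a b h ih =>
    refine Wo_step ih fun u hu => ?_
    simp only [subs, List.mem_append, List.mem_singleton] at hu
    rcases hu with (hu | hu) | hu
    · exact Or.inr (Wo_sub ih (h.mem b (List.mem_cons_of_mem _ List.mem_cons_self)) u hu)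
    · exact Or.inr (Wo_sub ih (h.mem a List.mem_cons_self) u hu)
    · exact Or.inl hu
  | @pow T st U a b h ih =>
    refine Wo_step ih fun u hu => ?_
    simp only [subs, List.mem_append, List.mem_singleton] at hu
    rcases hu with (hu | hu) | hu
    · exact Or.inr (Wo_sub ih (h.mem b (List.mem_cons_of_mem _ List.mem_cons_self)) u hu)
    · exact Or.inr (Wo_sub ih (h.mem a List.mem_cons_self) u hu)
    · exact Or.inl hu

/-- The family of an identity. -/
theorem fam_exT {s t : Tm} {n : ℕ} (hn : wo s + wo t ≤ n) :
    FamC (names (s.toks ++ t.toks)).toFinset n (s.sz + t.sz) (exT n s t) := by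
  have hF := fam_exF (s := s) (t := t) (n := wt s + wt t) le_rfl
  have hlen : (subs t ++ subs s).length = s.sz + t.sz := by
    rw [List.length_append, length_subs, length_subs, add_comm]
  have hs := sz_le_wo s
  have ht := sz_le_wo t
  have up : ∀ {i : ℕ} {u : Tm}, u ∈ exA (exF s t) i → wt u ≤ n → u ∈ exA (exT n s t) i := by
    rintro i u ⟨a, ha, h1, h2⟩ h3
    refine ⟨a, ha, ?_, h2⟩
    unfold exT
    rw [← h1, Wo_thr h3]
  refine ⟨fun a => ?_, by omega, ?_, ?_, ?_, ?_⟩
  · rcases Wo_cases n (exF s t a) with h | ⟨h, h'⟩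
    · have e : exT n s t a = .one := h
      rw [e]
      exact Nat.le_add_left 1 n
    · have e : exT n s t a = exF s t a := h
      rw [e]
      exact h'.trans (Nat.le_succ n)
  · intro i hi u hu
    rcases Wo_cases n (exF s t i) with h | ⟨h, h'⟩
    · have e : exT n s t i = .one := h
      rw [e] at hu
      exact absurd hu (Set.notMem_empty u)
    · have e : exT n s t i = exF s t i := h
      rw [e] at hu
      exact up (hF.at1 i hi hu) (ats_wt ((wo_le _).trans h') hu)
  · intro i hi a b hab
    rcases Wo_cases n (exF s t i) with h | ⟨h, h'⟩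
    · have e : exT n s t i = .one := h
      rw [e] at hab
      exact absurd hab (by simp)
    · have e : exT n s t i = exF s t i := h
      rw [e] at hab
      obtain ⟨h1, h2⟩ := hF.at2 i hi a b hab
      rw [hab] at h'
      obtain ⟨w1, w2⟩ := Wo_wt_pow a b
      refine ⟨fun u hu => up (h1 hu) (ats_wt (((wo_le a).trans w1).trans h') hu),
        fun u hu => up (h2 hu) (ats_wt (((wo_le b).trans w2).trans h') hu)⟩
  · intro i hi c hc
    rcases Wo_cases n (exF s t i) with h | ⟨h, h'⟩
    · have e : exT n s t i = .one := h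
      rw [e] at hc
      exact absurd hc (Set.notMem_empty c)
    · have e : exT n s t i = exF s t i := h
      rw [e] at hc
      obtain ⟨b, hb⟩ := Wo_bases hc
      obtain ⟨j, hj, h1⟩ := Wo_all (stk_pair s t) i (by rw [hlen]; exact hi) _ hb
      refine ⟨j, hj, b, ?_⟩
      have h2 : exF s t j = .pow c b := h1
      unfold exT
      rw [h2]
      exact Wo_thr ((wt_subs hb).trans h')
  · intro i hi w hw
    rcases Wo_cases n (exF s t i) with h | ⟨h, h'⟩
    · have e : exT n s t i = .one := h
      rw [e] at hw
      exact absurd hw (by simp)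
    · have e : exT n s t i = exF s t i := h
      rw [e] at hw
      exact hF.var i hi w hw

theorem ats_exT {s t u : Tm} {n : ℕ} (hn : wo s + wo t ≤ n) (hu : u = s ∨ u = t) :
    ats u ⊆ exA (exT n s t) (s.sz + t.sz) := by
  intro v hv
  have hlen : (subs t ++ subs s).length = s.sz + t.sz := by
    rw [List.length_append, length_subs, length_subs, add_comm]
  have hwo : wo u ≤ n := by
    rcases hu with h | h
    · rw [h]
      omega
    · rw [h]
      omega
  have h1 := Wo_ats hv
  have h2 : v ∈ subs t ++ subs s := by
    rcases hu with h | h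
    · rw [h] at h1
      exact List.mem_append_right _ h1
    · rw [h] at h1
      exact List.mem_append_left _ h1
  obtain ⟨j, hj, h3⟩ := Wo_mem h2
  refine ⟨j, by rw [← hlen]; exact hj, ?_, ats_self hv⟩
  have h4 : exF s t j = v := h3
  unfold exT
  rw [h4, Wo_thr (ats_wt hwo hv)]

end Pool.Agent.TQ
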