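import Pool.Agent.H.MP_b2d7dd_lc.TD.Wt
import Pool.Agent.H.MP_b2d7dd_lc.TQ.Wo

/-!
# Module Fl: recognition of the pairs of terms of small outer weight

Compare TD/Wt. The data of a term: the data `Wd` of TD/Wt (its two flags are always exact, the numbers
if the weight is at most `n`), the weight is at most `n`, the outer weight. `flags n T` = for every token
of `T`: the weight of the subterm which begins there is at most `n`.
-/

namespace Pool.Agent.TQ

open Pool.Agent.TI Pool.Agent.H.MP_5be563_lc.PT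
open Pool.Agent.TW (pow2 md rad rmu)
open Pool.Agent.TC (Stk subs exF)
open Pool.Agent.TD

variable {α : Type} [Enc α]

/-- The data of a term. -/
abbrev Od : Type := Wd × (Bool × List Bool)

/-- The data of `1`. -/
def od0 : Od := (wd0, (true, [true]))

/-- The data `Wd` of the next term. -/
def dnew (n : ℕ) (q : Tok) (s : List Od) : Wd :=
  wnew n q [(s.headD od0).1, (s.tail.headD od0).1]

/-- The weight of the next term is at most `n`. -/
def snew (n : ℕ) (q : Tok) (s : List Od) : Bool :=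
  (decide (q.1 = 0) || decide (q.1 = 4) || ((s.headD od0).2.1 && (s.tail.headD od0).2.1)) &&
    ble (dnew n q s).2.2.2 (nb n)

/-- The outer weight of the next term. -/
def onew (n : ℕ) (q : Tok) (s : List Od) : List Bool :=
  bif decide (q.1 = 0) || decide (q.1 = 4) then [true]
  else bif decide (q.1 = 3) then
    bif (s.tail.headD od0).1.1.2 then
      rad (Mw n) (rad (Mw n) (s.headD od0).2.2 (s.tail.headD od0).1.2.2.2) [true]
    else (dnew n q s).2.2.2
  else rad (Mw n) (rad (Mw n) (s.headD od0).2.2 (s.tail.headD od0).2.2) [true]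

/-- The outer weight of the next term is at most `n`. -/
def gnew (n : ℕ) (q : Tok) (s : List Od) : Bool :=
  ble (onew n q s) (nb n) &&
    (!decide (q.1 = 3) || (bif (s.tail.headD od0).1.1.2 then (s.tail.headD od0).2.1
      else snew n q s))

/-- One step: the stack, the flags, ok. -/
def oStep (n : ℕ) (q : Tok) (s : List Od × List Bool × Bool) : List Od × List Bool × Bool :=
  ((dnew n q s.1, (snew n q s.1, onew n q s.1)) ::
      (bif decide (q.1 = 0) || decide (q.1 = 4) then s.1 else s.1.tail.tail),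
    snew n q s.1 :: s.2.1,
    s.2.2 && (decide (q.1 = 0) || decide (q.1 = 4) || decide (2 ≤ s.1.length)) && gnew n q s.1)

/-- The run on the tokens. -/
def orun (n : ℕ) (T : List Tok) : List Od × List Bool × Bool := T.foldr (oStep n) ([], [], true)

/-- The tokens are the tokens of two terms, the sum of their outer weights is at most `n`. -/
def shapeO (n : ℕ) (T : List Tok) : Bool :=
  (orun n T).2.2 && decide ((orun n T).1.length = 2) &&
    ble (badd ((orun n T).1.headD od0).2.2 ((orun n T).1.tail.headD od0).2.2) (nb n)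

/-- The subterms of small weight. -/
def flags (n : ℕ) (T : List Tok) : List Bool := (orun n T).2.1

/-- The tokens with the flags. -/
def zf (n : ℕ) (T : List Tok) : List (Tok × Bool) := T.zip (flags n T)

private theorem Fl_nb_succ (n : ℕ) : nb (n + 1) = btrim (badd (nb n) [true]) := by
  unfold nb
  rw [Function.iterate_succ_apply']

private theorem Fl_nb_length (n : ℕ) : (nb n).length ≤ n := by
  cases n with
  | zero => exact le_rfl
  | succ n =>
    have h1 := bval_nb (n + 1)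
    rw [Fl_nb_succ] at h1 ⊢
    rw [bval_btrim] at h1
    refine length_btrim_le ?_
    rw [h1]
    exact Nat.lt_two_pow_self

/-- The data `d` is the data of the term `t`. -/
private def Fl_W (d : Wd) (t : Tm) : Prop :=
  d.1 = (big t, cst t) ∧ bval d.2.1 = cs t ∧ bval d.2.2.1 = lg t ∧ bval d.2.2.2 = wt t

private theorem Fl_bval_Mw (n : ℕ) : bval (Mw n) = 2 ^ (3 * n + 6) := Pool.Agent.TW.bval_pow2 _

private theorem Fl_one : bval [true] = 1 := rfl

private theorem Fl_rad {n : ℕ} {x y : List Bool} (h : bval x + bval y < 2 ^ (3 * n + 6)) :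
    bval (rad (Mw n) x y) = bval x + bval y := by
  rw [rad, Pool.Agent.TW.bval_bmod_md, bval_badd, Fl_bval_Mw]
  exact Nat.mod_eq_of_lt (by omega)

private theorem Fl_rmu {n : ℕ} {x y : List Bool} (h : bval x * bval y < 2 ^ (3 * n + 6)) :
    bval (rmu (Mw n) x y) = bval x * bval y := by
  rw [rmu, Pool.Agent.TW.bval_bmod_md, bval_bmul, Fl_bval_Mw]
  exact Nat.mod_eq_of_lt (by omega)

private theorem Fl_bpw {n : ℕ} {x y : List Bool} (h : bval x ^ bval y < 2 ^ (3 * n + 6)) :
    bval (bpw x y (md (Mw n))) = bval x ^ bval y := by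
  rw [bval_bpw, Pool.Agent.TW.bval_md, Fl_bval_Mw]
  exact Nat.mod_eq_of_lt (by omega)

private theorem Fl_pw (n : ℕ) : n < 2 ^ n ∧ 2 ^ n ≤ 2 ^ n * 2 ^ n ∧
    64 * (2 ^ n * 2 ^ n) ≤ 2 ^ (3 * n + 6) := by
  have h0 : 0 < 2 ^ n := Nat.two_pow_pos n
  refine ⟨Nat.lt_two_pow_self, Nat.le_mul_of_pos_left _ h0, ?_⟩
  have h1 : 2 ^ (3 * n + 6) = 64 * (2 ^ n * 2 ^ n) * 2 ^ n := by
    rw [show 3 * n + 6 = n + n + n + 6 by omega, pow_add, pow_add, pow_add]
    norm_num
    ring
  rw [h1]
  exact Nat.le_mul_of_pos_right _ h0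

private theorem Fl_cs {n : ℕ} {t : Tm} (h : wt t ≤ n) : cs t ≤ 2 ^ n :=
  (cs_le t).trans (Nat.pow_le_pow_right (by norm_num) ((lg_le t).trans h))

private theorem Fl_add {n : ℕ} {a b : Wd} {s t : Tm} (ha : Fl_W a s) (hb : Fl_W b t)
    (hs : wt s ≤ n) (ht : wt t ≤ n) : Fl_W (wadd n a b) (.add s t) := by
  obtain ⟨a1, a2, a3, a4⟩ := ha
  obtain ⟨b1, b2, b3, b4⟩ := hb
  obtain ⟨p1, p2, p3⟩ := Fl_pw n
  have hls := (lg_le s).trans hs
  have hlt := (lg_le t).trans ht
  have hcs := Fl_cs hs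
  have hct := Fl_cs ht
  have d1 : (wadd n a b).1 = (true, a.1.2 && b.1.2) := by simp only [wadd]
  have d2 : (wadd n a b).2.1 = rad (Mw n) a.2.1 b.2.1 := by simp only [wadd]
  have d3 : (wadd n a b).2.2.1 = rad (Mw n) (rad (Mw n) a.2.2.1 b.2.2.1) [true] := by
    simp only [wadd]
  have d4 : (wadd n a b).2.2.2 = rad (Mw n) (rad (Mw n) a.2.2.2 b.2.2.2) [true] := by
    simp only [wadd]
  have w1 : wt (.add s t) = wt s + wt t + 1 := by simp only [wt]
  have w2 : lg (.add s t) = lg s + lg t + 1 := by simp only [lg]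
  have w3 : cs (.add s t) = cs s + cs t := by simp only [cs]
  have w4 : cst (.add s t) = (cst s && cst t) := by simp only [cst]
  have w5 : big (.add s t) = true := by simp only [big]
  refine ⟨?_, ?_, ?_, ?_⟩
  · rw [d1, w4, w5, a1, b1]
  · rw [d2, w3, Fl_rad (by rw [a2, b2]; omega), a2, b2]
  · have e2 : bval (rad (Mw n) a.2.2.1 b.2.2.1) = lg s + lg t := by
      rw [Fl_rad (by rw [a3, b3]; omega), a3, b3]
    rw [d3, w2, Fl_rad (by rw [e2, Fl_one]; omega), e2, Fl_one]
  · have e2 : bval (rad (Mw n) a.2.2.2 b.2.2.2) = wt s + wt t := by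
      rw [Fl_rad (by rw [a4, b4]; omega), a4, b4]
    rw [d4, w1, Fl_rad (by rw [e2, Fl_one]; omega), e2, Fl_one]

private theorem Fl_mul {n : ℕ} {a b : Wd} {s t : Tm} (ha : Fl_W a s) (hb : Fl_W b t)
    (hs : wt s ≤ n) (ht : wt t ≤ n) : Fl_W (wmul n a b) (.mul s t) := by
  obtain ⟨a1, a2, a3, a4⟩ := ha
  obtain ⟨b1, b2, b3, b4⟩ := hb
  obtain ⟨p1, p2, p3⟩ := Fl_pw n
  have hls := (lg_le s).trans hs
  have hlt := (lg_le t).trans ht
  have hm : cs s * cs t ≤ 2 ^ n * 2 ^ n := Nat.mul_le_mul (Fl_cs hs) (Fl_cs ht)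
  have d1 : (wmul n a b).1 = (a.1.1 || b.1.1, a.1.2 && b.1.2) := by simp only [wmul]
  have d2 : (wmul n a b).2.1 = rmu (Mw n) a.2.1 b.2.1 := by simp only [wmul]
  have d3 : (wmul n a b).2.2.1 = rad (Mw n) a.2.2.1 b.2.2.1 := by simp only [wmul]
  have d4 : (wmul n a b).2.2.2 = rad (Mw n) (rad (Mw n) a.2.2.2 b.2.2.2) [true] := by
    simp only [wmul]
  have w1 : wt (.mul s t) = wt s + wt t + 1 := by simp only [wt]
  have w2 : lg (.mul s t) = lg s + lg t := by simp only [lg]
  have w3 : cs (.mul s t) = cs s * cs t := by simp only [cs]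
  have w4 : cst (.mul s t) = (cst s && cst t) := by simp only [cst]
  have w5 : big (.mul s t) = (big s || big t) := by simp only [big]
  refine ⟨?_, ?_, ?_, ?_⟩
  · rw [d1, w4, w5, a1, b1]
  · rw [d2, w3, Fl_rmu (by rw [a2, b2]; omega), a2, b2]
  · rw [d3, w2, Fl_rad (by rw [a3, b3]; omega), a3, b3]
  · have e2 : bval (rad (Mw n) a.2.2.2 b.2.2.2) = wt s + wt t := by
      rw [Fl_rad (by rw [a4, b4]; omega), a4, b4]
    rw [d4, w1, Fl_rad (by rw [e2, Fl_one]; omega), e2, Fl_one]

private theorem Fl_pow {n : ℕ} {a b : Wd} {s t : Tm} (ha : Fl_W a s) (hb : Fl_W b t)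
    (hs : wt s ≤ n) (ht : wt t ≤ n) :
    bval (wpow n a b).2.2.2 = wt (.pow s t) ∧
      (wt (.pow s t) ≤ n → Fl_W (wpow n a b) (.pow s t)) := by
  obtain ⟨a1, a2, a3, a4⟩ := ha
  obtain ⟨b1, b2, b3, b4⟩ := hb
  obtain ⟨p1, p2, p3⟩ := Fl_pw n
  have hls := (lg_le s).trans hs
  have hct := Fl_cs ht
  have hm : cs t * lg s ≤ 2 ^ n * 2 ^ n := Nat.mul_le_mul hct (hls.trans p1.le)
  have e1 : bval (rmu (Mw n) b.2.1 a.2.2.1) = cs t * lg s := by
    rw [Fl_rmu (by rw [b2, a3]; omega), b2, a3]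
  have e2 : bval (rad (Mw n) a.2.2.2 b.2.2.2) = wt s + wt t := by
    rw [Fl_rad (by rw [a4, b4]; omega), a4, b4]
  have e3 : bval (rad (Mw n) (rad (Mw n) a.2.2.2 b.2.2.2) [true]) = wt s + wt t + 1 := by
    rw [Fl_rad (by rw [e2, Fl_one]; omega), e2, Fl_one]
  have d1 : (wpow n a b).1 = (a.1.1, (a.1.2 && b.1.2) || !a.1.1) := by simp only [wpow]
  have d2 : (wpow n a b).2.1 = bif b.1.2 || !a.1.1 then bpw a.2.1 b.2.1 (md (Mw n)) else [] := by
    simp only [wpow]
  have d3 : (wpow n a b).2.2.1 = rmu (Mw n) b.2.1 a.2.2.1 := by simp only [wpow]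
  have d4 : (wpow n a b).2.2.2 = rad (Mw n) (rad (Mw n) (rad (Mw n) a.2.2.2 b.2.2.2) [true])
      (rmu (Mw n) b.2.1 a.2.2.1) := by simp only [wpow]
  have w1 : wt (.pow s t) = wt s + wt t + 1 + cs t * lg s := by simp only [wt]
  have w2 : lg (.pow s t) = cs t * lg s := by simp only [lg]
  have w3 : cs (.pow s t) = if (cst t || !big s) = true then cs s ^ cs t else 0 := by
    simp only [cs]
  have w4 : cst (.pow s t) = ((cst s && cst t) || !big s) := by simp only [cst]
  have w5 : big (.pow s t) = big s := by simp only [big]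
  have e4 : bval (wpow n a b).2.2.2 = wt (.pow s t) := by
    rw [d4, w1, Fl_rad (by rw [e3, e1]; omega), e3, e1]
  refine ⟨e4, fun h => ⟨?_, ?_, ?_, e4⟩⟩
  · rw [d1, w4, w5, a1, b1]
  · have h5 : cs s ^ cs t ≤ 2 ^ n := by
      have h6 : cs t * lg s ≤ n := by omega
      calc cs s ^ cs t ≤ (2 ^ lg s) ^ cs t := Nat.pow_le_pow_left (cs_le s) _
        _ = 2 ^ (cs t * lg s) := by rw [← pow_mul, mul_comm]
        _ ≤ 2 ^ n := Nat.pow_le_pow_right (by norm_num) h6
    have h8 : (b.1.2 || !a.1.1) = (cst t || !big s) := by rw [a1, b1]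
    rw [d2, w3, h8]
    by_cases h7 : (cst t || !big s) = true
    · rw [if_pos h7, h7, cond_true, Fl_bpw (by rw [a2, b2]; omega), a2, b2]
    · rw [if_neg h7]
      have h9 : (cst t || !big s) = false := by simpa using h7
      rw [h9, cond_false, bval_nil]
  · rw [d3, e1, w2]

/-- The term of an operation. -/
private def Fl_mk (k : ℕ) (s t : Tm) : Tm :=
  if k = 1 then .add s t else if k = 2 then .mul s t else .pow s t

private theorem Fl_mk_toks {k : ℕ} (h0 : k ≠ 0) (h4 : k < 4) (x y : Tm) :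
    (Fl_mk k x y).toks = (k, []) :: (x.toks ++ y.toks) := by
  rcases (by omega : k = 1 ∨ k = 2 ∨ k = 3) with rfl | rfl | rfl <;> rfl

private theorem Fl_node {n k : ℕ} {w : List Bool} {a b : Wd} {r : List Wd} {s t : Tm}
    (h0 : k ≠ 0) (h4 : k ≠ 4) (ha : Fl_W a s) (hb : Fl_W b t) (hs : wt s ≤ n) (ht : wt t ≤ n) :
    bval (wnew n (k, w) (a :: b :: r)).2.2.2 = wt (Fl_mk k s t) ∧
      (wt (Fl_mk k s t) ≤ n → Fl_W (wnew n (k, w) (a :: b :: r)) (Fl_mk k s t)) := by
  by_cases h1 : k = 1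
  · subst h1
    have e1 : wnew n (1, w) (a :: b :: r) = wadd n a b := by simp [wnew]
    have e2 : Fl_mk 1 s t = .add s t := rfl
    have h := Fl_add ha hb hs ht
    rw [e1, e2]
    exact ⟨h.2.2.2, fun _ => h⟩
  by_cases h2 : k = 2
  · subst h2
    have e1 : wnew n (2, w) (a :: b :: r) = wmul n a b := by simp [wnew]
    have e2 : Fl_mk 2 s t = .mul s t := rfl
    have h := Fl_mul ha hb hs ht
    rw [e1, e2]
    exact ⟨h.2.2.2, fun _ => h⟩
  have e1 : wnew n (k, w) (a :: b :: r) = wpow n a b := by simp [wnew, h0, h1, h2, h4]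
  have e2 : Fl_mk k s t = .pow s t := by simp [Fl_mk, h1, h2]
  rw [e1, e2]
  exact Fl_pow ha hb hs ht

private theorem Fl_new0 (n : ℕ) (w : List Bool) (s : List Wd) : wnew n (0, w) s = wd0 := by
  simp [wnew]

private theorem Fl_new4 (n : ℕ) (w : List Bool) (s : List Wd) :
    wnew n (4, w) s = ((true, false), ([], [], [true])) := by
  simp [wnew]

private theorem Fl_W0 : Fl_W wd0 .one := ⟨rfl, rfl, rfl, rfl⟩

private theorem Fl_W4 (w : List Bool) : Fl_W ((true, false), ([], [], [true])) (.var w) :=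
  ⟨rfl, rfl, rfl, rfl⟩

private theorem Fl_ble (n : ℕ) (x : List Bool) : ble x (nb n) = decide (bval x ≤ n) := by
  rw [Bool.eq_iff_iff, ble_iff, bval_nb, decide_eq_true_eq]

/-- The data `d` is the data of the term `t`. -/
private def Fl_D (n : ℕ) (d : Od) (t : Tm) : Prop :=
  d.1.1 = (big t, cst t) ∧ d.2.1 = decide (wt t ≤ n) ∧ (wt t ≤ n → Fl_W d.1 t) ∧
    bval d.2.2 = wo t

private theorem Fl_D0 (n : ℕ) : Fl_D n (wd0, (ble [true] (nb n), [true])) .one := by
  refine ⟨rfl, ?_, fun _ => Fl_W0, rfl⟩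
  show ble [true] (nb n) = _
  rw [Fl_ble]
  rfl

private theorem Fl_D4 (n : ℕ) (w : List Bool) :
    Fl_D n (((true, false), ([], [], [true])), (ble [true] (nb n), [true])) (.var w) := by
  refine ⟨rfl, ?_, fun _ => Fl_W4 w, rfl⟩
  show ble [true] (nb n) = _
  rw [Fl_ble]
  rfl

private theorem Fl_leaf0 (n : ℕ) (w : List Bool) (s : List Od × List Bool × Bool) :
    oStep n (0, w) s = ((wd0, (ble [true] (nb n), [true])) :: s.1, ble [true] (nb n) :: s.2.1,
      s.2.2 && ble [true] (nb n)) := by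
  have e1 : dnew n (0, w) s.1 = wd0 := by simp [dnew, wnew]
  have e2 : snew n (0, w) s.1 = ble [true] (nb n) := by
    have h : snew n (0, w) s.1 = ble (dnew n (0, w) s.1).2.2.2 (nb n) := by simp [snew]
    rw [h, e1]
    rfl
  have e3 : onew n (0, w) s.1 = [true] := by simp [onew]
  have e4 : gnew n (0, w) s.1 = ble [true] (nb n) := by
    have h : gnew n (0, w) s.1 = ble (onew n (0, w) s.1) (nb n) := by simp [gnew]
    rw [h, e3]
  have h : oStep n (0, w) s = ((dnew n (0, w) s.1, (snew n (0, w) s.1, onew n (0, w) s.1)) :: s.1,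
      snew n (0, w) s.1 :: s.2.1, s.2.2 && gnew n (0, w) s.1) := by simp [oStep]
  rw [h, e1, e2, e3, e4]

private theorem Fl_leaf4 (n : ℕ) (w : List Bool) (s : List Od × List Bool × Bool) :
    oStep n (4, w) s = ((((true, false), ([], [], [true])), (ble [true] (nb n), [true])) :: s.1,
      ble [true] (nb n) :: s.2.1, s.2.2 && ble [true] (nb n)) := by
  have e1 : dnew n (4, w) s.1 = ((true, false), ([], [], [true])) := by simp [dnew, wnew]
  have e2 : snew n (4, w) s.1 = ble [true] (nb n) := by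
    have h : snew n (4, w) s.1 = ble (dnew n (4, w) s.1).2.2.2 (nb n) := by simp [snew]
    rw [h, e1]
  have e3 : onew n (4, w) s.1 = [true] := by simp [onew]
  have e4 : gnew n (4, w) s.1 = ble [true] (nb n) := by
    have h : gnew n (4, w) s.1 = ble (onew n (4, w) s.1) (nb n) := by simp [gnew]
    rw [h, e3]
  have h : oStep n (4, w) s = ((dnew n (4, w) s.1, (snew n (4, w) s.1, onew n (4, w) s.1)) :: s.1,
      snew n (4, w) s.1 :: s.2.1, s.2.2 && gnew n (4, w) s.1) := by simp [oStep]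
  rw [h, e1, e2, e3, e4]

private theorem Fl_opStep {n k : ℕ} (h0 : k ≠ 0) (h4 : k ≠ 4) (w : List Bool)
    (s : List Od × List Bool × Bool) :
    oStep n (k, w) s = ((dnew n (k, w) s.1, (snew n (k, w) s.1, onew n (k, w) s.1)) ::
      s.1.tail.tail, snew n (k, w) s.1 :: s.2.1,
      s.2.2 && decide (2 ≤ s.1.length) && gnew n (k, w) s.1) := by
  simp [oStep, h0, h4]

private theorem Fl_mk_wt {k : ℕ} (h0 : k ≠ 0) (h4 : k < 4) (x y : Tm) :
    wt x + wt y + 1 ≤ wt (Fl_mk k x y) := by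
  rcases (by omega : k = 1 ∨ k = 2 ∨ k = 3) with rfl | rfl | rfl
  · show wt x + wt y + 1 ≤ wt x + wt y + 1
    exact le_rfl
  · show wt x + wt y + 1 ≤ wt x + wt y + 1
    exact le_rfl
  · show wt x + wt y + 1 ≤ wt x + wt y + 1 + cs y * lg x
    exact Nat.le_add_right _ _

private theorem Fl_mk_wo {k : ℕ} (h0 : k ≠ 0) (h4 : k < 4) (x y : Tm) :
    wo x + wo y + 1 ≤ wo (Fl_mk k x y) := by
  rcases (by omega : k = 1 ∨ k = 2 ∨ k = 3) with rfl | rfl | rfl
  · show wo x + wo y + 1 ≤ wo x + wo y + 1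
    exact le_rfl
  · show wo x + wo y + 1 ≤ wo x + wo y + 1
    exact le_rfl
  · show wo x + wo y + 1 ≤ if cst y = true then wo x + wt y + 1 else wt x + wt y + 1 + cs y * lg x
    have h1 := wo_le x
    have h2 := wo_le y
    split_ifs
    · omega
    · have h3 := Nat.zero_le (cs y * lg x)
      omega

private theorem Fl_flag {n k : ℕ} {w : List Bool} {a b : Wd} {x y : Tm} (h0 : k ≠ 0) (h4 : k < 4)
    (ha : a.1 = (big x, cst x)) (hb : b.1 = (big y, cst y)) :
    (wnew n (k, w) [a, b]).1 = (big (Fl_mk k x y), cst (Fl_mk k x y)) := by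
  rcases (by omega : k = 1 ∨ k = 2 ∨ k = 3) with rfl | rfl | rfl
  · have e1 : wnew n (1, w) [a, b] = wadd n a b := by simp [wnew]
    rw [e1]
    show (true, a.1.2 && b.1.2) = (true, cst x && cst y)
    rw [ha, hb]
  · have e1 : wnew n (2, w) [a, b] = wmul n a b := by simp [wnew]
    rw [e1]
    show (a.1.1 || b.1.1, a.1.2 && b.1.2) = (big x || big y, cst x && cst y)
    rw [ha, hb]
  · have e1 : wnew n (3, w) [a, b] = wpow n a b := by simp [wnew]
    rw [e1]
    show (a.1.1, (a.1.2 && b.1.2) || !a.1.1) = (big x, (cst x && cst y) || !big x)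
    rw [ha, hb]

private theorem Fl_op {n k : ℕ} {w : List Bool} {a b : Od} {r : List Od} {x y : Tm} (h0 : k ≠ 0)
    (h4 : k < 4) (ha : Fl_D n a x) (hb : Fl_D n b y) (hx : wo x ≤ n) (hy : wo y ≤ n) :
    (gnew n (k, w) (a :: b :: r) = true ↔ wo (Fl_mk k x y) ≤ n) ∧
      (wo (Fl_mk k x y) ≤ n → Fl_D n (dnew n (k, w) (a :: b :: r),
        (snew n (k, w) (a :: b :: r), onew n (k, w) (a :: b :: r))) (Fl_mk k x y)) := by
  obtain ⟨a1, a2, a3, a4⟩ := ha
  obtain ⟨b1, b2, b3, b4⟩ := hb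
  obtain ⟨p1, p2, p3⟩ := Fl_pw n
  have h4' : k ≠ 4 := by omega
  have hN := Fl_mk_wt h0 h4 x y
  have d0 : dnew n (k, w) (a :: b :: r) = wnew n (k, w) [a.1, b.1] := rfl
  have f1 : (dnew n (k, w) (a :: b :: r)).1 = (big (Fl_mk k x y), cst (Fl_mk k x y)) :=
    Fl_flag h0 h4 a1 b1
  have hnode : wt x ≤ n → wt y ≤ n →
      bval (dnew n (k, w) (a :: b :: r)).2.2.2 = wt (Fl_mk k x y) ∧
      (wt (Fl_mk k x y) ≤ n → Fl_W (dnew n (k, w) (a :: b :: r)) (Fl_mk k x y)) :=
    fun hx hy => Fl_node h0 h4' (a3 hx) (b3 hy) hx hy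
  have s1 : snew n (k, w) (a :: b :: r) = decide (wt (Fl_mk k x y) ≤ n) := by
    have e : snew n (k, w) (a :: b :: r) =
        ((a.2.1 && b.2.1) && ble (dnew n (k, w) (a :: b :: r)).2.2.2 (nb n)) := by
      simp [snew, h0, h4']
    rw [e, a2, b2, Fl_ble]
    by_cases hs : wt x ≤ n ∧ wt y ≤ n
    · rw [(hnode hs.1 hs.2).1, decide_eq_true hs.1, decide_eq_true hs.2]
      rfl
    · have h5 : ¬ wt (Fl_mk k x y) ≤ n := by omega
      rw [decide_eq_false h5]
      by_cases hs1 : wt x ≤ n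
      · have hs2 : ¬ wt y ≤ n := fun h => hs ⟨hs1, h⟩
        rw [decide_eq_false hs2, Bool.and_false, Bool.false_and]
      · rw [decide_eq_false hs1, Bool.false_and, Bool.false_and]
  have w3 : wt (Fl_mk k x y) ≤ n → Fl_W (dnew n (k, w) (a :: b :: r)) (Fl_mk k x y) :=
    fun h => (hnode (by omega) (by omega)).2 h
  by_cases hk : k = 3
  · subst hk
    by_cases hc : cst y = true
    · have hb1 : b.1.1.2 = true := by
        rw [b1]
        exact hc
      have o1 : onew n (3, w) (a :: b :: r) =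
          rad (Mw n) (rad (Mw n) a.2.2 b.1.2.2.2) [true] := by simp [onew, hb1]
      have g1 : gnew n (3, w) (a :: b :: r) =
          (ble (onew n (3, w) (a :: b :: r)) (nb n) && b.2.1) := by simp [gnew, hb1]
      have wN : wo (Fl_mk 3 x y) = wo x + wt y + 1 := by
        show (if cst y = true then wo x + wt y + 1 else wt x + wt y + 1 + cs y * lg x) = _
        rw [if_pos hc]
      have o2 : wt y ≤ n → bval (onew n (3, w) (a :: b :: r)) = wo (Fl_mk 3 x y) := by
        intro h
        have h6 := (b3 h).2.2.2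
        have e2 : bval (rad (Mw n) a.2.2 b.1.2.2.2) = wo x + wt y := by
          rw [Fl_rad (by rw [a4, h6]; omega), a4, h6]
        rw [o1, Fl_rad (by rw [e2, Fl_one]; omega), e2, Fl_one, wN]
      refine ⟨⟨fun h => ?_, fun h => ?_⟩, fun h => ⟨f1, s1, w3, o2 (by omega)⟩⟩
      · rw [g1, Bool.and_eq_true, b2, decide_eq_true_eq, Fl_ble, decide_eq_true_eq] at h
        rw [← o2 h.2]
        exact h.1
      · have hy2 : wt y ≤ n := by omega
        rw [g1, Bool.and_eq_true, b2, decide_eq_true_eq, Fl_ble, decide_eq_true_eq, o2 hy2]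
        exact ⟨h, hy2⟩
    · have hc' : cst y = false := by simpa using hc
      have hb1 : b.1.1.2 = false := by
        rw [b1]
        exact hc'
      have o1 : onew n (3, w) (a :: b :: r) = (dnew n (3, w) (a :: b :: r)).2.2.2 := by
        simp [onew, hb1]
      have g1 : gnew n (3, w) (a :: b :: r) =
          (ble (onew n (3, w) (a :: b :: r)) (nb n) && snew n (3, w) (a :: b :: r)) := by
        simp [gnew, hb1]
      have wN : wo (Fl_mk 3 x y) = wt (Fl_mk 3 x y) := by
        show (if cst y = true then wo x + wt y + 1 else wt x + wt y + 1 + cs y * lg x) = _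
        rw [if_neg hc]
        rfl
      refine ⟨⟨fun h => ?_, fun h => ?_⟩, fun h => ⟨f1, s1, w3, ?_⟩⟩
      · rw [g1, Bool.and_eq_true, s1, decide_eq_true_eq] at h
        rw [wN]
        exact h.2
      · rw [wN] at h
        rw [g1, Bool.and_eq_true, s1, decide_eq_true_eq, Fl_ble, decide_eq_true_eq, o1,
          (hnode (by omega) (by omega)).1]
        exact ⟨h, h⟩
      · rw [wN] at h
        show bval (onew n (3, w) (a :: b :: r)) = _
        rw [o1, (hnode (by omega) (by omega)).1, wN]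
  · have o1 : onew n (k, w) (a :: b :: r) = rad (Mw n) (rad (Mw n) a.2.2 b.2.2) [true] := by
      simp [onew, h0, hk, h4']
    have g1 : gnew n (k, w) (a :: b :: r) = ble (onew n (k, w) (a :: b :: r)) (nb n) := by
      simp [gnew, hk]
    have wN : wo (Fl_mk k x y) = wo x + wo y + 1 := by
      rcases (by omega : k = 1 ∨ k = 2) with rfl | rfl <;> rfl
    have o2 : bval (onew n (k, w) (a :: b :: r)) = wo (Fl_mk k x y) := by
      have e2 : bval (rad (Mw n) a.2.2 b.2.2) = wo x + wo y := by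
        rw [Fl_rad (by rw [a4, b4]; omega), a4, b4]
      rw [o1, Fl_rad (by rw [e2, Fl_one]; omega), e2, Fl_one, wN]
    refine ⟨?_, fun h => ⟨f1, s1, w3, o2⟩⟩
    rw [g1, Fl_ble, decide_eq_true_eq, o2]

private theorem Fl_run {n k : ℕ} {x y : Tm} (h0 : k ≠ 0) (h4 : k < 4)
    (hxy : wo (Fl_mk k x y) ≤ n)
    (ihx : wo x ≤ n → ∀ s : List Od × List Bool × Bool, ∃ d, Fl_D n d x ∧
      (x.toks.foldr (oStep n) s).1 = d :: s.1 ∧ (x.toks.foldr (oStep n) s).2.2 = s.2.2)
    (ihy : wo y ≤ n → ∀ s : List Od × List Bool × Bool, ∃ d, Fl_D n d y ∧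
      (y.toks.foldr (oStep n) s).1 = d :: s.1 ∧ (y.toks.foldr (oStep n) s).2.2 = s.2.2)
    (s : List Od × List Bool × Bool) :
    ∃ d, Fl_D n d (Fl_mk k x y) ∧
      (((k, []) :: (x.toks ++ y.toks)).foldr (oStep n) s).1 = d :: s.1 ∧
      (((k, []) :: (x.toks ++ y.toks)).foldr (oStep n) s).2.2 = s.2.2 := by
  have h5 := Fl_mk_wo h0 h4 x y
  have hx : wo x ≤ n := by omega
  have hy : wo y ≤ n := by omega
  obtain ⟨dy, hdy, ey, ey2⟩ := ihy hy s
  obtain ⟨dx, hdx, ex, ex2⟩ := ihx hx (y.toks.foldr (oStep n) s)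
  rw [ey] at ex
  rw [ey2] at ex2
  obtain ⟨h1, h2⟩ := Fl_op (w := []) (r := s.1) h0 h4 hdx hdy hx hy
  refine ⟨_, h2 hxy, ?_, ?_⟩
  · rw [List.foldr_cons, List.foldr_append, Fl_opStep h0 (by omega), ex]
    rfl
  · rw [List.foldr_cons, List.foldr_append, Fl_opStep h0 (by omega), ex, ex2, h1.2 hxy,
      Bool.and_true]
    simp

/-- The run on the tokens of a term. -/
private theorem Fl_toks {n : ℕ} {t : Tm} (ht : wo t ≤ n) (s : List Od × List Bool × Bool) :
    ∃ d, Fl_D n d t ∧ (t.toks.foldr (oStep n) s).1 = d :: s.1 ∧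
      (t.toks.foldr (oStep n) s).2.2 = s.2.2 := by
  induction t generalizing s with
  | one =>
    have h1 : 1 ≤ n := ht
    have h3 : ble [true] (nb n) = true := by
      rw [Fl_ble, decide_eq_true_eq]
      exact h1
    refine ⟨_, Fl_D0 n, ?_, ?_⟩
    · show (oStep n (0, []) s).1 = _
      rw [Fl_leaf0]
    · show (oStep n (0, []) s).2.2 = _
      rw [Fl_leaf0, h3, Bool.and_true]
  | var w =>
    have h1 : 1 ≤ n := ht
    have h3 : ble [true] (nb n) = true := by
      rw [Fl_ble, decide_eq_true_eq]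
      exact h1
    refine ⟨_, Fl_D4 n w, ?_, ?_⟩
    · show (oStep n (4, w) s).1 = _
      rw [Fl_leaf4]
    · show (oStep n (4, w) s).2.2 = _
      rw [Fl_leaf4, h3, Bool.and_true]
  | add x y ihx ihy =>
    exact Fl_run (k := 1) (by norm_num) (by norm_num) ht ihx ihy s
  | mul x y ihx ihy =>
    exact Fl_run (k := 2) (by norm_num) (by norm_num) ht ihx ihy s
  | pow x y ihx ihy =>
    exact Fl_run (k := 3) (by norm_num) (by norm_num) ht ihx ihy s

private theorem Fl_cons (n : ℕ) (q : Tok) (T : List Tok) :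
    orun n (q :: T) = oStep n q (orun n T) := rfl

private theorem Fl_forw {n : ℕ} {T : List Tok} (hT : ∀ q ∈ T, Can q)
    (hok : (orun n T).2.2 = true) :
    ∃ l : List Tm, (∀ t ∈ l, wo t ≤ n) ∧ T = l.flatMap Tm.toks ∧
      List.Forall₂ (Fl_D n) (orun n T).1 l := by
  induction T with
  | nil => exact ⟨[], by simp, rfl, List.Forall₂.nil⟩
  | cons q T ih =>
    obtain ⟨k, w⟩ := q
    have hq := hT _ List.mem_cons_self
    have hT' : ∀ q ∈ T, Can q := fun q hq => hT q (List.mem_cons_of_mem _ hq)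
    obtain ⟨hk4, hw⟩ := hq
    simp only at hk4 hw
    rw [Fl_cons] at hok ⊢
    by_cases h0 : k = 0
    · subst h0
      rw [Fl_leaf0] at hok ⊢
      simp only [Bool.and_eq_true, Fl_ble, decide_eq_true_eq] at hok
      obtain ⟨l, hl, h1, h2⟩ := ih hT' hok.1
      rw [hw (by norm_num)]
      refine ⟨.one :: l, ?_, by simp [Tm.toks, ← h1], List.Forall₂.cons (Fl_D0 n) h2⟩
      intro t ht
      rcases List.mem_cons.1 ht with rfl | ht
      · exact hok.2
      · exact hl t ht
    by_cases h4 : k = 4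
    · subst h4
      rw [Fl_leaf4] at hok ⊢
      simp only [Bool.and_eq_true, Fl_ble, decide_eq_true_eq] at hok
      obtain ⟨l, hl, h1, h2⟩ := ih hT' hok.1
      refine ⟨.var w :: l, ?_, by simp [Tm.toks, ← h1], List.Forall₂.cons (Fl_D4 n w) h2⟩
      intro t ht
      rcases List.mem_cons.1 ht with rfl | ht
      · exact hok.2
      · exact hl t ht
    have h4' : k < 4 := by omega
    rw [Fl_opStep h0 h4] at hok ⊢
    simp only [Bool.and_eq_true, decide_eq_true_eq] at hok
    obtain ⟨⟨h5, h6⟩, h7⟩ := hok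
    obtain ⟨l, hl, h8, h9⟩ := ih hT' h5
    rw [hw (by omega)]
    rw [hw (by omega)] at h7
    generalize hF : (orun n T).1 = F at h6 h7 h9 ⊢
    match F, l, h9, hl, h8, h6, h7 with
    | a :: b :: r, x :: y :: l, h9, hl, h8, _, h7 =>
      obtain ⟨hax, h9⟩ := List.forall₂_cons.1 h9
      obtain ⟨hby, h9⟩ := List.forall₂_cons.1 h9
      have hx : wo x ≤ n := hl x (by simp)
      have hy : wo y ≤ n := hl y (by simp)
      obtain ⟨h10, h11⟩ := Fl_op (w := []) (r := r) h0 h4' hax hby hx hy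
      have h12 := h10.1 h7
      refine ⟨Fl_mk k x y :: l, ?_, ?_, List.Forall₂.cons (h11 h12) h9⟩
      · intro t ht
        rcases List.mem_cons.1 ht with rfl | ht
        · exact h12
        · exact hl t (by simp [ht])
      · rw [List.flatMap_cons, Fl_mk_toks h0 (by omega), h8]
        simp

theorem shapeO_iff {n : ℕ} {T : List Tok} (hT : ∀ q ∈ T, Can q) :
    shapeO n T = true ↔ ∃ s t : Tm, wo s + wo t ≤ n ∧ T = s.toks ++ t.toks := by
  have hsh : shapeO n T = ((orun n T).2.2 && decide ((orun n T).1.length = 2) &&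
      ble (badd ((orun n T).1.headD od0).2.2 ((orun n T).1.tail.headD od0).2.2) (nb n)) := rfl
  rw [hsh, Bool.and_eq_true, Bool.and_eq_true, decide_eq_true_eq, ble_iff, bval_badd, bval_nb]
  constructor
  · rintro ⟨⟨h1, h2⟩, h3⟩
    obtain ⟨l, hl, h4, h5⟩ := Fl_forw hT h1
    obtain ⟨a, b, h6⟩ := List.length_eq_two.1 h2
    have h7 := h5.length_eq
    rw [h2] at h7
    obtain ⟨x, y, rfl⟩ := List.length_eq_two.1 h7.symm
    rw [h6] at h3 h5
    obtain ⟨hax, h8⟩ := List.forall₂_cons.1 h5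
    obtain ⟨hby, -⟩ := List.forall₂_cons.1 h8
    refine ⟨x, y, ?_, by simpa using h4⟩
    have h9 : bval a.2.2 + bval b.2.2 ≤ n := h3
    rw [hax.2.2.2, hby.2.2.2] at h9
    exact h9
  · rintro ⟨x, y, hxy, rfl⟩
    obtain ⟨dy, hdy, ey, ey2⟩ := Fl_toks (n := n) (t := y) (by omega) ([], [], true)
    obtain ⟨dx, hdx, ex, ex2⟩ := Fl_toks (n := n) (t := x) (by omega)
      (y.toks.foldr (oStep n) ([], [], true))
    have h1 : orun n (x.toks ++ y.toks) =
        x.toks.foldr (oStep n) (y.toks.foldr (oStep n) ([], [], true)) := by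
      rw [orun, List.foldr_append]
    rw [h1, ex, ex2, ey, ey2]
    refine ⟨⟨rfl, rfl⟩, ?_⟩
    show bval dx.2.2 + bval dy.2.2 ≤ n
    rw [hdx.2.2.2, hdy.2.2.2]
    exact hxy

theorem flags_length (n : ℕ) (T : List Tok) : (flags n T).length = T.length := by
  induction T with
  | nil => rfl
  | cons q T ih =>
    have h1 : flags n (q :: T) = snew n q (orun n T).1 :: flags n T := rfl
    rw [h1, List.length_cons, List.length_cons, ih]

theorem zf_length (n : ℕ) (T : List Tok) : (zf n T).length = T.length := by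
  rw [zf, List.length_zip, flags_length, min_self]

private theorem Fl_stk_op {n k : ℕ} {T : List Tok} {st U : List Tm} {a b : Tm} (h0 : k ≠ 0)
    (h4 : k < 4) (h1 : List.Forall₂ (Fl_D n) (orun n T).1 (a :: b :: st))
    (h2 : ∀ u ∈ a :: b :: st, wo u ≤ n)
    (h3 : (orun n T).2.1 = (U.map fun u => decide (wt u ≤ n)).reverse)
    (hN : wo (Fl_mk k a b) ≤ n) :
    List.Forall₂ (Fl_D n) (orun n ((k, []) :: T)).1 (Fl_mk k a b :: st) ∧
      (∀ u ∈ Fl_mk k a b :: st, wo u ≤ n) ∧
      (orun n ((k, []) :: T)).2.1 =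
        ((U ++ [Fl_mk k a b]).map fun u => decide (wt u ≤ n)).reverse := by
  rw [Fl_cons, Fl_opStep h0 (by omega)]
  generalize hF : (orun n T).1 = F at h1 ⊢
  match F, h1 with
  | da :: db :: r, h1 =>
    obtain ⟨hda, h5⟩ := List.forall₂_cons.1 h1
    obtain ⟨hdb, h6⟩ := List.forall₂_cons.1 h5
    obtain ⟨h7, h8⟩ := Fl_op (w := []) (r := r) h0 h4 hda hdb (h2 a (by simp)) (h2 b (by simp))
    have h9 := h8 hN
    refine ⟨List.Forall₂.cons h9 h6, ?_, ?_⟩
    · intro u hu
      rcases List.mem_cons.1 hu with rfl | hu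
      · exact hN
      · exact h2 u (by simp [hu])
    · rw [List.map_append, List.reverse_append, ← h3]
      show snew n (k, []) (da :: db :: r) :: (orun n T).2.1 = _
      have h10 : snew n (k, []) (da :: db :: r) = decide (wt (Fl_mk k a b) ≤ n) := h9.2.1
      rw [h10]
      rfl

private theorem Fl_stk {n : ℕ} {T : List Tok} {st U : List Tm} (h : Stk T st U)
    (hU : ∀ u ∈ U, Gd n u) :
    List.Forall₂ (Fl_D n) (orun n T).1 st ∧ (∀ u ∈ st, wo u ≤ n) ∧
      (orun n T).2.1 = (U.map fun u => decide (wt u ≤ n)).reverse := by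
  induction h with
  | nil => exact ⟨List.Forall₂.nil, by simp, rfl⟩
  | @one T st U h ih =>
    obtain ⟨h1, h2, h3⟩ := ih (fun u hu => hU u (List.mem_append_left _ hu))
    rw [Fl_cons, Fl_leaf0]
    refine ⟨List.Forall₂.cons (Fl_D0 n) h1, ?_, ?_⟩
    · intro u hu
      rcases List.mem_cons.1 hu with rfl | hu
      · exact (hU _ (by simp)).1
      · exact h2 u hu
    · rw [List.map_append, List.reverse_append, ← h3, Fl_ble]
      rfl
  | @var T st U w h ih =>
    obtain ⟨h1, h2, h3⟩ := ih (fun u hu => hU u (List.mem_append_left _ hu))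
    rw [Fl_cons, Fl_leaf4]
    refine ⟨List.Forall₂.cons (Fl_D4 n w) h1, ?_, ?_⟩
    · intro u hu
      rcases List.mem_cons.1 hu with rfl | hu
      · exact (hU _ (by simp)).1
      · exact h2 u hu
    · rw [List.map_append, List.reverse_append, ← h3, Fl_ble]
      rfl
  | @add T st U a b h ih =>
    obtain ⟨h1, h2, h3⟩ := ih (fun u hu => hU u (List.mem_append_left _ hu))
    have h4 := (hU (.add a b) (List.mem_append_right _ (List.mem_singleton.2 rfl))).1
    exact Fl_stk_op (k := 1) (by norm_num) (by norm_num) h1 h2 h3 h4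
  | @mul T st U a b h ih =>
    obtain ⟨h1, h2, h3⟩ := ih (fun u hu => hU u (List.mem_append_left _ hu))
    have h4 := (hU (.mul a b) (List.mem_append_right _ (List.mem_singleton.2 rfl))).1
    exact Fl_stk_op (k := 2) (by norm_num) (by norm_num) h1 h2 h3 h4
  | @pow T st U a b h ih =>
    obtain ⟨h1, h2, h3⟩ := ih (fun u hu => hU u (List.mem_append_left _ hu))
    have h4 := (hU (.pow a b) (List.mem_append_right _ (List.mem_singleton.2 rfl))).1
    exact Fl_stk_op (k := 3) (by norm_num) (by norm_num) h1 h2 h3 h4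

/-- The flags of a stack of terms. -/
theorem flags_stk {n : ℕ} {T : List Tok} {st U : List Tm} (h : Stk T st U)
    (hU : ∀ u ∈ U, Gd n u) :
    flags n T = (U.map fun u => decide (wt u ≤ n)).reverse := by
  exact (Fl_stk h hU).2.2

theorem zf_drop (n : ℕ) (T : List Tok) (k : ℕ) : (zf n T).drop k = zf n (T.drop k) := by
  induction T generalizing k with
  | nil => cases k <;> rfl
  | cons q T ih =>
    cases k with
    | zero => rfl
    | succ k =>
      have h1 : zf n (q :: T) = (q, snew n q (orun n T).1) :: zf n T := rfl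
      rw [h1, List.drop_succ_cons, List.drop_succ_cons, ih]

/-! ### Polynomial time -/

private def Fl_sm (L : ℕ) (d : Wd) : Prop :=
  d.2.1.length ≤ L ∧ d.2.2.1.length ≤ L ∧ d.2.2.2.length ≤ L

private theorem Fl_sm_cond {L : ℕ} {c : Bool} {a b : Wd} (ha : Fl_sm L a) (hb : Fl_sm L b) :
    Fl_sm L (bif c then a else b) := by
  cases c
  · exact hb
  · exact ha

private theorem Fl_len_cond {L : ℕ} {c : Bool} {a b : List Bool} (ha : a.length ≤ L)
    (hb : b.length ≤ L) : (bif c then a else b).length ≤ L := by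
  cases c
  · exact hb
  · exact ha

private theorem Fl_sm_wd0 {L : ℕ} (h : 1 ≤ L) : Fl_sm L wd0 := by
  have h0 : wd0 = ((false, true), ([true], [], [true])) := rfl
  rw [h0]
  refine ⟨?_, ?_, ?_⟩
  · simpa using h
  · simp
  · simpa using h

private theorem Fl_sm_w4 {L : ℕ} (h : 1 ≤ L) : Fl_sm L ((true, false), ([], [], [true])) := by
  refine ⟨?_, ?_, ?_⟩
  · simp
  · simp
  · simpa using h

private theorem Fl_sm_add {n L : ℕ} (hr : ∀ x y, (rad (Mw n) x y).length ≤ L) (a b : Wd) :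
    Fl_sm L (wadd n a b) := by
  simp only [wadd, Fl_sm]
  exact ⟨hr _ _, hr _ _, hr _ _⟩

private theorem Fl_sm_mul {n L : ℕ} (hr : ∀ x y, (rad (Mw n) x y).length ≤ L)
    (hm : ∀ x y, (rmu (Mw n) x y).length ≤ L) (a b : Wd) : Fl_sm L (wmul n a b) := by
  simp only [wmul, Fl_sm]
  exact ⟨hm _ _, hr _ _, hr _ _⟩

private theorem Fl_sm_pow {n L : ℕ} (hr : ∀ x y, (rad (Mw n) x y).length ≤ L)
    (hm : ∀ x y, (rmu (Mw n) x y).length ≤ L)
    (hp : ∀ x y, (bpw x y (md (Mw n))).length ≤ L) (a b : Wd) : Fl_sm L (wpow n a b) := by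
  simp only [wpow, Fl_sm]
  exact ⟨Fl_len_cond (hp _ _) (Nat.zero_le _), hm _ _, hr _ _⟩

private theorem Fl_sm_new {n L : ℕ} (h1 : 1 ≤ L) (hr : ∀ x y, (rad (Mw n) x y).length ≤ L)
    (hm : ∀ x y, (rmu (Mw n) x y).length ≤ L)
    (hp : ∀ x y, (bpw x y (md (Mw n))).length ≤ L) (q : Tok) (s : List Wd) :
    Fl_sm L (wnew n q s) := by
  unfold wnew
  exact Fl_sm_cond (Fl_sm_wd0 h1) (Fl_sm_cond (Fl_sm_w4 h1) (Fl_sm_cond (Fl_sm_add hr _ _)
    (Fl_sm_cond (Fl_sm_mul hr hm _ _) (Fl_sm_pow hr hm hp _ _))))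

private theorem Fl_Mw_len (n : ℕ) : (Mw n).length = 3 * n + 7 := by
  simp [Mw, pow2]

private theorem Fl_sm_sz {n : ℕ} {d : Wd} (h : Fl_sm (3 * n + 11) d) : sz d ≤ 36 * n + 200 := by
  obtain ⟨h1, h2, h3⟩ := h
  have s1 := sz_prod d
  have s2 := sz_prod d.1
  have s3 := sz_prod d.2
  have s4 := sz_prod d.2.2
  have s5 := sz_bool_le d.1.1
  have s6 := sz_bool_le d.1.2
  have s7 := (sz_bool_list d.2.1).2
  have s8 := (sz_bool_list d.2.2.1).2
  have s9 := (sz_bool_list d.2.2.2).2
  omega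

private theorem Fl_pMw {fn : α → ℕ} (hn : Poly fn) : Poly (fun a => Mw (fn a)) :=
  Pool.Agent.TW.poly_pow2 (f := fun a => 3 * fn a + 6) (by fun_prop)

private theorem Fl_pnb {fn : α → ℕ} (hn : Poly fn) : Poly (fun a => nb (fn a)) := by
  refine H.MP_5be563_lc.PT.Poly.iterate (f := fun (_ : α) (l : List Bool) => btrim (badd l [true]))
    (s := fun _ => ([] : List Bool)) (n := fn) (B := fun a => 4 * sz (fn a) + 1) (by fun_prop)
    (by fun_prop) hn (((PBdd.const 4).mul hn.sz_le).add (PBdd.const 1)) ?_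
  intro a k hk
  change sz (nb k) ≤ _
  have h1 := (sz_bool_list (nb k)).2
  have h2 := Fl_nb_length k
  rw [sz_nat]
  omega

private theorem Fl_padd {fn : α → ℕ} {f g : α → Wd} (hn : Poly fn) (hf : Poly f) (hg : Poly g) :
    Poly (fun a => wadd (fn a) (f a) (g a)) := by
  have hm := Fl_pMw hn
  have t1 : Poly (fun _ : α => true) := by fun_prop
  have t2 : Poly (fun _ : α => [true]) := by fun_prop
  have f2 : Poly (fun a => (f a).1.2) := by fun_prop
  have f3 : Poly (fun a => (f a).2.1) := by fun_prop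
  have f4 : Poly (fun a => (f a).2.2.1) := by fun_prop
  have f5 : Poly (fun a => (f a).2.2.2) := by fun_prop
  have g2 : Poly (fun a => (g a).1.2) := by fun_prop
  have g3 : Poly (fun a => (g a).2.1) := by fun_prop
  have g4 : Poly (fun a => (g a).2.2.1) := by fun_prop
  have g5 : Poly (fun a => (g a).2.2.2) := by fun_prop
  exact (t1.pair (f2.and g2)).pair ((Pool.Agent.TW.Poly.rad hm f3 g3).pair
    ((Pool.Agent.TW.Poly.rad hm (Pool.Agent.TW.Poly.rad hm f4 g4) t2).pair
      (Pool.Agent.TW.Poly.rad hm (Pool.Agent.TW.Poly.rad hm f5 g5) t2)))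

private theorem Fl_pmul {fn : α → ℕ} {f g : α → Wd} (hn : Poly fn) (hf : Poly f) (hg : Poly g) :
    Poly (fun a => wmul (fn a) (f a) (g a)) := by
  have hm := Fl_pMw hn
  have t2 : Poly (fun _ : α => [true]) := by fun_prop
  have f1 : Poly (fun a => (f a).1.1) := by fun_prop
  have f2 : Poly (fun a => (f a).1.2) := by fun_prop
  have f3 : Poly (fun a => (f a).2.1) := by fun_prop
  have f4 : Poly (fun a => (f a).2.2.1) := by fun_prop
  have f5 : Poly (fun a => (f a).2.2.2) := by fun_prop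
  have g1 : Poly (fun a => (g a).1.1) := by fun_prop
  have g2 : Poly (fun a => (g a).1.2) := by fun_prop
  have g3 : Poly (fun a => (g a).2.1) := by fun_prop
  have g4 : Poly (fun a => (g a).2.2.1) := by fun_prop
  have g5 : Poly (fun a => (g a).2.2.2) := by fun_prop
  exact ((f1.or g1).pair (f2.and g2)).pair ((Pool.Agent.TW.Poly.rmu hm f3 g3).pair
    ((Pool.Agent.TW.Poly.rad hm f4 g4).pair
      (Pool.Agent.TW.Poly.rad hm (Pool.Agent.TW.Poly.rad hm f5 g5) t2)))

private theorem Fl_ppow {fn : α → ℕ} {f g : α → Wd} (hn : Poly fn) (hf : Poly f) (hg : Poly g) :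
    Poly (fun a => wpow (fn a) (f a) (g a)) := by
  have hm := Fl_pMw hn
  have t0 : Poly (fun _ : α => ([] : List Bool)) := by fun_prop
  have t2 : Poly (fun _ : α => [true]) := by fun_prop
  have f1 : Poly (fun a => (f a).1.1) := by fun_prop
  have f2 : Poly (fun a => (f a).1.2) := by fun_prop
  have f3 : Poly (fun a => (f a).2.1) := by fun_prop
  have f4 : Poly (fun a => (f a).2.2.1) := by fun_prop
  have f5 : Poly (fun a => (f a).2.2.2) := by fun_prop
  have g2 : Poly (fun a => (g a).1.2) := by fun_prop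
  have g3 : Poly (fun a => (g a).2.1) := by fun_prop
  have g5 : Poly (fun a => (g a).2.2.2) := by fun_prop
  exact (f1.pair ((f2.and g2).or f1.not)).pair
    ((Poly.cond (g2.or f1.not)
      (Pool.Agent.TI.Poly.bpw f3 g3 (Pool.Agent.TW.Poly.md hm)) t0).pair
    ((Pool.Agent.TW.Poly.rmu hm g3 f4).pair
      (Pool.Agent.TW.Poly.rad hm (Pool.Agent.TW.Poly.rad hm (Pool.Agent.TW.Poly.rad hm f5 g5) t2)
        (Pool.Agent.TW.Poly.rmu hm g3 f4))))

private theorem Fl_pnew {fn : α → ℕ} {fq : α → Tok} {fs : α → List Wd} (hn : Poly fn)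
    (hq : Poly fq) (hs : Poly fs) : Poly (fun a => wnew (fn a) (fq a) (fs a)) := by
  have k1 : Poly (fun a => (fq a).1) := by fun_prop
  have c0 : Poly (fun a => decide ((fq a).1 = 0)) := k1.isZero
  have c1 : Poly (fun a => decide ((fq a).1 = 1)) := k1.nateq (by fun_prop)
  have c2 : Poly (fun a => decide ((fq a).1 = 2)) := k1.nateq (by fun_prop)
  have c4 : Poly (fun a => decide ((fq a).1 = 4)) := k1.nateq (by fun_prop)
  have w0 : Poly (fun _ : α => wd0) := H.MP_5be563_lc.PT.Poly.const _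
  have w4 : Poly (fun _ : α => (((true, false), ([], [], [true])) : Wd)) := H.MP_5be563_lc.PT.Poly.const _
  have e1 : Poly (fun a => (fs a).headD wd0) := hs.headD w0
  have e2 : Poly (fun a => (fs a).tail.headD wd0) := hs.tail.headD w0
  exact Poly.cond c0 w0 (Poly.cond c4 w4 (Poly.cond c1 (Fl_padd hn e1 e2)
    (Poly.cond c2 (Fl_pmul hn e1 e2) (Fl_ppow hn e1 e2))))

private def Fl_smo (L : ℕ) (d : Od) : Prop := Fl_sm L d.1 ∧ d.2.2.length ≤ L

private theorem Fl_smo_new {n L : ℕ} (h1 : 1 ≤ L) (hr : ∀ x y, (rad (Mw n) x y).length ≤ L)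
    (hm : ∀ x y, (rmu (Mw n) x y).length ≤ L)
    (hp : ∀ x y, (bpw x y (md (Mw n))).length ≤ L) (q : Tok) (s : List Od) :
    Fl_smo L (dnew n q s, (snew n q s, onew n q s)) := by
  have h2 : Fl_sm L (dnew n q s) := Fl_sm_new h1 hr hm hp q _
  refine ⟨h2, ?_⟩
  show (onew n q s).length ≤ L
  unfold onew
  exact Fl_len_cond (by simpa using h1) (Fl_len_cond (Fl_len_cond (hr _ _) h2.2.2) (hr _ _))

private theorem Fl_fst (n : ℕ) (q : Tok) (s : List Od × List Bool × Bool) :
    (oStep n q s).1 = (dnew n q s.1, (snew n q s.1, onew n q s.1)) :: s.1 ∨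
    (oStep n q s).1 = (dnew n q s.1, (snew n q s.1, onew n q s.1)) :: s.1.tail.tail := by
  unfold oStep
  cases (decide (q.1 = 0) || decide (q.1 = 4))
  · right
    rfl
  · left
    rfl

private theorem Fl_F_len (n : ℕ) (T : List Tok) : (orun n T).1.length ≤ T.length := by
  induction T with
  | nil => exact le_rfl
  | cons q T ih =>
    rw [Fl_cons, List.length_cons]
    rcases Fl_fst n q (orun n T) with h | h
    · rw [h, List.length_cons]
      omega
    · rw [h, List.length_cons, List.length_tail, List.length_tail]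
      omega

private theorem Fl_F_sm {n L : ℕ}
    (hw : ∀ q s, Fl_smo L (dnew n q s, (snew n q s, onew n q s))) (T : List Tok) :
    ∀ d ∈ (orun n T).1, Fl_smo L d := by
  induction T with
  | nil =>
    intro d hd
    exact absurd hd List.not_mem_nil
  | cons q T ih =>
    intro d hd
    rw [Fl_cons] at hd
    rcases Fl_fst n q (orun n T) with h | h
    · rw [h] at hd
      rcases List.mem_cons.1 hd with rfl | hd
      · exact hw _ _
      · exact ih d hd
    · rw [h] at hd
      rcases List.mem_cons.1 hd with rfl | hd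
      · exact hw _ _
      · exact ih d (List.mem_of_mem_tail (List.mem_of_mem_tail hd))

private theorem Fl_sm_all (n : ℕ) (T : List Tok) : ∀ d ∈ (orun n T).1, Fl_smo (3 * n + 11) d := by
  have h0 := Fl_Mw_len n
  refine Fl_F_sm (fun q s => Fl_smo_new (by omega) ?_ ?_ ?_ q s) T
  · intro x y
    have h1 := Pool.Agent.TW.length_rad_le (Mw n) x y
    omega
  · intro x y
    have h1 := Pool.Agent.TW.length_rmu_le (Mw n) x y
    omega
  · intro x y
    have h1 := length_bpw_le x y (md (Mw n))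
    have h2 := Pool.Agent.TW.length_md_le (Mw n)
    omega

private theorem Fl_smo_sz {n : ℕ} {d : Od} (h : Fl_smo (3 * n + 11) d) : sz d ≤ 48 * n + 260 := by
  obtain ⟨h1, h2⟩ := h
  have h3 := Fl_sm_sz h1
  have s1 := sz_prod d
  have s2 := sz_prod d.2
  have s3 := sz_bool_le d.2.1
  have s4 := (sz_bool_list d.2.2).2
  omega

private theorem Fl_pdnew {fn : α → ℕ} {fq : α → Tok} {fs : α → List Od} (hn : Poly fn)
    (hq : Poly fq) (hs : Poly fs) : Poly (fun a => dnew (fn a) (fq a) (fs a)) := by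
  have w0 : Poly (fun _ : α => od0) := H.MP_5be563_lc.PT.Poly.const _
  have e0 : Poly (fun _ : α => ([] : List Wd)) := H.MP_5be563_lc.PT.Poly.const _
  have e1 : Poly (fun a => ((fs a).headD od0).1) := Poly.fst.comp (hs.headD w0)
  have e2 : Poly (fun a => ((fs a).tail.headD od0).1) := Poly.fst.comp (hs.tail.headD w0)
  exact Fl_pnew hn hq (e1.lcons (e2.lcons e0))

private theorem Fl_psnew {fn : α → ℕ} {fq : α → Tok} {fs : α → List Od} (hn : Poly fn)
    (hq : Poly fq) (hs : Poly fs) : Poly (fun a => snew (fn a) (fq a) (fs a)) := by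
  have k1 : Poly (fun a => (fq a).1) := by fun_prop
  have c0 : Poly (fun a => decide ((fq a).1 = 0)) := k1.isZero
  have c4 : Poly (fun a => decide ((fq a).1 = 4)) := k1.nateq (by fun_prop)
  have w0 : Poly (fun _ : α => od0) := H.MP_5be563_lc.PT.Poly.const _
  have e1 : Poly (fun a => ((fs a).headD od0).2.1) :=
    Poly.fst.comp (Poly.snd.comp (hs.headD w0))
  have e2 : Poly (fun a => ((fs a).tail.headD od0).2.1) :=
    Poly.fst.comp (Poly.snd.comp (hs.tail.headD w0))
  have nw : Poly (fun a => (dnew (fn a) (fq a) (fs a)).2.2.2) :=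
    Poly.snd.comp (Poly.snd.comp (Poly.snd.comp (Fl_pdnew hn hq hs)))
  exact ((c0.or c4).or (e1.and e2)).and (H.MP_5be563_lc.PT.Poly.ble nw (Fl_pnb hn))

private theorem Fl_ponew {fn : α → ℕ} {fq : α → Tok} {fs : α → List Od} (hn : Poly fn)
    (hq : Poly fq) (hs : Poly fs) : Poly (fun a => onew (fn a) (fq a) (fs a)) := by
  have k1 : Poly (fun a => (fq a).1) := by fun_prop
  have c0 : Poly (fun a => decide ((fq a).1 = 0)) := k1.isZero
  have c3 : Poly (fun a => decide ((fq a).1 = 3)) := k1.nateq (by fun_prop)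
  have c4 : Poly (fun a => decide ((fq a).1 = 4)) := k1.nateq (by fun_prop)
  have w0 : Poly (fun _ : α => od0) := H.MP_5be563_lc.PT.Poly.const _
  have t2 : Poly (fun _ : α => [true]) := by fun_prop
  have hm := Fl_pMw hn
  have ea := hs.headD w0
  have eb := hs.tail.headD w0
  have oa : Poly (fun a => ((fs a).headD od0).2.2) := Poly.snd.comp (Poly.snd.comp ea)
  have ob : Poly (fun a => ((fs a).tail.headD od0).2.2) := Poly.snd.comp (Poly.snd.comp eb)
  have wb : Poly (fun a => ((fs a).tail.headD od0).1.2.2.2) :=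
    Poly.snd.comp (Poly.snd.comp (Poly.snd.comp (Poly.fst.comp eb)))
  have cb : Poly (fun a => ((fs a).tail.headD od0).1.1.2) :=
    Poly.snd.comp (Poly.fst.comp (Poly.fst.comp eb))
  have nw : Poly (fun a => (dnew (fn a) (fq a) (fs a)).2.2.2) :=
    Poly.snd.comp (Poly.snd.comp (Poly.snd.comp (Fl_pdnew hn hq hs)))
  exact Poly.cond (c0.or c4) t2 (Poly.cond c3 (Poly.cond cb
    (Pool.Agent.TW.Poly.rad hm (Pool.Agent.TW.Poly.rad hm oa wb) t2) nw)
    (Pool.Agent.TW.Poly.rad hm (Pool.Agent.TW.Poly.rad hm oa ob) t2))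

private theorem Fl_pgnew {fn : α → ℕ} {fq : α → Tok} {fs : α → List Od} (hn : Poly fn)
    (hq : Poly fq) (hs : Poly fs) : Poly (fun a => gnew (fn a) (fq a) (fs a)) := by
  have k1 : Poly (fun a => (fq a).1) := by fun_prop
  have c3 : Poly (fun a => decide ((fq a).1 = 3)) := k1.nateq (by fun_prop)
  have w0 : Poly (fun _ : α => od0) := H.MP_5be563_lc.PT.Poly.const _
  have eb := hs.tail.headD w0
  have cb : Poly (fun a => ((fs a).tail.headD od0).1.1.2) :=
    Poly.snd.comp (Poly.fst.comp (Poly.fst.comp eb))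
  have sb : Poly (fun a => ((fs a).tail.headD od0).2.1) := Poly.fst.comp (Poly.snd.comp eb)
  exact (H.MP_5be563_lc.PT.Poly.ble (Fl_ponew hn hq hs) (Fl_pnb hn)).and
    (c3.not.or (Poly.cond cb sb (Fl_psnew hn hq hs)))

private theorem Fl_pstep {fn : α → ℕ} (hn : Poly fn) :
    Poly (fun p : α × (List Od × List Bool × Bool) × Tok => oStep (fn p.1) p.2.2 p.2.1) := by
  have hn' : Poly (fun p : α × (List Od × List Bool × Bool) × Tok => fn p.1) :=
    hn.comp Poly.fst
  have k1 : Poly (fun p : α × (List Od × List Bool × Bool) × Tok => p.2.2.1) := by fun_prop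
  have c0 : Poly (fun p : α × (List Od × List Bool × Bool) × Tok => decide (p.2.2.1 = 0)) :=
    k1.isZero
  have c4 : Poly (fun p : α × (List Od × List Bool × Bool) × Tok => decide (p.2.2.1 = 4)) :=
    k1.nateq (by fun_prop)
  have q1 : Poly (fun p : α × (List Od × List Bool × Bool) × Tok => p.2.2) := by fun_prop
  have d1 : Poly (fun p : α × (List Od × List Bool × Bool) × Tok => p.2.1.1) := by fun_prop
  have d2 : Poly (fun p : α × (List Od × List Bool × Bool) × Tok => p.2.1.2.1) := by fun_prop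
  have d3 : Poly (fun p : α × (List Od × List Bool × Bool) × Tok => p.2.1.2.2) := by fun_prop
  have k2 : Poly (fun _ : α × (List Od × List Bool × Bool) × Tok => 2) := by fun_prop
  have e5 : Poly (fun p : α × (List Od × List Bool × Bool) × Tok =>
      decide (2 ≤ p.2.1.1.length)) := k2.natle d1.length
  have nd := Fl_pdnew hn' q1 d1
  have ns := Fl_psnew hn' q1 d1
  have no := Fl_ponew hn' q1 d1
  have ng := Fl_pgnew hn' q1 d1
  exact ((nd.pair (ns.pair no)).lcons (Poly.cond (c0.or c4) d1 d1.tail.tail)).pair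
    ((ns.lcons d2).pair ((d3.and ((c0.or c4).or e5)).and ng))

private theorem Fl_prun {fn : α → ℕ} {fT : α → List Tok} (hn : Poly fn) (hT : Poly fT) :
    Poly (fun a => orun (fn a) (fT a)) := by
  refine Poly.foldr
    (f := fun p : α × (List Od × List Bool × Bool) × Tok => oStep (fn p.1) p.2.2 p.2.1)
    (l := fT) (s0 := fun _ => (([], [], true) : List Od × List Bool × Bool))
    (B := fun a => sz (fT a) * (48 * sz (fn a) + 265) + 10) (Fl_pstep hn) hT (by fun_prop)
    ((hT.sz_le.mul (((PBdd.const 48).mul hn.sz_le).add (PBdd.const 265))).add (PBdd.const 10)) ?_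
  intro a l₁ l₂ h
  have h3 := Fl_F_len (fn a) l₂
  have h4 : l₂.length ≤ sz (fT a) := by
    have h5 := length_lt_sz (fT a)
    rw [h, List.length_append] at h5
    rw [h]
    omega
  change sz (orun (fn a) l₂) ≤ _
  have h6 := sz_prod (orun (fn a) l₂)
  have h6' := sz_prod (orun (fn a) l₂).2
  have h7 := sz_le_of_forall (orun (fn a) l₂).1 (48 * sz (fn a) + 260) (fun d hd => by
    have h8 := Fl_smo_sz (Fl_sm_all (fn a) l₂ d hd)
    rw [sz_nat]
    omega)
  have h10 := sz_bool_le (orun (fn a) l₂).2.2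
  have h12 := (sz_bool_list (orun (fn a) l₂).2.1).2
  have h13 : (orun (fn a) l₂).2.1.length = l₂.length := flags_length (fn a) l₂
  rw [h13] at h12
  have h11 : (orun (fn a) l₂).1.length * (48 * sz (fn a) + 260 + 1) ≤
      sz (fT a) * (48 * sz (fn a) + 261) := Nat.mul_le_mul (h3.trans h4) (by omega)
  have h14 : sz (fT a) * (48 * sz (fn a) + 265) = sz (fT a) * (48 * sz (fn a) + 261) +
      4 * sz (fT a) := by ring
  omega

theorem poly_shapeO {fn : α → ℕ} {fT : α → List Tok} (hn : Poly fn) (hT : Poly fT) :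
    Poly (fun a => shapeO (fn a) (fT a)) := by
  have h2 := Fl_prun hn hT
  have w0 : Poly (fun _ : α => od0) := H.MP_5be563_lc.PT.Poly.const _
  have s1 : Poly (fun a => (orun (fn a) (fT a)).1) := Poly.fst.comp h2
  have s2 : Poly (fun a => (orun (fn a) (fT a)).2.2) := Poly.snd.comp (Poly.snd.comp h2)
  have k2 : Poly (fun _ : α => 2) := by fun_prop
  have e1 := s1.headD w0
  have e2 := s1.tail.headD w0
  exact (s2.and (s1.length.nateq k2)).and (H.MP_5be563_lc.PT.Poly.ble
    (H.MP_5be563_lc.PT.Poly.badd (Poly.snd.comp (Poly.snd.comp e1))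
      (Poly.snd.comp (Poly.snd.comp e2))) (Fl_pnb hn))

theorem poly_zf {fn : α → ℕ} {fT : α → List Tok} (hn : Poly fn) (hT : Poly fT) :
    Poly (fun a => zf (fn a) (fT a)) := by
  exact Poly.zip hT (Poly.fst.comp (Poly.snd.comp (Fl_prun hn hT)))

end Pool.Agent.TQ
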