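import Pool.Agent.H.MP_b2d7dd_lc.TD.Mach
import Pool.Agent.H.MP_b2d7dd_lc.TQ.Fl

/-!
# Module Mach: the machine

Compare TD/Mach. The tokens come with flags: the weight of the subterm is at most `n`. The logarithmic
derivatives of the other subterms are replaced by `0`, and their bases need not be invertible.
-/

namespace Pool.Agent.TQ

open Pool.Agent.TI (Tm Tok names fidx fidx_eq bmod beqv bpw bsub)
open Pool.Agent.TE (bl)
open Pool.Agent.TW (SI zv rad rmu rin rsb md tval irow evr)
open Pool.Agent.TC (Pt rf rf_pos evl Mo Su nrm Pr Gx Lx h1 h2 al ga lcP MB Vn Coh Fai Eqv Bas crd chi)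
open Pool.Agent.TC (muB Pb Stk subs exF nm2 hv1 hv2 alv lcv cob eN eP uu vv Kc Qw Rr kk SS AA KK)
open Pool.Agent.TD
open Pool.Agent.H.MP_5be563_lc.PT Finset

/-- The logarithmic derivative of the next subterm. -/
def mph (e : List Bool) (v c m : ℕ) (N : List (List Bool)) (B : List (List Bool))
    (Z : List Bool) (q : Tok × Bool) (st : List Vx) : List Bool :=
  bif q.2 then nph e v c m N B Z q.1 st else []

/-- One step. -/
def ystep (e M : List Bool) (v c m : ℕ) (N : List (List Bool)) (B : List (List Bool))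
    (Z : List Bool) (tab : List (List SI)) (q : Tok × Bool)
    (s : List Vx × List (List Bool) × Bool) : List Vx × List (List Bool) × Bool :=
  (nvx e M v c Z tab q.1 s.1 s.2.1.length (mph e v c m N B Z q s.1) ::
      (bif decide (q.1.1 = 0) || decide (q.1.1 = 4) then s.1 else s.1.tail.tail),
    s.2.1 ++ [mph e v c m N B Z q s.1], s.2.2 && (!q.2 || nok e q.1 s.1))

/-- The machine. -/
def yrun (e M : List Bool) (v c m : ℕ) (N : List (List Bool)) (B : List (List Bool))
    (Z : List Bool) (tab : List (List SI)) (T : List (Tok × Bool)) :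
    List Vx × List (List Bool) × Bool :=
  T.foldr (ystep e M v c m N B Z tab) ([], [], true)

/-- The hash row for the subterms number `0, ..., i`. -/
def yrow (e M : List Bool) (v c m : ℕ) (N : List (List Bool)) (B : List (List Bool))
    (tab : List (List SI)) (T : List (Tok × Bool)) (i : ℕ) (Z : List Bool) : List (List Bool) :=
  bif (yrun e M v c m N B Z tab (T.drop (T.length - (i + 1)))).2.2 then
    (yrun e M v c m N B Z tab (T.drop (T.length - (i + 1)))).2.1
  else List.replicate (i + 1) []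

/-- The values of a term of the stack. -/
def ValO (n : ℕ) (e M : List Bool) (P : Pr (ZMod (bval e + 2))) (x : Vx) (u : Tm) : Prop :=
  zv e x.1.1 = av P.f u ∧ zv e x.1.2.1 = av P.g u ∧ x.2.1 = big u ∧ x.2.2 = cst u ∧
    (wt u ≤ n → Val e M P x u)

private theorem Mach_getD_lt {U : List Tm} (x : Tm) {a : ℕ} (ha : a < U.length) :
    (U ++ [x]).getD a .one = U.getD a .one := by
  rw [List.getD_eq_getElem?_getD, List.getD_eq_getElem?_getD, List.getElem?_append_left ha]

private theorem Mach_getD_eq (U : List Tm) (x : Tm) : (U ++ [x]).getD U.length .one = x := by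
  rw [List.getD_eq_getElem?_getD, List.getElem?_append_right le_rfl, Nat.sub_self]
  rfl

private theorem Mach_Hv {e : List Bool} {v c : ℕ} {Z : List Bool} {tab : List (List SI)}
    {P : Pr (ZMod (bval e + 2))} {U : List Tm} {u : Tm} {L : ℕ} (hL : U.length ≤ L)
    (h : Hv e v c Z tab P (fun a => (U ++ [u]).getD a .one) L) :
    Hv e v c Z tab P (fun a => U.getD a .one) U.length := by
  intro a ha
  have h1 := h a (lt_of_lt_of_le ha hL)
  beta_reduce at h1 ⊢
  rw [Mach_getD_lt u ha] at h1
  exact h1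

private theorem Mach_Hv' {e : List Bool} {v c : ℕ} {Z : List Bool} {tab : List (List SI)}
    {P : Pr (ZMod (bval e + 2))} {ex : ℕ → Tm} {L L' : ℕ} (hL : L ≤ L')
    (h : Hv e v c Z tab P ex L') : Hv e v c Z tab P ex L :=
  fun a ha => h a (lt_of_lt_of_le ha hL)

private theorem Mach_last {e : List Bool} {v c : ℕ} {Z : List Bool} {tab : List (List SI)}
    {P : Pr (ZMod (bval e + 2))} {U : List Tm} {u : Tm} (hu : u ∈ ats u)
    (h : Hv e v c Z tab P (fun a => (U ++ [u]).getD a .one) (U ++ [u]).length) :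
    zv e (hv1 e v c Z tab U.length) = P.f u ∧ zv e (hv2 e v c Z tab U.length) = P.g u := by
  have h1 := h U.length (by rw [List.length_append, List.length_singleton]; omega)
  beta_reduce at h1
  rw [Mach_getD_eq] at h1
  exact h1 hu

private theorem Mach_Pc {e : List Bool} {v c m : ℕ} {N B : List (List Bool)} {Z : List Bool}
    {P : Pr (ZMod (bval e + 2))} {U : List Tm} {u : Tm} (h : Pc e v c m N B Z P (U ++ [u])) :
    Pc e v c m N B Z P U :=
  ⟨h.α, fun x a b hab => h.lc x a b (List.mem_append_left _ hab), h.iv⟩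

private theorem Mach_alv {e : List Bool} {v c m : ℕ} {N B : List (List Bool)} {Z : List Bool}
    {P : Pr (ZMod (bval e + 2))} {U : List Tm} (h : Pc e v c m N B Z P U) (w : List Bool) :
    zv e (alv e v c N Z w) = P.α w := by
  unfold alv
  rw [TW.zv_bmod, fidx_eq, h.α]

private theorem Mach_trx {e M : List Bool} {P : Pr (ZMod (bval e + 2))} {a b : Tm} {x y : Vx}
    (hx : Val e M P x a) (hy : Val e M P y b) : trx x y = true ↔ Tr a b := by
  obtain ⟨-, -, -, -, -, x6, -⟩ := hx
  obtain ⟨-, -, -, -, -, -, y7⟩ := hy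
  unfold trx Tr
  rw [x6, y7, Bool.and_eq_true, Bool.not_eq_true']

private theorem Mach_trx' {e M : List Bool} {P : Pr (ZMod (bval e + 2))} {a b : Tm} {x y : Vx}
    (hx : Val e M P x a) (hy : Val e M P y b) (h : ¬ Tr a b) : trx x y = false :=
  Bool.eq_false_iff.2 fun h1 => h ((Mach_trx hx hy).1 h1)

private theorem Mach_pwv {e M : List Bool} {v c m : ℕ} {N B : List (List Bool)} {Z : List Bool}
    {P : Pr (ZMod (bval e + 2))} {U : List Tm} {a b : Tm} {x y : Vx}
    (h : Pc e v c m N B Z P (U ++ [.pow a b])) (hx : Val e M P x a) (hy : Val e M P y b) :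
    zv e (pwv e v c m B Z x y) = ph P (.pow a b) := by
  unfold pwv
  by_cases hT : Tr a b
  · rw [(Mach_trx hx hy).2 hT, cond_true]
    obtain ⟨x1, -, x3, x4, -⟩ := hx
    obtain ⟨-, y2, -, -, y5, -⟩ := hy
    have y5' : zv e y.1.2.2.2.2 = (cs b : ZMod (bval e + 2)) := by
      unfold TW.zv
      rw [y5]
    rw [TW.zv_rmu, TW.zv_rsb, TW.zv_rad, TW.zv_rmu, TW.zv_rin, x1, x3, y2, y5',
      h.lc _ a b (List.mem_append_right _ (List.mem_singleton.2 rfl)) x4, ← h.iv]
    exact (if_pos hT).symm
  · rw [Mach_trx' hx hy hT, cond_false, TW.zv_nil]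
    exact (if_neg hT).symm

private theorem Mach_two {R : Vx → Tm → Prop} {l : List Vx} {a b : Tm} {st : List Tm}
    (h : List.Forall₂ R l (a :: b :: st)) (d : Vx) :
    R (l.headD d) a ∧ R (l.tail.headD d) b ∧ List.Forall₂ R l.tail.tail st := by
  match l, h with
  | _ :: _ :: _, List.Forall₂.cons h1 (List.Forall₂.cons h2 h3) => exact ⟨h1, h2, h3⟩

private theorem Mach_vx0 {e M : List Bool} (P : Pr (ZMod (bval e + 2))) :
    Val e M P vx0 .one := by
  refine ⟨TW.zv_one e, TW.zv_one e, TW.zv_nil e, rfl, rfl, rfl, rfl⟩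

private theorem Mach_rad {M : List Bool} (x y : List Bool) (h : bval x + bval y < bval M + 2) :
    bval (rad M x y) = bval x + bval y := by
  unfold TW.rad
  rw [TW.bval_bmod_md, bval_badd, Nat.mod_eq_of_lt h]

private theorem Mach_rmu {M : List Bool} (x y : List Bool) (h : bval x * bval y < bval M + 2) :
    bval (rmu M x y) = bval x * bval y := by
  unfold TW.rmu
  rw [TW.bval_bmod_md, bval_bmul, Nat.mod_eq_of_lt h]

private theorem Mach_bpw {M : List Bool} (x y : List Bool) (h : bval x ^ bval y < bval M + 2) :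
    bval (bpw x y (md M)) = bval x ^ bval y := by
  rw [TI.bval_bpw, TW.bval_md, Nat.mod_eq_of_lt h]

private theorem Mach_adx {e M : List Bool} {P : Pr (ZMod (bval e + 2))} {a b : Tm} {x y : Vx}
    (hx : Val e M P x a) (hy : Val e M P y b) (hM : 2 ^ lg (.add a b) < bval M + 2) :
    Val e M P (adx e M x y) (.add a b) := by
  obtain ⟨x1, x2, x3, x4, x5, x6, x7⟩ := hx
  obtain ⟨y1, y2, y3, y4, y5, y6, y7⟩ := hy
  refine ⟨?_, ?_, ?_, ?_, ?_, ?_, ?_⟩
  · show zv e (rad e x.1.1 y.1.1) = av P.f a + av P.f b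
    rw [TW.zv_rad, x1, y1]
  · show zv e (rad e x.1.2.1 y.1.2.1) = av P.g a + av P.g b
    rw [TW.zv_rad, x2, y2]
  · show zv e (rad e x.1.2.2.1 y.1.2.2.1) = dl P a + dl P b
    rw [TW.zv_rad, x3, y3]
  · show bval (rad M x.1.2.2.2.1 y.1.2.2.2.1) = e1 a + e1 b
    have h1 : e1 a + e1 b ≤ 2 ^ lg (.add a b) := e1_le (.add a b)
    rw [Mach_rad, x4, y4]
    rw [x4, y4]
    exact lt_of_le_of_lt h1 hM
  · show bval (rad M x.1.2.2.2.2 y.1.2.2.2.2) = cs a + cs b
    have h1 : cs a + cs b ≤ 2 ^ lg (.add a b) := cs_le (.add a b)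
    rw [Mach_rad, x5, y5]
    rw [x5, y5]
    exact lt_of_le_of_lt h1 hM
  · rfl
  · show (x.2.2 && y.2.2) = (cst a && cst b)
    rw [x7, y7]

private theorem Mach_mux {e M : List Bool} {P : Pr (ZMod (bval e + 2))} {a b : Tm} {x y : Vx}
    (hx : Val e M P x a) (hy : Val e M P y b) (hM : 2 ^ lg (.mul a b) < bval M + 2) :
    Val e M P (mux e M x y) (.mul a b) := by
  obtain ⟨x1, x2, x3, x4, x5, x6, x7⟩ := hx
  obtain ⟨y1, y2, y3, y4, y5, y6, y7⟩ := hy
  refine ⟨?_, ?_, ?_, ?_, ?_, ?_, ?_⟩
  · show zv e (rmu e x.1.1 y.1.1) = av P.f a * av P.f b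
    rw [TW.zv_rmu, x1, y1]
  · show zv e (rmu e x.1.2.1 y.1.2.1) = av P.g a * av P.g b
    rw [TW.zv_rmu, x2, y2]
  · show zv e (rad e (rmu e x.1.2.2.1 y.1.1) (rmu e x.1.1 y.1.2.2.1)) =
      dl P a * av P.f b + av P.f a * dl P b
    rw [TW.zv_rad, TW.zv_rmu, TW.zv_rmu, x3, y3, x1, y1]
  · show bval (rmu M x.1.2.2.2.1 y.1.2.2.2.1) = e1 a * e1 b
    have h1 : e1 a * e1 b ≤ 2 ^ lg (.mul a b) := e1_le (.mul a b)
    rw [Mach_rmu, x4, y4]
    rw [x4, y4]
    exact lt_of_le_of_lt h1 hM
  · show bval (rmu M x.1.2.2.2.2 y.1.2.2.2.2) = cs a * cs b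
    have h1 : cs a * cs b ≤ 2 ^ lg (.mul a b) := cs_le (.mul a b)
    rw [Mach_rmu, x5, y5]
    rw [x5, y5]
    exact lt_of_le_of_lt h1 hM
  · show (x.2.1 || y.2.1) = (big a || big b)
    rw [x6, y6]
  · show (x.2.2 && y.2.2) = (cst a && cst b)
    rw [x7, y7]

private theorem Mach_pwx {e M : List Bool} {P : Pr (ZMod (bval e + 2))} {a b : Tm} {x y : Vx}
    {h r p : List Bool} (hx : Val e M P x a) (hy : Val e M P y b)
    (hM : 2 ^ lg (.pow a b) < bval M + 2)
    (hh : zv e h = if Tr a b then P.f (.pow a b) else 1)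
    (hr : zv e r = if Tr a b then P.g (.pow a b) else 1) (hp : zv e p = ph P (.pow a b)) :
    Val e M P (pwx e M x y h r p) (.pow a b) := by
  obtain ⟨x1, x2, x3, x4, x5, x6, x7⟩ := hx
  obtain ⟨y1, y2, y3, y4, y5, y6, y7⟩ := hy
  have y5' : zv e y.1.2.2.2.2 = (cs b : ZMod (bval e + 2)) := by
    unfold TW.zv
    rw [y5]
  refine ⟨?_, ?_, ?_, ?_, ?_, ?_, ?_⟩
  · show zv e (rmu e h (bpw x.1.1 y.1.2.2.2.2 (md e))) =
      (if Tr a b then P.f (.pow a b) else 1) * av P.f a ^ cs b
    rw [TW.zv_rmu, TW.zv_bpw, hh, x1, y5]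
  · show zv e (rmu e r (bpw x.1.2.1 y.1.2.2.2.2 (md e))) =
      (if Tr a b then P.g (.pow a b) else 1) * av P.g a ^ cs b
    rw [TW.zv_rmu, TW.zv_bpw, hr, x2, y5]
  · show zv e (rmu e h (rad e (rmu e p (bpw x.1.1 y.1.2.2.2.2 (md e)))
        (rmu e (rmu e y.1.2.2.2.2 (bpw x.1.1 (bsub y.1.2.2.2.2 [true]) (md e))) x.1.2.2.1))) =
      (if Tr a b then P.f (.pow a b) else 1) * (ph P (.pow a b) * av P.f a ^ cs b +
        cs b * av P.f a ^ (cs b - 1) * dl P a)
    rw [TW.zv_rmu, TW.zv_rad, TW.zv_rmu, TW.zv_rmu, TW.zv_rmu, TW.zv_bpw, TW.zv_bpw, hh, hp, x1,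
      x3, y5, y5']
    rcases Nat.eq_zero_or_pos (cs b) with h0 | h0
    · rw [h0, Nat.cast_zero, zero_mul, zero_mul, zero_mul, zero_mul]
    · have h2 : bval [true] ≤ bval y.1.2.2.2.2 := by
        rw [y5]
        exact h0
      have h3 : bval (bsub y.1.2.2.2.2 [true]) = cs b - 1 := by
        rw [TI.bval_bsub h2, y5]
        rfl
      rw [h3]
  · show bval (bpw x.1.2.2.2.1 y.1.2.2.2.2 (md M)) = e1 a ^ cs b
    have h1 : e1 a ^ cs b ≤ 2 ^ lg (.pow a b) := e1_le (.pow a b)
    rw [Mach_bpw, x4, y5]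
    rw [x4, y5]
    exact lt_of_le_of_lt h1 hM
  · show bval (bif y.2.2 || !x.2.1 then bpw x.1.2.2.2.2 y.1.2.2.2.2 (md M) else []) =
      if (cst b || !big a) = true then cs a ^ cs b else 0
    rw [y7, x6]
    have h1 : cs (.pow a b) ≤ 2 ^ lg (.pow a b) := cs_le (.pow a b)
    have h2 : cs (.pow a b) = if (cst b || !big a) = true then cs a ^ cs b else 0 := rfl
    rw [h2] at h1
    cases h3 : (cst b || !big a) with
    | true =>
      rw [h3, if_pos rfl] at h1
      rw [cond_true, if_pos rfl, Mach_bpw, x5, y5]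
      rw [x5, y5]
      exact lt_of_le_of_lt h1 hM
    | false =>
      rw [cond_false, if_neg Bool.false_ne_true]
      exact bval_nil
  · exact x6
  · show ((x.2.2 && y.2.2) || !x.2.1) = ((cst a && cst b) || !big a)
    rw [x7, y7, x6]

private theorem Mach_ok {e : List Bool} {P : Pr (ZMod (bval e + 2))}
    (hiv : ∀ x, P.iv x = x ^ bval e) {a : Tm} {x : List Bool} (hx : zv e x = av P.f a) :
    beqv (rmu e x (rin e x)) (bmod [true] (md e)) = true ↔
      av P.f a * P.iv (av P.f a) = 1 := by
  have h1 : zv e (bmul x (rin e x)) = zv e x * zv e x ^ bval e := by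
    rw [← TW.zv_rin, ← TW.zv_rmu, TW.rmu, TW.zv_bmod]
  unfold TW.rmu
  rw [TW.beqv_bmod_iff, h1, TW.zv_one, hx, hiv]

private theorem Mach_mem {Q : Tm → Prop} {U : List Tm} {u : Tm} (hu : ∀ a b, u ≠ .pow a b) :
    (∀ a b, Tm.pow a b ∈ U ++ [u] → Q a) ↔ ∀ a b, Tm.pow a b ∈ U → Q a := by
  refine ⟨fun h a b hab => h a b (List.mem_append_left _ hab), fun h a b hab => ?_⟩
  rcases List.mem_append.1 hab with h1 | h1
  · exact h a b h1
  · exact absurd (List.mem_singleton.1 h1).symm (hu a b)

private theorem Mach_memp {Q : Tm → Prop} {U : List Tm} {a' b' : Tm} :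
    (∀ a b, Tm.pow a b ∈ U ++ [.pow a' b'] → Q a) ↔
      (∀ a b, Tm.pow a b ∈ U → Q a) ∧ Q a' := by
  refine ⟨fun h => ⟨fun a b hab => h a b (List.mem_append_left _ hab),
    h a' b' (List.mem_append_right _ (List.mem_singleton.2 rfl))⟩, fun h a b hab => ?_⟩
  rcases List.mem_append.1 hab with h1 | h1
  · exact h.1 a b h1
  · have h2 := List.mem_singleton.1 h1
    injection h2 with h3 h4
    rw [h3]
    exact h.2

private theorem Mach_hv {W : Finset (List Bool)} {e : List Bool} {v c : ℕ}
    {N B : List (List Bool)} (Z : List Bool) {tab : List (List SI)} {ex : ℕ → Tm} {L : ℕ}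
    (hc : Coh (fun a => lr W (ex a)) L (tab.map irow)) {a : ℕ} (ha : a < L) :
    zv e (hv1 e v c Z tab a) = (Pz W e v c N B (tab.map irow) ex L Z).f (ex a) ∧
      zv e (hv2 e v c Z tab a) = (Pz W e v c N B (tab.map irow) ex L Z).g (ex a) := by
  refine ⟨?_, ?_⟩
  · have h1 := TC.chi_vec (fun b => TW.wun e (bl v Z b)) hc ha
    refine Eq.trans ?_ h1.symm
    unfold hv1
    rw [TW.zv_tval]
    congr 1
    refine Finset.prod_congr rfl fun b _ => ?_
    have h2 : TW.wfun e v c nm2 Z [] b = TW.wun e (bl v Z b) := by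
      unfold TW.wfun
      rw [show nm2.idxOf [] = 0 from rfl, Nat.zero_mul, Nat.zero_add]
    rw [h2]
  · have h1 := TC.chi_vec (fun b => TW.wun e (bl v Z (c + b))) hc ha
    refine Eq.trans ?_ h1.symm
    unfold hv2
    rw [TW.zv_tval]
    congr 1
    refine Finset.prod_congr rfl fun b _ => ?_
    have h2 : TW.wfun e v c nm2 Z [true] b = TW.wun e (bl v Z (c + b)) := by
      unfold TW.wfun
      rw [show nm2.idxOf [true] = 1 from rfl, Nat.one_mul]
    rw [h2]

private theorem Mach_getD_map {A B C : Type} {f : A → C} {g : B → C} {l : List A} {r : List B}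
    (h : l.map f = r.map g) {a : ℕ} (ha : a < r.length) (d : A) (d' : B) :
    f (l.getD a d) = g (r.getD a d') := by
  have h1 : l.length = r.length := by
    have h2 := congrArg List.length h
    rw [List.length_map, List.length_map] at h2
    exact h2
  rw [List.getD_eq_getElem _ _ (by omega : a < l.length), List.getD_eq_getElem _ _ ha]
  have h3 : (l.map f)[a]'(by rw [List.length_map]; omega) =
      (r.map g)[a]'(by rw [List.length_map]; omega) := List.getElem_of_eq h _
  rw [List.getElem_map, List.getElem_map] at h3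
  exact h3

private theorem Mach_cons (e M : List Bool) (v c m : ℕ) (N B : List (List Bool)) (Z : List Bool)
    (tab : List (List SI)) (q : Tok × Bool) (T : List (Tok × Bool)) :
    yrun e M v c m N B Z tab (q :: T) =
      ystep e M v c m N B Z tab q (yrun e M v c m N B Z tab T) := rfl

private theorem Mach_len (e M : List Bool) (v c m : ℕ) (N B : List (List Bool)) (Z : List Bool)
    (tab : List (List SI)) (T : List (Tok × Bool)) :
    (yrun e M v c m N B Z tab T).2.1.length = T.length := by
  induction T with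
  | nil => rfl
  | cons q T ih =>
    rw [Mach_cons]
    show ((yrun e M v c m N B Z tab T).2.1 ++ [_]).length = T.length + 1
    rw [List.length_append, List.length_singleton, ih]

private theorem Mach_zero (e M : List Bool) (v c m : ℕ) (N B : List (List Bool)) (Z : List Bool)
    (tab : List (List SI)) (d : Bool) (s : List Vx × List (List Bool) × Bool) :
    ystep e M v c m N B Z tab ((0, []), d) s = (vx0 :: s.1, s.2.1 ++ [[]], s.2.2 && true) := by
  cases d <;> rfl

private theorem Mach_four (e M : List Bool) (v c m : ℕ) (N B : List (List Bool)) (Z : List Bool)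
    (tab : List (List SI)) (w : List Bool) (s : List Vx × List (List Bool) × Bool) :
    ystep e M v c m N B Z tab ((4, w), true) s =
      (((hv1 e v c Z tab s.2.1.length, hv2 e v c Z tab s.2.1.length,
        rmu e (hv1 e v c Z tab s.2.1.length) (alv e v c N Z w), [true], []), (true, false)) :: s.1,
        s.2.1 ++ [alv e v c N Z w], s.2.2 && true) := rfl

private theorem Mach_add (e M : List Bool) (v c m : ℕ) (N B : List (List Bool)) (Z : List Bool)
    (tab : List (List SI)) (d : Bool) (s : List Vx × List (List Bool) × Bool) :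
    ystep e M v c m N B Z tab ((1, []), d) s =
      (adx e M (s.1.headD vx0) (s.1.tail.headD vx0) :: s.1.tail.tail,
        s.2.1 ++ [[]], s.2.2 && true) := by
  cases d <;> rfl

private theorem Mach_mul (e M : List Bool) (v c m : ℕ) (N B : List (List Bool)) (Z : List Bool)
    (tab : List (List SI)) (d : Bool) (s : List Vx × List (List Bool) × Bool) :
    ystep e M v c m N B Z tab ((2, []), d) s =
      (mux e M (s.1.headD vx0) (s.1.tail.headD vx0) :: s.1.tail.tail,
        s.2.1 ++ [[]], s.2.2 && true) := by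
  cases d <;> rfl

/-- The logarithmic derivative of the power with the flag `d`. -/
private def Mach_p (e : List Bool) (v c m : ℕ) (B : List (List Bool)) (Z : List Bool) (d : Bool)
    (a b : Vx) : List Bool := bif d then pwv e v c m B Z a b else []

private theorem Mach_pow (e M : List Bool) (v c m : ℕ) (N B : List (List Bool)) (Z : List Bool)
    (tab : List (List SI)) (d : Bool) (s : List Vx × List (List Bool) × Bool) :
    ystep e M v c m N B Z tab ((3, []), d) s =
      ((bif trx (s.1.headD vx0) (s.1.tail.headD vx0) then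
          pwx e M (s.1.headD vx0) (s.1.tail.headD vx0) (hv1 e v c Z tab s.2.1.length)
            (hv2 e v c Z tab s.2.1.length)
            (Mach_p e v c m B Z d (s.1.headD vx0) (s.1.tail.headD vx0))
        else pwx e M (s.1.headD vx0) (s.1.tail.headD vx0) [true] [true]
          (Mach_p e v c m B Z d (s.1.headD vx0) (s.1.tail.headD vx0))) :: s.1.tail.tail,
        s.2.1 ++ [Mach_p e v c m B Z d (s.1.headD vx0) (s.1.tail.headD vx0)],
        s.2.2 && (!d || beqv (rmu e (s.1.headD vx0).1.1 (rin e (s.1.headD vx0).1.1))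
          (bmod [true] (md e)))) := by
  have h : nok e (3, []) s.1 = beqv (rmu e (s.1.headD vx0).1.1 (rin e (s.1.headD vx0).1.1))
      (bmod [true] (md e)) := by
    unfold nok
    rw [show decide (((3, []) : Tok).1 = 3) = true from rfl, Bool.not_true, Bool.false_or]
  rw [← h]
  rfl

/-- The tokens with the flags. -/
private theorem Mach_zf {n : ℕ} {q : Tok} {T : List Tok} {st U : List Tm} {u : Tm}
    (h : Stk (q :: T) st (U ++ [u])) (hU : ∀ x ∈ U ++ [u], Gd n x) :
    zf n (q :: T) = (q, decide (wt u ≤ n)) :: zf n T := by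
  have h1 := flags_stk h hU
  have h2 : flags n (q :: T) = snew n q (orun n T).1 :: flags n T := rfl
  rw [h2, List.map_append, List.reverse_append, List.map_singleton, List.reverse_singleton,
    List.singleton_append] at h1
  injection h1 with h3 h4
  rw [← h3]
  rfl

private theorem Mach_thr {n : ℕ} {u : Tm} (h : wt u ≤ n) : thr n u = u := if_pos h

private theorem Mach_thr' {n : ℕ} {u : Tm} (h : ¬ wt u ≤ n) : thr n u = .one := if_neg h

private theorem Mach_map (n : ℕ) (U : List Tm) (u : Tm) :
    (U ++ [u]).map (thr n) = U.map (thr n) ++ [thr n u] := by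
  rw [List.map_append, List.map_singleton]

private theorem Mach_lgn {n : ℕ} {M : List Bool} (hM : 2 ^ n < bval M + 2) {u : Tm}
    (h : wt u ≤ n) : 2 ^ lg u < bval M + 2 :=
  lt_of_le_of_lt (Nat.pow_le_pow_right (by norm_num) ((lg_le u).trans h)) hM

private theorem Mach_adxO {n : ℕ} {e M : List Bool} {P : Pr (ZMod (bval e + 2))} {a b : Tm}
    {x y : Vx} (hx : ValO n e M P x a) (hy : ValO n e M P y b) (hM : 2 ^ n < bval M + 2) :
    ValO n e M P (adx e M x y) (.add a b) := by
  obtain ⟨x1, x2, x6, x7, x8⟩ := hx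
  obtain ⟨y1, y2, y6, y7, y8⟩ := hy
  refine ⟨?_, ?_, rfl, ?_, fun h => ?_⟩
  · show zv e (rad e x.1.1 y.1.1) = av P.f a + av P.f b
    rw [TW.zv_rad, x1, y1]
  · show zv e (rad e x.1.2.1 y.1.2.1) = av P.g a + av P.g b
    rw [TW.zv_rad, x2, y2]
  · show (x.2.2 && y.2.2) = (cst a && cst b)
    rw [x7, y7]
  · have h1 : wt (.add a b) = wt a + wt b + 1 := rfl
    exact Mach_adx (x8 (by omega)) (y8 (by omega)) (Mach_lgn hM h)

private theorem Mach_muxO {n : ℕ} {e M : List Bool} {P : Pr (ZMod (bval e + 2))} {a b : Tm}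
    {x y : Vx} (hx : ValO n e M P x a) (hy : ValO n e M P y b) (hM : 2 ^ n < bval M + 2) :
    ValO n e M P (mux e M x y) (.mul a b) := by
  obtain ⟨x1, x2, x6, x7, x8⟩ := hx
  obtain ⟨y1, y2, y6, y7, y8⟩ := hy
  refine ⟨?_, ?_, ?_, ?_, fun h => ?_⟩
  · show zv e (rmu e x.1.1 y.1.1) = av P.f a * av P.f b
    rw [TW.zv_rmu, x1, y1]
  · show zv e (rmu e x.1.2.1 y.1.2.1) = av P.g a * av P.g b
    rw [TW.zv_rmu, x2, y2]
  · show (x.2.1 || y.2.1) = (big a || big b)
    rw [x6, y6]
  · show (x.2.2 && y.2.2) = (cst a && cst b)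
    rw [x7, y7]
  · have h1 : wt (.mul a b) = wt a + wt b + 1 := rfl
    exact Mach_mux (x8 (by omega)) (y8 (by omega)) (Mach_lgn hM h)

private theorem Mach_pwxO {n : ℕ} {e M : List Bool} {P : Pr (ZMod (bval e + 2))} {a b : Tm}
    {x y : Vx} {h r p : List Bool} (hx : ValO n e M P x a) (hy : Val e M P y b)
    (hM : 2 ^ n < bval M + 2)
    (hh : zv e h = if Tr a b then P.f (.pow a b) else 1)
    (hr : zv e r = if Tr a b then P.g (.pow a b) else 1)
    (hp : wt (.pow a b) ≤ n → zv e p = ph P (.pow a b)) :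
    ValO n e M P (pwx e M x y h r p) (.pow a b) := by
  have hy' := hy
  obtain ⟨x1, x2, x6, x7, x8⟩ := hx
  obtain ⟨y1, y2, y3, y4, y5, y6, y7⟩ := hy
  refine ⟨?_, ?_, ?_, ?_, fun hw => ?_⟩
  · show zv e (rmu e h (bpw x.1.1 y.1.2.2.2.2 (md e))) =
      (if Tr a b then P.f (.pow a b) else 1) * av P.f a ^ cs b
    rw [TW.zv_rmu, TW.zv_bpw, hh, x1, y5]
  · show zv e (rmu e r (bpw x.1.2.1 y.1.2.2.2.2 (md e))) =
      (if Tr a b then P.g (.pow a b) else 1) * av P.g a ^ cs b
    rw [TW.zv_rmu, TW.zv_bpw, hr, x2, y5]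
  · exact x6
  · show ((x.2.2 && y.2.2) || !x.2.1) = ((cst a && cst b) || !big a)
    rw [x7, y7, x6]
  · have h1 : wt (.pow a b) = wt a + wt b + 1 + cs b * lg a := rfl
    have h2 : wt a ≤ n := by
      have := Nat.zero_le (cs b * lg a)
      omega
    exact Mach_pwx (x8 h2) hy' (Mach_lgn hM hw) hh hr (hp hw)

private theorem Mach_trxO {n : ℕ} {e M : List Bool} {P : Pr (ZMod (bval e + 2))} {a b : Tm}
    {x y : Vx} (hx : ValO n e M P x a) (hy : ValO n e M P y b) : trx x y = true ↔ Tr a b := by
  obtain ⟨-, -, x6, -, -⟩ := hx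
  obtain ⟨-, -, -, y7, -⟩ := hy
  unfold trx Tr
  rw [x6, y7, Bool.and_eq_true, Bool.not_eq_true']

private theorem Mach_trxO' {n : ℕ} {e M : List Bool} {P : Pr (ZMod (bval e + 2))} {a b : Tm}
    {x y : Vx} (hx : ValO n e M P x a) (hy : ValO n e M P y b) (h : ¬ Tr a b) :
    trx x y = false :=
  Bool.eq_false_iff.2 fun h1 => h ((Mach_trxO hx hy).1 h1)

private theorem Mach_valO {n : ℕ} {e M : List Bool} {P : Pr (ZMod (bval e + 2))} {a : Tm} {x : Vx}
    (h : Val e M P x a) : ValO n e M P x a :=
  ⟨h.1, h.2.1, h.2.2.2.2.2.1, h.2.2.2.2.2.2, fun _ => h⟩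

/-- The stack. -/
theorem yrun_stk {n : ℕ} {e M : List Bool} {v c m : ℕ} {N B : List (List Bool)} {Z : List Bool}
    {tab : List (List SI)} {P : Pr (ZMod (bval e + 2))} {T : List Tok} {st U : List Tm}
    (h : Stk T st U) (hU : ∀ u ∈ U, Gd n u)
    (hH : Hv e v c Z tab P (fun a => (U.map (thr n)).getD a .one) U.length)
    (hP : Pc e v c m N B Z P (U.map (thr n))) (hM : 2 ^ n < bval M + 2) :
    List.Forall₂ (ValO n e M P) (yrun e M v c m N B Z tab (zf n T)).1 st := by
  induction h with
  | nil => exact List.Forall₂.nil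
  | @one T st U h ih =>
    rw [Mach_zf (Stk.one h) hU]
    rw [Mach_map] at hH hP
    have h1 := ih (fun u hu => hU u (List.mem_append_left _ hu))
      (by
        have h2 := Mach_Hv (L := (U ++ [Tm.one]).length)
          (by rw [List.length_map, List.length_append]; omega) hH
        rwa [List.length_map] at h2) (Mach_Pc hP)
    rw [Mach_cons, Mach_zero]
    exact List.Forall₂.cons (Mach_valO (Mach_vx0 P)) h1
  | @var T st U w h ih =>
    rw [Mach_zf (Stk.var w h) hU]
    have hw : wt (.var w) ≤ n := (hU _ (List.mem_append_right _ (List.mem_singleton.2 rfl))).1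
    rw [Mach_map, Mach_thr hw] at hH hP
    have h1 := ih (fun u hu => hU u (List.mem_append_left _ hu))
      (by
        have h2 := Mach_Hv (L := (U ++ [Tm.var w]).length)
          (by rw [List.length_map, List.length_append]; omega) hH
        rwa [List.length_map] at h2) (Mach_Pc hP)
    obtain ⟨h2, h3⟩ := Mach_last (U := U.map (thr n)) (u := .var w) (Set.mem_singleton _)
      (by
        have h4 : (U.map (thr n) ++ [Tm.var w]).length = (U ++ [Tm.var w]).length := by
          simp only [List.length_append, List.length_map]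
        rw [h4]
        exact hH)
    rw [decide_eq_true hw, Mach_cons, Mach_four, Mach_len, zf_length, ← h.length]
    rw [List.length_map] at h2 h3
    refine List.Forall₂.cons (Mach_valO ⟨h2, h3, ?_, rfl, rfl, rfl, rfl⟩) h1
    show zv e (rmu e (hv1 e v c Z tab U.length) (alv e v c N Z w)) = P.f (.var w) * P.α w
    rw [TW.zv_rmu, h2, Mach_alv hP]
  | @add T st U a b h ih =>
    rw [Mach_zf (Stk.add h) hU]
    rw [Mach_map] at hH hP
    have h1 := ih (fun u hu => hU u (List.mem_append_left _ hu))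
      (by
        have h2 := Mach_Hv (L := (U ++ [Tm.add a b]).length)
          (by rw [List.length_map, List.length_append]; omega) hH
        rwa [List.length_map] at h2) (Mach_Pc hP)
    obtain ⟨h2, h3, h4⟩ := Mach_two h1 vx0
    rw [Mach_cons, Mach_add]
    exact List.Forall₂.cons (Mach_adxO h2 h3 hM) h4
  | @mul T st U a b h ih =>
    rw [Mach_zf (Stk.mul h) hU]
    rw [Mach_map] at hH hP
    have h1 := ih (fun u hu => hU u (List.mem_append_left _ hu))
      (by
        have h2 := Mach_Hv (L := (U ++ [Tm.mul a b]).length)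
          (by rw [List.length_map, List.length_append]; omega) hH
        rwa [List.length_map] at h2) (Mach_Pc hP)
    obtain ⟨h2, h3, h4⟩ := Mach_two h1 vx0
    rw [Mach_cons, Mach_mul]
    exact List.Forall₂.cons (Mach_muxO h2 h3 hM) h4
  | @pow T st U a b h ih =>
    rw [Mach_zf (Stk.pow h) hU]
    have hG := hU _ (List.mem_append_right _ (List.mem_singleton.2 rfl))
    rw [Mach_map] at hH hP
    have h1 := ih (fun u hu => hU u (List.mem_append_left _ hu))
      (by
        have h2 := Mach_Hv (L := (U ++ [Tm.pow a b]).length)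
          (by rw [List.length_map, List.length_append]; omega) hH
        rwa [List.length_map] at h2) (Mach_Pc hP)
    obtain ⟨h2, h3, h4⟩ := Mach_two h1 vx0
    obtain ⟨hb, hTw⟩ := hG.2 a b rfl
    have hy := h3.2.2.2.2 hb
    have hp : wt (.pow a b) ≤ n → zv e (Mach_p e v c m B Z (decide (wt (.pow a b) ≤ n))
        ((yrun e M v c m N B Z tab (zf n T)).1.headD vx0)
        ((yrun e M v c m N B Z tab (zf n T)).1.tail.headD vx0)) = ph P (.pow a b) := by
      intro hw
      have h5 : wt (.pow a b) = wt a + wt b + 1 + cs b * lg a := rfl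
      have h6 : wt a ≤ n := by
        have := Nat.zero_le (cs b * lg a)
        omega
      rw [Mach_thr hw] at hP
      rw [decide_eq_true hw, Mach_p, cond_true]
      exact Mach_pwv hP (h2.2.2.2.2 h6) hy
    rw [Mach_cons, Mach_pow, Mach_len, zf_length, ← h.length]
    refine List.Forall₂.cons ?_ h4
    by_cases hT : Tr a b
    · rw [Mach_thr (hTw hT)] at hH
      obtain ⟨h5, h6⟩ := Mach_last (U := U.map (thr n)) (u := .pow a b) (Or.inl ⟨rfl, hT⟩)
        (by
          have h4 : (U.map (thr n) ++ [Tm.pow a b]).length = (U ++ [Tm.pow a b]).length := by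
            simp only [List.length_append, List.length_map]
          rw [h4]
          exact hH)
      rw [List.length_map] at h5 h6
      rw [(Mach_trxO h2 h3).2 hT, cond_true]
      exact Mach_pwxO h2 hy hM (by rw [if_pos hT]; exact h5) (by rw [if_pos hT]; exact h6) hp
    · rw [Mach_trxO' h2 h3 hT, cond_false]
      exact Mach_pwxO h2 hy hM (by rw [if_neg hT]; exact TW.zv_one e)
        (by rw [if_neg hT]; exact TW.zv_one e) hp

private theorem Mach_ph_thr {n : ℕ} {K : Type} [CommRing K] (P : Pr K) {u : Tm}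
    (hu : ph P u = 0) : ph P (thr n u) = 0 := by
  unfold thr
  split_ifs
  · exact hu
  · rfl

private theorem Mach_thr_ne {n : ℕ} {u : Tm} (hu : ∀ a b, u ≠ .pow a b) :
    ∀ a b, thr n u ≠ .pow a b := by
  intro a b
  unfold thr
  split_ifs
  · exact hu a b
  · simp

/-- The logarithmic derivatives and the flag; the values of the characters at the last subterm are
not needed. -/
theorem yrun_out {n : ℕ} {e M : List Bool} {v c m : ℕ} {N B : List (List Bool)} {Z : List Bool}
    {tab : List (List SI)} {P : Pr (ZMod (bval e + 2))} {T : List Tok} {st U : List Tm}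
    (h : Stk T st U) (hU : ∀ u ∈ U, Gd n u)
    (hH : Hv e v c Z tab P (fun a => (U.map (thr n)).getD a .one) (U.length - 1))
    (hP : Pc e v c m N B Z P (U.map (thr n))) (hM : 2 ^ n < bval M + 2) :
    (yrun e M v c m N B Z tab (zf n T)).2.1.map (zv e) = U.map (fun u => ph P (thr n u)) ∧
      ((yrun e M v c m N B Z tab (zf n T)).2.2 = true ↔ ∀ u b, Tm.pow u b ∈ U.map (thr n) →
        av P.f u * P.iv (av P.f u) = 1) := by
  induction h with
  | nil =>
    refine ⟨rfl, fun _ u b hub => absurd hub (List.not_mem_nil), fun _ => rfl⟩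
  | @one T st U h ih =>
    rw [Mach_zf (Stk.one h) hU]
    rw [Mach_map] at hH hP
    have hH' := Mach_Hv (L := (U ++ [Tm.one]).length - 1) (by
      rw [List.length_map, List.length_append, List.length_singleton, Nat.add_sub_cancel]) hH
    rw [List.length_map] at hH'
    obtain ⟨h1, h2⟩ := ih (fun u hu => hU u (List.mem_append_left _ hu))
      (Mach_Hv' (Nat.sub_le _ _) hH') (Mach_Pc hP)
    rw [Mach_cons, Mach_zero]
    refine ⟨?_, ?_⟩
    · show ((yrun e M v c m N B Z tab (zf n T)).2.1 ++ [[]]).map (zv e) = _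
      rw [List.map_append, h1, List.map_append, List.map_singleton, List.map_singleton,
        TW.zv_nil, Mach_ph_thr P rfl]
    · show ((yrun e M v c m N B Z tab (zf n T)).2.2 && true) = true ↔ _
      rw [Bool.and_true, h2, Mach_map]
      exact (Mach_mem (Q := fun a => av P.f a * P.iv (av P.f a) = 1)
        (Mach_thr_ne (by simp))).symm
  | @var T st U w h ih =>
    rw [Mach_zf (Stk.var w h) hU]
    have hw : wt (.var w) ≤ n := (hU _ (List.mem_append_right _ (List.mem_singleton.2 rfl))).1
    rw [Mach_map] at hH hP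
    have hH' := Mach_Hv (L := (U ++ [Tm.var w]).length - 1) (by
      rw [List.length_map, List.length_append, List.length_singleton, Nat.add_sub_cancel]) hH
    rw [List.length_map] at hH'
    obtain ⟨h1, h2⟩ := ih (fun u hu => hU u (List.mem_append_left _ hu))
      (Mach_Hv' (Nat.sub_le _ _) hH') (Mach_Pc hP)
    rw [decide_eq_true hw, Mach_cons, Mach_four]
    refine ⟨?_, ?_⟩
    · show ((yrun e M v c m N B Z tab (zf n T)).2.1 ++ [alv e v c N Z w]).map (zv e) = _
      rw [List.map_append, h1, List.map_append, List.map_singleton, List.map_singleton,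
        Mach_alv hP, Mach_thr hw]
      rfl
    · show ((yrun e M v c m N B Z tab (zf n T)).2.2 && true) = true ↔ _
      rw [Bool.and_true, h2, Mach_map]
      exact (Mach_mem (Q := fun a => av P.f a * P.iv (av P.f a) = 1)
        (Mach_thr_ne (by simp))).symm
  | @add T st U a b h ih =>
    rw [Mach_zf (Stk.add h) hU]
    rw [Mach_map] at hH hP
    have hH' := Mach_Hv (L := (U ++ [Tm.add a b]).length - 1) (by
      rw [List.length_map, List.length_append, List.length_singleton, Nat.add_sub_cancel]) hH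
    rw [List.length_map] at hH'
    obtain ⟨h1, h2⟩ := ih (fun u hu => hU u (List.mem_append_left _ hu))
      (Mach_Hv' (Nat.sub_le _ _) hH') (Mach_Pc hP)
    rw [Mach_cons, Mach_add]
    refine ⟨?_, ?_⟩
    · show ((yrun e M v c m N B Z tab (zf n T)).2.1 ++ [[]]).map (zv e) = _
      rw [List.map_append, h1, List.map_append, List.map_singleton, List.map_singleton,
        TW.zv_nil, Mach_ph_thr P rfl]
    · show ((yrun e M v c m N B Z tab (zf n T)).2.2 && true) = true ↔ _
      rw [Bool.and_true, h2, Mach_map]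
      exact (Mach_mem (Q := fun a => av P.f a * P.iv (av P.f a) = 1)
        (Mach_thr_ne (by simp))).symm
  | @mul T st U a b h ih =>
    rw [Mach_zf (Stk.mul h) hU]
    rw [Mach_map] at hH hP
    have hH' := Mach_Hv (L := (U ++ [Tm.mul a b]).length - 1) (by
      rw [List.length_map, List.length_append, List.length_singleton, Nat.add_sub_cancel]) hH
    rw [List.length_map] at hH'
    obtain ⟨h1, h2⟩ := ih (fun u hu => hU u (List.mem_append_left _ hu))
      (Mach_Hv' (Nat.sub_le _ _) hH') (Mach_Pc hP)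
    rw [Mach_cons, Mach_mul]
    refine ⟨?_, ?_⟩
    · show ((yrun e M v c m N B Z tab (zf n T)).2.1 ++ [[]]).map (zv e) = _
      rw [List.map_append, h1, List.map_append, List.map_singleton, List.map_singleton,
        TW.zv_nil, Mach_ph_thr P rfl]
    · show ((yrun e M v c m N B Z tab (zf n T)).2.2 && true) = true ↔ _
      rw [Bool.and_true, h2, Mach_map]
      exact (Mach_mem (Q := fun a => av P.f a * P.iv (av P.f a) = 1)
        (Mach_thr_ne (by simp))).symm
  | @pow T st U a b h ih =>
    rw [Mach_zf (Stk.pow h) hU]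
    have hG := hU _ (List.mem_append_right _ (List.mem_singleton.2 rfl))
    rw [Mach_map] at hH hP
    have hH' := Mach_Hv (L := (U ++ [Tm.pow a b]).length - 1) (by
      rw [List.length_map, List.length_append, List.length_singleton, Nat.add_sub_cancel]) hH
    rw [List.length_map] at hH'
    have hUU : ∀ u ∈ U, Gd n u := fun u hu => hU u (List.mem_append_left _ hu)
    obtain ⟨h1, h2⟩ := ih hUU (Mach_Hv' (Nat.sub_le _ _) hH') (Mach_Pc hP)
    have h3 := yrun_stk (m := m) (N := N) (B := B) h hUU hH' (Mach_Pc hP) hM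
    obtain ⟨h4, h5, -⟩ := Mach_two h3 vx0
    obtain ⟨hb, hTw⟩ := hG.2 a b rfl
    have hy := h5.2.2.2.2 hb
    rw [Mach_cons, Mach_pow]
    by_cases hw : wt (.pow a b) ≤ n
    · have h6 : wt a ≤ n := by
        have h5 : wt (.pow a b) = wt a + wt b + 1 + cs b * lg a := rfl
        have := Nat.zero_le (cs b * lg a)
        omega
      rw [Mach_thr hw] at hP
      rw [decide_eq_true hw]
      refine ⟨?_, ?_⟩
      · show ((yrun e M v c m N B Z tab (zf n T)).2.1 ++ [pwv e v c m B Z _ _]).map (zv e) = _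
        rw [List.map_append, h1, List.map_append, List.map_singleton, List.map_singleton,
          Mach_pwv hP (h4.2.2.2.2 h6) hy, Mach_thr hw]
      · show ((yrun e M v c m N B Z tab (zf n T)).2.2 && beqv _ _) = true ↔ _
        rw [Bool.and_eq_true, h2, Mach_ok hP.iv h4.1, Mach_map, Mach_thr hw]
        exact (Mach_memp (Q := fun a => av P.f a * P.iv (av P.f a) = 1)).symm
    · rw [decide_eq_false hw]
      refine ⟨?_, ?_⟩
      · show ((yrun e M v c m N B Z tab (zf n T)).2.1 ++ [[]]).map (zv e) = _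
        rw [List.map_append, h1, List.map_append, List.map_singleton, List.map_singleton,
          TW.zv_nil, Mach_thr' hw]
        rfl
      · show ((yrun e M v c m N B Z tab (zf n T)).2.2 && true) = true ↔ _
        rw [Bool.and_true, h2, Mach_map]
        exact (Mach_mem (Q := fun a => av P.f a * P.iv (av P.f a) = 1)
          (by rw [Mach_thr' hw]; simp)).symm

theorem yrow_length (e M : List Bool) (v c m : ℕ) (N : List (List Bool))
    (B : List (List Bool)) (tab : List (List SI)) (T : List (Tok × Bool)) {i : ℕ}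
    (hi : i + 1 ≤ T.length) (Z : List Bool) :
    (yrow e M v c m N B tab T i Z).length = i + 1 := by
  unfold yrow
  have h1 : (T.drop (T.length - (i + 1))).length = i + 1 := by
    rw [List.length_drop]
    omega
  cases (yrun e M v c m N B Z tab (T.drop (T.length - (i + 1)))).2.2 with
  | true => rw [cond_true, Mach_len, h1]
  | false => rw [cond_false, List.length_replicate]

private theorem Mach_Pz {W : Finset (List Bool)} {e : List Bool} {v c m n : ℕ}
    {N B : List (List Bool)} (Z : List Bool) (ν : List (ℕ → ℤ)) (ex : ℕ → Tm) (L : ℕ)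
    (hB : ∀ P ∈ B, 2 ≤ bval P) (hm : n ≤ m) {U : List Tm} :
    Pc e v c m N B Z (Pz W e v c N B ν ex L Z) (U.map (thr n)) := by
  refine ⟨fun _ => rfl, fun x u b hub hx => ?_, fun _ => rfl⟩
  have h1 : wt (Tm.pow u b) ≤ n := by
    obtain ⟨y, -, hy⟩ := List.mem_map.1 hub
    unfold thr at hy
    split_ifs at hy with h2
    · rw [← hy]
      exact h2
  have h2 : wt u < wt (Tm.pow u b) := by
    simp only [wt]
    omega
  have h3 := e1_le u
  have h6 := lg_le u
  have h4 : (2 : ℕ) ^ lg u < 2 ^ m := Nat.pow_lt_pow_right (by norm_num) (by omega)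
  have h5 := e1_pos u
  rw [TC.lcv_val hB Z (by rw [hx]; exact h5) (by rw [hx]; omega), hx]
  rfl

private theorem Mach_gd {s t u : Tm} {n : ℕ} (hn : wo s + wo t ≤ n)
    (h : u ∈ subs t ++ subs s) : Gd n u := by
  rcases List.mem_append.1 h with h | h
  · exact gd_subs (by omega) h
  · exact gd_subs (by omega) h

/-- The hash row. -/
theorem yrow_val {n : ℕ} {W : Finset (List Bool)} {e M : List Bool} {v c m : ℕ}
    {N B : List (List Bool)} (Z : List Bool) {tab : List (List SI)} (s t : Tm) {i : ℕ}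
    (hn : wo s + wo t ≤ n) (hi : i < s.sz + t.sz) (hB : ∀ P ∈ B, 2 ≤ bval P) (hm : n ≤ m)
    (hM : 2 ^ n ≤ bval M) (hc : Coh (fun a => lr W (exT n s t a)) i (tab.map irow)) {a : ℕ}
    (ha : a ≤ i) :
    evr e (yrow e M v c m N B tab (zf n (s.toks ++ t.toks)) i Z) a =
      hz W e v c N B (tab.map irow) (exT n s t) i Z a := by
  classical
  have hlen : (subs t ++ subs s).length = s.sz + t.sz := by
    rw [List.length_append, TC.length_subs, TC.length_subs, add_comm]
  have hst := TC.stk_pair s t
  have hTl : (s.toks ++ t.toks).length = s.sz + t.sz := by rw [← hst.length, hlen]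
  obtain ⟨st', hS⟩ := hst.drop (m := i + 1) (by omega)
  have hUl : ((subs t ++ subs s).take (i + 1)).length = i + 1 := by
    rw [List.length_take, hlen]
    omega
  have hUl' : (((subs t ++ subs s).take (i + 1)).map (thr n)).length = i + 1 := by
    rw [List.length_map, hUl]
  have hget : ∀ b ≤ i, (((subs t ++ subs s).take (i + 1)).map (thr n)).getD b .one =
      exT n s t b := by
    intro b hb
    rw [exT_eq, List.getD_eq_getElem _ _ (by rw [hUl']; omega), List.getElem_map,
      List.getElem_take, List.getD_eq_getElem _ _ (by rw [List.length_map, hlen]; omega),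
      List.getElem_map]
  have hmem : ∀ u ∈ (subs t ++ subs s).take (i + 1), Gd n u :=
    fun u hu => Mach_gd hn (List.mem_of_mem_take hu)
  obtain ⟨h1, h2⟩ := yrun_out (e := e) (M := M) (v := v) (c := c) (m := m) (N := N) (B := B)
    (Z := Z) (tab := tab) (P := Pz W e v c N B (tab.map irow) (exT n s t) i Z) hS hmem
    (by
      intro b hb _
      rw [hUl] at hb
      have hb' : b < i := by omega
      beta_reduce
      rw [hget b hb'.le]
      exact Mach_hv Z hc hb')
    (Mach_Pz Z _ _ _ hB hm) (by omega)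
  have h3 : (∀ u b, Tm.pow u b ∈ ((subs t ++ subs s).take (i + 1)).map (thr n) →
      av (Pz W e v c N B (tab.map irow) (exT n s t) i Z).f u *
        (Pz W e v c N B (tab.map irow) (exT n s t) i Z).iv
          (av (Pz W e v c N B (tab.map irow) (exT n s t) i Z).f u) = 1) ↔
      Ok W e v c N B (tab.map irow) (exT n s t) i Z := by
    refine ⟨fun h a ha u b hab => h u b ?_, fun h u b hub => ?_⟩
    · rw [← hab, ← hget a ha, List.getD_eq_getElem _ _ (by rw [hUl']; omega)]
      exact List.getElem_mem _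
    · obtain ⟨j, hj, h4⟩ := List.mem_iff_getElem.1 hub
      have hj' : j ≤ i := by
        rw [hUl'] at hj
        omega
      refine h j hj' u b ?_
      rw [← hget j hj', List.getD_eq_getElem _ _ hj, h4]
  rw [h3] at h2
  have hzd : (zf n (s.toks ++ t.toks)).drop ((zf n (s.toks ++ t.toks)).length - (i + 1)) =
      zf n ((s.toks ++ t.toks).drop ((s.toks ++ t.toks).length - (i + 1))) := by
    rw [zf_drop, zf_length]
  show zv e ((yrow e M v c m N B tab (zf n (s.toks ++ t.toks)) i Z).getD a []) = _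
  unfold yrow hz
  rw [hzd]
  by_cases hok : Ok W e v c N B (tab.map irow) (exT n s t) i Z
  · have ha' : a < (((subs t ++ subs s).take (i + 1)).map (thr n)).length := by
      rw [hUl']
      omega
    rw [if_pos hok, h2.2 hok, cond_true, ← hget a ha, List.getD_eq_getElem _ _ ha',
      List.getElem_map]
    have h5 := Mach_getD_map h1 (by rw [hUl]; omega : a < _) [] .one
    rw [h5, List.getD_eq_getElem _ _ (by rw [hUl]; omega)]
  · have h4 : (yrun e M v c m N B Z tab (zf n ((s.toks ++ t.toks).drop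
        ((s.toks ++ t.toks).length - (i + 1))))).2.2 = false :=
      Bool.eq_false_iff.2 fun h5 => hok (h2.1 h5)
    rw [if_neg hok, h4, cond_false, List.getD_eq_getElem _ _ (by
      rw [List.length_replicate]; omega), List.getElem_replicate, TW.zv_nil]

/-- The values of the two terms. -/
theorem yrun_pair {n : ℕ} {W : Finset (List Bool)} {e M : List Bool} {v c m : ℕ}
    {N B : List (List Bool)} (Z : List Bool) {tab : List (List SI)} (s t : Tm)
    (hn : wo s + wo t ≤ n) (hB : ∀ P ∈ B, 2 ≤ bval P) (hm : n ≤ m) (hM : 2 ^ n ≤ bval M)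
    (hc : Coh (fun a => lr W (exT n s t a)) (s.sz + t.sz) (tab.map irow)) :
    zv e ((yrun e M v c m N B Z tab (zf n (s.toks ++ t.toks))).1.headD vx0).1.1 =
        av (Pz W e v c N B (tab.map irow) (exT n s t) (s.sz + t.sz) Z).f s ∧
      zv e ((yrun e M v c m N B Z tab (zf n (s.toks ++ t.toks))).1.tail.headD vx0).1.1 =
        av (Pz W e v c N B (tab.map irow) (exT n s t) (s.sz + t.sz) Z).f t := by
  have hlen : (subs t ++ subs s).length = s.sz + t.sz := by
    rw [List.length_append, TC.length_subs, TC.length_subs, add_comm]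
  have h1 := yrun_stk (n := n) (e := e) (M := M) (v := v) (c := c) (m := m) (N := N) (B := B)
    (Z := Z) (tab := tab) (P := Pz W e v c N B (tab.map irow) (exT n s t) (s.sz + t.sz) Z)
    (TC.stk_pair s t) (fun u hu => Mach_gd hn hu)
    (by
      intro b hb _
      rw [hlen] at hb
      beta_reduce
      rw [← exT_eq]
      exact Mach_hv Z hc hb)
    (Mach_Pz Z _ _ _ hB hm) (by omega)
  obtain ⟨h2, h3, -⟩ := Mach_two h1 vx0
  exact ⟨h2.1, h3.1⟩

end Pool.Agent.TQ
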