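import Pool.Agent.H.MP_b2d7dd_lc.TQ.Mach
import Pool.Agent.H.MP_b2d7dd_lc.TC.CobP
import Pool.Agent.H.MP_b2d7dd_lc.TD.MachP

/-!
# Module MachP: the machine runs in polynomial time

Compare TD/MachP.
-/

namespace Pool.Agent.TQ

open Pool.Agent.TI (Tok fidx fidx_eq bmod beqv bpw bsub length_bmod_le length_bpw_le)
open Pool.Agent.TE (bl)
open Pool.Agent.TW (SI rad rmu rin rsb md tval length_tval_le length_rad_le length_rmu_le
  length_rsb_le length_md_le poly_tval poly_bl)
open Pool.Agent.TC (alv lcv hv1 hv2 nm2 poly_lcv)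
open Pool.Agent.TD
open Pool.Agent.H.MP_5be563_lc.PT

variable {α : Type} [Enc α]

private theorem MachP_c {β : Type} [Enc β] (b : β) : Poly (fun _ : α => b) :=
  Pool.Agent.H.MP_5be563_lc.PT.Poly.const b

private theorem MachP_fidx_le (w : List Bool) (l : List (List Bool)) : fidx w l ≤ l.length := by
  rw [fidx_eq]
  exact List.idxOf_le_length

private theorem MachP_fidx {fw : α → List Bool} {fl : α → List (List Bool)} (hw : Poly fw)
    (hl : Poly fl) : Poly (fun a => fidx (fw a) (fl a)) := by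
  unfold fidx
  refine Poly.foldr (f := fun p : α × ℕ × List Bool =>
      bif decide (p.2.2 = fw p.1) then 0 else p.2.1 + 1) (l := fl) (s0 := fun _ => 0)
      (B := fun a => 2 * sz (fl a) + 1) ?_ hl (by fun_prop)
      (((PBdd.const 2).mul hl.sz_le).add (PBdd.const 1)) ?_
  · exact Poly.cond (by fun_prop) (by fun_prop) (by fun_prop)
  · intro a l₁ l₂ h
    have h1 : fidx (fw a) l₂ ≤ l₂.length := MachP_fidx_le _ _
    have h2 : l₂.length ≤ (fl a).length := by rw [h]; simp
    have h3 := length_lt_sz (fl a)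
    have h4 : sz (fidx (fw a) l₂) = 2 * fidx (fw a) l₂ + 1 := by simp
    change sz (fidx (fw a) l₂) ≤ 2 * sz (fl a) + 1
    rw [h4]
    omega

private theorem MachP_pwv (e : List Bool) (v c m : ℕ) (B : List (List Bool)) (Z : List Bool)
    (a b : Vx) : (pwv e v c m B Z a b).length ≤ e.length + 4 := by
  rw [pwv]
  cases trx a b
  · rw [cond_false]
    simp
  · rw [cond_true]
    exact length_rmu_le _ _ _

private theorem MachP_nph (e : List Bool) (v c m : ℕ) (N B : List (List Bool)) (Z : List Bool)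
    (q : Tok) (st : List Vx) : (nph e v c m N B Z q st).length ≤ e.length + 4 := by
  rw [nph]
  cases h4 : decide (q.1 = 4)
  · rw [cond_false]
    cases h3 : decide (q.1 = 3)
    · rw [cond_false]
      simp
    · rw [cond_true]
      exact MachP_pwv _ _ _ _ _ _ _ _
  · rw [cond_true, alv]
    have h1 := length_bmod_le (bl v Z (2 * c + fidx q.2 N)) (md e)
    have h2 := length_md_le e
    omega

private theorem MachP_mph (e : List Bool) (v c m : ℕ) (N B : List (List Bool)) (Z : List Bool)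
    (q : Tok × Bool) (st : List Vx) : (mph e v c m N B Z q st).length ≤ e.length + 4 := by
  rw [mph]
  cases q.2
  · rw [cond_false]
    simp
  · rw [cond_true]
    exact MachP_nph _ _ _ _ _ _ _ _ _

/-- The bounds for the values of a term. -/
private def MachP_B (e M : List Bool) (x : Vx) : Prop :=
  x.1.1.length ≤ e.length + 4 ∧ x.1.2.1.length ≤ e.length + 4 ∧
    x.1.2.2.1.length ≤ e.length + 4 ∧ x.1.2.2.2.1.length ≤ M.length + 4 ∧
      x.1.2.2.2.2.length ≤ M.length + 4

private theorem MachP_bpw (M x k : List Bool) : (bpw x k (md M)).length ≤ M.length + 4 := by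
  have h1 := length_bpw_le x k (md M)
  have h2 := length_md_le M
  omega

private theorem MachP_pwx (e M : List Bool) (a b : Vx) (h r p : List Bool) :
    MachP_B e M (pwx e M a b h r p) := by
  refine ⟨length_rmu_le _ _ _, length_rmu_le _ _ _, length_rmu_le _ _ _, MachP_bpw _ _ _, ?_⟩
  show (bif b.2.2 || !a.2.1 then bpw a.1.2.2.2.2 b.1.2.2.2.2 (md M) else []).length ≤ _
  cases (b.2.2 || !a.2.1)
  · rw [cond_false]
    simp
  · rw [cond_true]
    exact MachP_bpw _ _ _

private theorem MachP_nvx (e M : List Bool) (v c : ℕ) (Z : List Bool) (tab : List (List SI))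
    (q : Tok) (st : List Vx) (p : ℕ) (h : List Bool) :
    MachP_B e M (nvx e M v c Z tab q st p h) := by
  have hone : ∀ l : List Bool, ([true] : List Bool).length ≤ l.length + 4 := by
    intro l
    rw [List.length_singleton]
    omega
  have hnil : ∀ l : List Bool, ([] : List Bool).length ≤ l.length + 4 := by
    intro l
    rw [List.length_nil]
    omega
  rw [nvx]
  cases h0 : decide (q.1 = 0)
  · rw [cond_false]
    cases h4 : decide (q.1 = 4)
    · rw [cond_false]
      cases h1 : decide (q.1 = 1)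
      · rw [cond_false]
        cases h2 : decide (q.1 = 2)
        · rw [cond_false]
          cases trx (st.headD vx0) (st.tail.headD vx0)
          · rw [cond_false]
            exact MachP_pwx _ _ _ _ _ _ _
          · rw [cond_true]
            exact MachP_pwx _ _ _ _ _ _ _
        · rw [cond_true]
          exact ⟨length_rmu_le _ _ _, length_rmu_le _ _ _, length_rad_le _ _ _,
            length_rmu_le _ _ _, length_rmu_le _ _ _⟩
      · rw [cond_true]
        exact ⟨length_rad_le _ _ _, length_rad_le _ _ _, length_rad_le _ _ _,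
          length_rad_le _ _ _, length_rad_le _ _ _⟩
    · rw [cond_true]
      exact ⟨length_tval_le _ _ _ _ _ _ _ _, length_tval_le _ _ _ _ _ _ _ _,
        length_rmu_le _ _ _, hone M, hnil M⟩
  · rw [cond_true]
    exact ⟨hone e, hone e, hnil e, hone M, hone M⟩

/-- The sizes of the state. -/
theorem yrun_len (e M : List Bool) (v c m : ℕ) (N B : List (List Bool)) (Z : List Bool)
    (tab : List (List SI)) (T : List (Tok × Bool)) :
    (yrun e M v c m N B Z tab T).1.length ≤ T.length ∧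
      (yrun e M v c m N B Z tab T).2.1.length = T.length ∧
      (∀ x ∈ (yrun e M v c m N B Z tab T).1, x.1.1.length ≤ e.length + 4 ∧
        x.1.2.1.length ≤ e.length + 4 ∧ x.1.2.2.1.length ≤ e.length + 4 ∧
          x.1.2.2.2.1.length ≤ M.length + 4 ∧ x.1.2.2.2.2.length ≤ M.length + 4) ∧
      (∀ x ∈ (yrun e M v c m N B Z tab T).2.1, x.length ≤ e.length + 4) := by
  induction T with
  | nil =>
    refine ⟨le_rfl, rfl, ?_, ?_⟩
    · intro x hx
      exact absurd hx (by simp [yrun])
    · intro x hx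
      exact absurd hx (by simp [yrun])
  | cons q T ih =>
    obtain ⟨h1, h2, h3, h4⟩ := ih
    have hcons : yrun e M v c m N B Z tab (q :: T) =
        ystep e M v c m N B Z tab q (yrun e M v c m N B Z tab T) := rfl
    rw [hcons]
    revert h1 h2 h3 h4
    generalize yrun e M v c m N B Z tab T = s
    intro h1 h2 h3 h4
    rw [ystep]
    have hsub : ∀ x ∈ (bif decide (q.1.1 = 0) || decide (q.1.1 = 4) then s.1 else s.1.tail.tail),
        x ∈ s.1 := by
      intro x hx
      cases hb : (decide (q.1.1 = 0) || decide (q.1.1 = 4))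
      · rw [hb, cond_false] at hx
        exact List.mem_of_mem_tail (List.mem_of_mem_tail hx)
      · rw [hb, cond_true] at hx
        exact hx
    have hlen : (bif decide (q.1.1 = 0) || decide (q.1.1 = 4) then s.1 else s.1.tail.tail).length ≤
        s.1.length := by
      cases hb : (decide (q.1.1 = 0) || decide (q.1.1 = 4))
      · rw [cond_false, List.length_tail, List.length_tail]
        omega
      · rw [cond_true]
    refine ⟨?_, ?_, ?_, ?_⟩
    · show (_ :: _ : List Vx).length ≤ _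
      rw [List.length_cons, List.length_cons]
      omega
    · show (s.2.1 ++ [_]).length = _
      rw [List.length_append, List.length_singleton, List.length_cons, h2]
    · intro x hx
      rcases List.mem_cons.1 hx with rfl | hx
      · exact MachP_nvx _ _ _ _ _ _ _ _ _ _
      · exact h3 x (hsub x hx)
    · intro x hx
      rcases List.mem_append.1 hx with hx | hx
      · exact h4 x hx
      · rw [List.mem_singleton.1 hx]
        exact MachP_mph _ _ _ _ _ _ _ _ _

private theorem MachP_pv {f : α → Vx} (hf : Poly f) : Poly (fun a => (f a).1.1) ∧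
    Poly (fun a => (f a).1.2.1) ∧ Poly (fun a => (f a).1.2.2.1) ∧
    Poly (fun a => (f a).1.2.2.2.1) ∧ Poly (fun a => (f a).1.2.2.2.2) ∧
    Poly (fun a => (f a).2.1) ∧ Poly (fun a => (f a).2.2) := by
  have h1 := Poly.comp Poly.fst hf
  have h2 := Poly.comp Poly.snd hf
  have k1 := Poly.comp Poly.snd h1
  have k2 := Poly.comp Poly.snd k1
  have k3 := Poly.comp Poly.snd k2
  exact ⟨Poly.comp Poly.fst h1, Poly.comp Poly.fst k1, Poly.comp Poly.fst k2,
    Poly.comp Poly.fst k3, Poly.comp Poly.snd k3, Poly.comp Poly.fst h2, Poly.comp Poly.snd h2⟩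

private theorem MachP_ptrx {f g : α → Vx} (hf : Poly f) (hg : Poly g) :
    Poly (fun a => trx (f a) (g a)) := by
  unfold trx
  exact Poly.and (MachP_pv hf).2.2.2.2.2.1 (Poly.not (MachP_pv hg).2.2.2.2.2.2)

private theorem MachP_pnph {fe : α → List Bool} {fv fc fm : α → ℕ}
    {fN fB : α → List (List Bool)} {fZ : α → List Bool} {fq : α → Tok} {fs : α → List Vx}
    (he : Poly fe) (hv : Poly fv) (hc : Poly fc) (hm : Poly fm) (hN : Poly fN) (hB : Poly fB)
    (hZ : Poly fZ) (hq : Poly fq) (hs : Poly fs) :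
    Poly (fun a => nph (fe a) (fv a) (fc a) (fm a) (fN a) (fB a) (fZ a) (fq a) (fs a)) := by
  have hq1 : Poly (fun a => (fq a).1) := by fun_prop
  have hq2 : Poly (fun a => (fq a).2) := by fun_prop
  have hmd : Poly (fun a => md (fe a)) := Pool.Agent.TW.Poly.md he
  have ha : Poly (fun a => alv (fe a) (fv a) (fc a) (fN a) (fZ a) (fq a).2) := by
    unfold alv
    exact Pool.Agent.TI.Poly.bmod (poly_bl hv hZ (Poly.add (Poly.mul (MachP_c 2) hc)
      (MachP_fidx hq2 hN))) hmd
  have h1 : Poly (fun a => (fs a).headD vx0) := Poly.headD hs (MachP_c vx0)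
  have h2 : Poly (fun a => (fs a).tail.headD vx0) := Poly.headD (Poly.tail hs) (MachP_c vx0)
  obtain ⟨a1, a2, a3, a4, a5, a6, a7⟩ := MachP_pv h1
  obtain ⟨b1, b2, b3, b4, b5, b6, b7⟩ := MachP_pv h2
  have hp : Poly (fun a => pwv (fe a) (fv a) (fc a) (fm a) (fB a) (fZ a)
      ((fs a).headD vx0) ((fs a).tail.headD vx0)) := by
    unfold pwv
    exact Poly.cond (MachP_ptrx h1 h2) (Pool.Agent.TW.Poly.rmu he
      (Pool.Agent.TW.Poly.rsb he b2 b5) (Pool.Agent.TW.Poly.rad he
        (Pool.Agent.TW.Poly.rmu he a3 (Pool.Agent.TW.Poly.rin he a1))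
        (poly_lcv he hv hc hm hB hZ a4))) (MachP_c _)
  unfold nph
  exact Poly.cond (Poly.nateq hq1 (MachP_c 4)) ha (Poly.cond (Poly.nateq hq1 (MachP_c 3)) hp
    (MachP_c _))

private theorem MachP_ppwx {fe fM : α → List Bool} {f g : α → Vx} {fh fr fp : α → List Bool}
    (he : Poly fe) (hM : Poly fM) (hf : Poly f) (hg : Poly g) (hh : Poly fh) (hr : Poly fr)
    (hp : Poly fp) :
    Poly (fun a => pwx (fe a) (fM a) (f a) (g a) (fh a) (fr a) (fp a)) := by
  obtain ⟨a1, a2, a3, a4, a5, a6, a7⟩ := MachP_pv hf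
  obtain ⟨b1, b2, b3, b4, b5, b6, b7⟩ := MachP_pv hg
  have hmd : Poly (fun a => md (fe a)) := Pool.Agent.TW.Poly.md he
  have hmM : Poly (fun a => md (fM a)) := Pool.Agent.TW.Poly.md hM
  have p1 := Pool.Agent.TI.Poly.bpw a1 b5 hmd
  have p2 := Pool.Agent.TI.Poly.bpw a2 b5 hmd
  have p3 := Pool.Agent.TI.Poly.bpw a1 (Pool.Agent.TI.Poly.bsub b5 (MachP_c [true])) hmd
  have p4 := Pool.Agent.TI.Poly.bpw a4 b5 hmM
  have p5 := Pool.Agent.TI.Poly.bpw a5 b5 hmM
  unfold pwx
  exact Poly.pair (Poly.pair (Pool.Agent.TW.Poly.rmu he hh p1) (Poly.pair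
    (Pool.Agent.TW.Poly.rmu he hr p2) (Poly.pair
      (Pool.Agent.TW.Poly.rmu he hh (Pool.Agent.TW.Poly.rad he
        (Pool.Agent.TW.Poly.rmu he hp p1)
        (Pool.Agent.TW.Poly.rmu he (Pool.Agent.TW.Poly.rmu he b5 p3) a3)))
      (Poly.pair p4 (Poly.cond (Poly.or b7 (Poly.not a6)) p5 (MachP_c _))))))
    (Poly.pair a6 (Poly.or (Poly.and a7 b7) (Poly.not a6)))

private theorem MachP_pnvx {fe fM : α → List Bool} {fv fc : α → ℕ}
    {fZ : α → List Bool} {ft : α → List (List SI)} {fq : α → Tok} {fs : α → List Vx}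
    {fp : α → ℕ} {fh : α → List Bool} (he : Poly fe) (hM : Poly fM) (hv : Poly fv)
    (hc : Poly fc) (hZ : Poly fZ) (ht : Poly ft) (hq : Poly fq) (hs : Poly fs) (hp : Poly fp)
    (hh : Poly fh) :
    Poly (fun a => nvx (fe a) (fM a) (fv a) (fc a) (fZ a) (ft a) (fq a) (fs a) (fp a)
      (fh a)) := by
  have hq1 : Poly (fun a => (fq a).1) := by fun_prop
  have h1 : Poly (fun a => (fs a).headD vx0) := Poly.headD hs (MachP_c vx0)
  have h2 : Poly (fun a => (fs a).tail.headD vx0) := Poly.headD (Poly.tail hs) (MachP_c vx0)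
  obtain ⟨a1, a2, a3, a4, a5, a6, a7⟩ := MachP_pv h1
  obtain ⟨b1, b2, b3, b4, b5, b6, b7⟩ := MachP_pv h2
  have t1 : Poly (fun a => hv1 (fe a) (fv a) (fc a) (fZ a) (ft a) (fp a)) := by
    unfold hv1
    exact poly_tval he hv hc (MachP_c nm2) hZ ht hp (MachP_c _)
  have t2 : Poly (fun a => hv2 (fe a) (fv a) (fc a) (fZ a) (ft a) (fp a)) := by
    unfold hv2
    exact poly_tval he hv hc (MachP_c nm2) hZ ht hp (MachP_c _)
  have hadx : Poly (fun a => adx (fe a) (fM a) ((fs a).headD vx0) ((fs a).tail.headD vx0)) := by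
    unfold adx
    exact Poly.pair (Poly.pair (Pool.Agent.TW.Poly.rad he a1 b1) (Poly.pair
      (Pool.Agent.TW.Poly.rad he a2 b2) (Poly.pair (Pool.Agent.TW.Poly.rad he a3 b3)
        (Poly.pair (Pool.Agent.TW.Poly.rad hM a4 b4) (Pool.Agent.TW.Poly.rad hM a5 b5)))))
      (Poly.pair (MachP_c true) (Poly.and a7 b7))
  have hmux : Poly (fun a => mux (fe a) (fM a) ((fs a).headD vx0) ((fs a).tail.headD vx0)) := by
    unfold mux
    exact Poly.pair (Poly.pair (Pool.Agent.TW.Poly.rmu he a1 b1) (Poly.pair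
      (Pool.Agent.TW.Poly.rmu he a2 b2) (Poly.pair
        (Pool.Agent.TW.Poly.rad he (Pool.Agent.TW.Poly.rmu he a3 b1)
          (Pool.Agent.TW.Poly.rmu he a1 b3))
        (Poly.pair (Pool.Agent.TW.Poly.rmu hM a4 b4) (Pool.Agent.TW.Poly.rmu hM a5 b5)))))
      (Poly.pair (Poly.or a6 b6) (Poly.and a7 b7))
  unfold nvx
  exact Poly.cond (Poly.isZero hq1) (MachP_c vx0) (Poly.cond (Poly.nateq hq1 (MachP_c 4))
    (Poly.pair (Poly.pair t1 (Poly.pair t2 (Poly.pair
      (Pool.Agent.TW.Poly.rmu he t1 hh) (MachP_c (([true], []) : List Bool × List Bool)))))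
      (MachP_c ((true, false) : Bool × Bool)))
    (Poly.cond (Poly.nateq hq1 (MachP_c 1)) hadx (Poly.cond (Poly.nateq hq1 (MachP_c 2)) hmux
      (Poly.cond (MachP_ptrx h1 h2) (MachP_ppwx he hM h1 h2 t1 t2 hh)
        (MachP_ppwx he hM h1 h2 (MachP_c [true]) (MachP_c [true]) hh)))))

private theorem MachP_pnok {fe : α → List Bool} {fq : α → Tok} {fs : α → List Vx}
    (he : Poly fe) (hq : Poly fq) (hs : Poly fs) :
    Poly (fun a => nok (fe a) (fq a) (fs a)) := by
  have hq1 : Poly (fun a => (fq a).1) := by fun_prop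
  have h1 : Poly (fun a => (fs a).headD vx0) := Poly.headD hs (MachP_c vx0)
  have a1 : Poly (fun a => ((fs a).headD vx0).1.1) := (MachP_pv h1).1
  have hmd : Poly (fun a => md (fe a)) := Pool.Agent.TW.Poly.md he
  unfold nok
  exact Poly.or (Poly.not (Poly.nateq hq1 (MachP_c 3))) (Pool.Agent.TI.Poly.beqv
    (Pool.Agent.TW.Poly.rmu he a1 (Pool.Agent.TW.Poly.rin he a1))
    (Pool.Agent.TI.Poly.bmod (MachP_c _) hmd))

private theorem MachP_pmph {fe : α → List Bool} {fv fc fm : α → ℕ}
    {fN fB : α → List (List Bool)} {fZ : α → List Bool} {fq : α → Tok × Bool} {fs : α → List Vx}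
    (he : Poly fe) (hv : Poly fv) (hc : Poly fc) (hm : Poly fm) (hN : Poly fN) (hB : Poly fB)
    (hZ : Poly fZ) (hq : Poly fq) (hs : Poly fs) :
    Poly (fun a => mph (fe a) (fv a) (fc a) (fm a) (fN a) (fB a) (fZ a) (fq a) (fs a)) := by
  have q1 : Poly (fun a => (fq a).1) := Poly.comp Poly.fst hq
  have q2 : Poly (fun a => (fq a).2) := Poly.comp Poly.snd hq
  unfold mph
  exact Poly.cond q2 (MachP_pnph he hv hc hm hN hB hZ q1 hs) (MachP_c _)

private theorem MachP_ystep {fe fM : α → List Bool} {fv fc fm : α → ℕ}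
    {fN fB : α → List (List Bool)} {fZ : α → List Bool} {ft : α → List (List SI)}
    {fq : α → Tok × Bool} {fs : α → List Vx × List (List Bool) × Bool} (he : Poly fe)
    (hM : Poly fM) (hv : Poly fv) (hc : Poly fc) (hm : Poly fm) (hN : Poly fN) (hB : Poly fB)
    (hZ : Poly fZ) (ht : Poly ft) (hq : Poly fq) (hs : Poly fs) :
    Poly (fun a => ystep (fe a) (fM a) (fv a) (fc a) (fm a) (fN a) (fB a) (fZ a) (ft a)
      (fq a) (fs a)) := by
  have q1 : Poly (fun a => (fq a).1) := Poly.comp Poly.fst hq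
  have q2 : Poly (fun a => (fq a).2) := Poly.comp Poly.snd hq
  have hq1 : Poly (fun a => (fq a).1.1) := Poly.comp Poly.fst q1
  have s1 : Poly (fun a => (fs a).1) := Poly.comp Poly.fst hs
  have s2 : Poly (fun a => (fs a).2.1) := Poly.comp Poly.fst (Poly.comp Poly.snd hs)
  have s3 : Poly (fun a => (fs a).2.2) := Poly.comp Poly.snd (Poly.comp Poly.snd hs)
  have hph := MachP_pmph he hv hc hm hN hB hZ hq s1
  have hvx := MachP_pnvx he hM hv hc hZ ht q1 s1 (Poly.length s2) hph
  have hok := Poly.or (Poly.not q2) (MachP_pnok he q1 s1)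
  have hr : Poly (fun a => bif decide ((fq a).1.1 = 0) || decide ((fq a).1.1 = 4) then (fs a).1
      else (fs a).1.tail.tail) :=
    Poly.cond (Poly.or (Poly.isZero hq1) (Poly.nateq hq1 (MachP_c 4))) s1
      (Poly.tail (Poly.tail s1))
  unfold ystep
  exact Poly.pair (Poly.lcons hvx hr) (Poly.pair (Poly.append s2
    (Poly.lcons hph (MachP_c ([] : List (List Bool))))) (Poly.and s3 hok))

private theorem MachP_sz (e M : List Bool) (v c m : ℕ) (N B : List (List Bool)) (Z : List Bool)
    (tab : List (List SI)) (T l₁ l₂ : List (Tok × Bool)) (h : T = l₁ ++ l₂) :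
    sz (yrun e M v c m N B Z tab l₂) ≤
      (sz T * (3 * (4 * (sz e + 4) + 1) + 2 * (4 * (sz M + 4) + 1) + 13) + 1) +
        (sz T * (4 * (sz e + 4) + 2) + 1) + 5 := by
  obtain ⟨h1, h2, h3, h4⟩ := yrun_len e M v c m N B Z tab l₂
  have hT : l₂.length ≤ sz T := by
    have h5 := length_lt_sz T
    have h6 : l₂.length ≤ T.length := by
      rw [h, List.length_append]
      omega
    omega
  have he := length_lt_sz e
  have hM := length_lt_sz M
  have k1 : sz (yrun e M v c m N B Z tab l₂).1 ≤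
      sz T * (3 * (4 * (sz e + 4) + 1) + 2 * (4 * (sz M + 4) + 1) + 13) + 1 := by
    refine (sz_le_of_forall _ (3 * (4 * (sz e + 4) + 1) + 2 * (4 * (sz M + 4) + 1) + 12)
      fun x hx => ?_).trans ?_
    · obtain ⟨g1, g2, g3, g4, g5⟩ := h3 x hx
      have f1 := (sz_bool_list x.1.1).2
      have f2 := (sz_bool_list x.1.2.1).2
      have f3 := (sz_bool_list x.1.2.2.1).2
      have f4 := (sz_bool_list x.1.2.2.2.1).2
      have f5 := (sz_bool_list x.1.2.2.2.2).2
      have f6 := sz_bool_le x.2.1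
      have f7 := sz_bool_le x.2.2
      have e1 : sz x = (sz x.1.1 + (sz x.1.2.1 + (sz x.1.2.2.1 +
        (sz x.1.2.2.2.1 + sz x.1.2.2.2.2 + 1) + 1) + 1) + 1) + (sz x.2.1 + sz x.2.2 + 1) + 1 :=
        rfl
      rw [e1]
      omega
    · exact Nat.add_le_add_right (Nat.mul_le_mul_right _ (h1.trans hT)) 1
  have k2 : sz (yrun e M v c m N B Z tab l₂).2.1 ≤ sz T * (4 * (sz e + 4) + 2) + 1 := by
    refine (sz_le_of_forall _ (4 * (sz e + 4) + 1) fun x hx => ?_).trans ?_
    · have g1 := h4 x hx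
      have f1 := (sz_bool_list x).2
      omega
    · exact Nat.add_le_add_right (Nat.mul_le_mul_right _ (h2.le.trans hT)) 1
  have k3 := sz_bool_le (yrun e M v c m N B Z tab l₂).2.2
  have e2 : sz (yrun e M v c m N B Z tab l₂) = sz (yrun e M v c m N B Z tab l₂).1 +
      (sz (yrun e M v c m N B Z tab l₂).2.1 + sz (yrun e M v c m N B Z tab l₂).2.2 + 1) + 1 :=
    rfl
  rw [e2]
  omega

theorem poly_yrun {fe fM : α → List Bool} {fv fc fm : α → ℕ} {fN fB : α → List (List Bool)}
    {fZ : α → List Bool} {ft : α → List (List SI)} {fT : α → List (Tok × Bool)} (he : Poly fe)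
    (hM : Poly fM) (hv : Poly fv) (hc : Poly fc) (hm : Poly fm) (hN : Poly fN) (hB : Poly fB)
    (hZ : Poly fZ) (ht : Poly ft) (hT : Poly fT) :
    Poly (fun a => yrun (fe a) (fM a) (fv a) (fc a) (fm a) (fN a) (fB a) (fZ a) (ft a)
      (fT a)) := by
  have hf : Poly (fun p : α × (List Vx × List (List Bool) × Bool) × (Tok × Bool) =>
      ystep (fe p.1) (fM p.1) (fv p.1) (fc p.1) (fm p.1) (fN p.1) (fB p.1) (fZ p.1) (ft p.1)
        p.2.2 p.2.1) :=
    MachP_ystep (he.comp Poly.fst) (hM.comp Poly.fst) (hv.comp Poly.fst) (hc.comp Poly.fst)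
      (hm.comp Poly.fst) (hN.comp Poly.fst) (hB.comp Poly.fst) (hZ.comp Poly.fst)
      (ht.comp Poly.fst) (Poly.comp Poly.snd Poly.snd) (Poly.comp Poly.fst Poly.snd)
  exact Poly.foldr
    (f := fun p : α × (List Vx × List (List Bool) × Bool) × (Tok × Bool) =>
      ystep (fe p.1) (fM p.1) (fv p.1) (fc p.1) (fm p.1) (fN p.1) (fB p.1) (fZ p.1) (ft p.1)
        p.2.2 p.2.1)
    (l := fT) (s0 := fun _ => (([], [], true) : List Vx × List (List Bool) × Bool))
    (B := fun a => (sz (fT a) * (3 * (4 * (sz (fe a) + 4) + 1) + 2 * (4 * (sz (fM a) + 4) + 1) + 13)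
      + 1) + (sz (fT a) * (4 * (sz (fe a) + 4) + 2) + 1) + 5) hf hT
    (MachP_c _)
    ((((hT.sz_le.mul ((((PBdd.const 3).mul (((PBdd.const 4).mul (he.sz_le.add
      (PBdd.const 4))).add (PBdd.const 1))).add ((PBdd.const 2).mul (((PBdd.const 4).mul
      (hM.sz_le.add (PBdd.const 4))).add (PBdd.const 1)))).add (PBdd.const 13))).add
      (PBdd.const 1)).add
      ((hT.sz_le.mul (((PBdd.const 4).mul (he.sz_le.add
      (PBdd.const 4))).add (PBdd.const 2))).add (PBdd.const 1))).add
      (PBdd.const 5)) (by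
      intro a l₁ l₂ h
      exact MachP_sz (fe a) (fM a) (fv a) (fc a) (fm a) (fN a) (fB a) (fZ a) (ft a) (fT a)
        l₁ l₂ h)

theorem poly_yrow {fe fM : α → List Bool} {fv fc fm : α → ℕ} {fN fB : α → List (List Bool)}
    {fZ : α → List Bool} {ft : α → List (List SI)} {fT : α → List (Tok × Bool)} {fi : α → ℕ}
    (he : Poly fe) (hM : Poly fM) (hv : Poly fv) (hc : Poly fc) (hm : Poly fm) (hN : Poly fN)
    (hB : Poly fB) (ht : Poly ft) (hT : Poly fT) (hi : Poly fi) (hZ : Poly fZ) :
    Poly (fun a => yrow (fe a) (fM a) (fv a) (fc a) (fm a) (fN a) (fB a) (ft a) (fT a) (fi a)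
      (fZ a)) := by
  have h0 : Poly (fun a => (fT a).drop ((fT a).length - (fi a + 1))) :=
    Poly.drop (Poly.sub (Poly.length hT) (Poly.add hi (MachP_c 1))) hT
  have h1 := poly_yrun he hM hv hc hm hN hB hZ ht h0
  unfold yrow
  exact Poly.cond (Poly.comp Poly.snd (Poly.comp Poly.snd h1))
    (Poly.comp Poly.fst (Poly.comp Poly.snd h1))
    (Poly.replicate (Poly.add hi (MachP_c 1)) (MachP_c _))

end Pool.Agent.TQ
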