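import Pool.Agent.H.MP_b2d7dd_lc.TQ.Mach
import Pool.Agent.H.MP_b2d7dd_lc.TD.Nxt

/-!
# Module Nxt: the test

Compare TD/Nxt. `grun` computes the numbers `e1` of the bases of the small powers, `baseO` = their
coprime base. `nxt` = one stage: the table for the subterms number `0, ..., i` from the table for the
subterms before `i` and the random bits `zz`. `tabI` = all stages. `fin1` = the comparison of the two
terms. `test1` = one round. `accept` = all rounds.
-/

namespace Pool.Agent.TQ

open Pool.Agent.TI (Tm Tok names tokz bmod beqv bpw)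
open Pool.Agent.TE (bl)
open Pool.Agent.TW (SI ltab pivots pow2 md rad rmu)
open Pool.Agent.TC (MB muB Pb Stk subs exF cob eN eP uu vv Kc Qw Rr kk SS AA KK)
open Pool.Agent.TD (Ed ed0 enew Mn Vx vx0 cst big cs lg wt e1 Bs1 Tr)
open Pool.Agent.H.MP_5be563_lc.PT

/-- One step: the data of the terms of the stack and the numbers `e1` of the bases. -/
def gstep (M : List Bool) (q : Tok × Bool) (s : List Ed × List (List Bool)) :
    List Ed × List (List Bool) :=
  (enew M q.1 s.1 :: (bif decide (q.1.1 = 0) || decide (q.1.1 = 4) then s.1 else s.1.tail.tail),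
    s.2 ++ [bif q.2 && decide (q.1.1 = 3) then (s.1.headD ed0).1.1 else [true]])

/-- The numbers `e1` of the bases of the small powers. -/
def grun (M : List Bool) (T : List (Tok × Bool)) : List Ed × List (List Bool) :=
  T.foldr (gstep M) ([], [])

/-- The coprime base. -/
def baseO (n : ℕ) (T : List (Tok × Bool)) : List (List Bool) :=
  cob (4 * (n + 7) + 2) (Kc n) (grun (Mn n) T).2

/-- One stage. -/
def nxt (n : ℕ) (e : List Bool) (N B : List (List Bool)) (T : List (Tok × Bool))
    (i : ℕ) (tab : List (List SI)) (zz : List Bool) : List (List SI) :=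
  ltab e (pow2 (eN n)) (pow2 (eP n)) (kk n) (i + 1)
    (pivots e (i + 1) ((List.range (Rr n)).map fun j =>
      yrow e (Mn n) (vv n) (n + 1) n N B tab T i (bl (Qw n * vv n) zz j)))

/-- All stages. -/
def tabI (n : ℕ) (e : List Bool) (N B : List (List Bool)) (T : List (Tok × Bool))
    (z : List Bool) : ℕ → List (List SI)
  | 0 => []
  | i + 1 => nxt n e N B T i (tabI n e N B T z i) (bl (SS n) z i)

/-- The two terms have the same value. -/
def fin1 (n : ℕ) (e : List Bool) (N B : List (List Bool)) (T : List (Tok × Bool))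
    (tab : List (List SI)) (zz : List Bool) : Bool :=
  beqv
    (bmod ((yrun e (Mn n) (vv n) (n + 1) n N B (bl (Qw n * vv n) zz 0) tab T).1.headD vx0).1.1
      (md e))
    (bmod ((yrun e (Mn n) (vv n) (n + 1) n N B (bl (Qw n * vv n) zz 0) tab T).1.tail.headD
      vx0).1.1 (md e))

/-- The test for given bits of the modulus and of the stages. -/
def test0 (n : ℕ) (T : List Tok) (e z : List Bool) : Bool :=
  bif ble (pow2 (vv n)) e then
    fin1 n e (names T) (baseO n (zf n T)) (zf n T)
      (tabI n e (names T) (baseO n (zf n T)) (zf n T) z T.length) (bl (SS n) z T.length)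
  else true

/-- One round. -/
def test1 (n : ℕ) (T : List Tok) (z : List Bool) : Bool :=
  test0 n T (z.take (2 * vv n)) (z.drop (2 * vv n))

/-- The test on tokens. -/
def acceptT (n : ℕ) (T : List Tok) (r : List Bool) : Bool :=
  shapeO n T && (List.range (KK n)).all fun j => test1 n T (bl (AA n) r j)

/-- The test. -/
def accept (k : ℕ) (x r : List Bool) : Bool :=
  match tokz x with
  | none => false
  | some T => acceptT (x.length ^ k) T r

private theorem Nxt_cons (M : List Bool) (q : Tok × Bool) (T : List (Tok × Bool)) :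
    grun M (q :: T) = gstep M q (grun M T) := rfl

private def Nxt_R (n : ℕ) (x : Ed) (u : Tm) : Prop :=
  x.2.1 = big u ∧ x.2.2 = cst u ∧ (wt u ≤ n → bval x.1.1 = e1 u ∧ bval x.1.2 = cs u)

private def Nxt_S (n : ℕ) (x : List Bool) (u : Tm) : Prop :=
  (∀ a b, thr n u = Tm.pow a b → bval x = e1 a) ∧ ((∀ a b, thr n u ≠ Tm.pow a b) → bval x = 1)

private theorem Nxt_h {n : ℕ} {l : List Ed} {st : List Tm} {a b : Tm}
    (h : List.Forall₂ (Nxt_R n) l (a :: b :: st)) :
    ∃ x y r, l = x :: y :: r ∧ Nxt_R n x a ∧ Nxt_R n y b ∧ List.Forall₂ (Nxt_R n) r st := by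
  obtain ⟨x, l', h1, h2, rfl⟩ := List.forall₂_cons_right_iff.1 h
  obtain ⟨y, r, h3, h4, rfl⟩ := List.forall₂_cons_right_iff.1 h2
  exact ⟨x, y, r, rfl, h1, h3, h4⟩

private theorem Nxt_one : bval [true] = 1 := rfl

private theorem Nxt_app {R : List Bool → Tm → Prop} {l : List (List Bool)} {U : List Tm}
    (h : List.Forall₂ R l U) {x : List Bool} {u : Tm} (hx : R x u) :
    List.Forall₂ R (l ++ [x]) (U ++ [u]) :=
  List.rel_append h (List.Forall₂.cons hx List.Forall₂.nil)

private theorem Nxt_mem {R : List Bool → Tm → Prop} {l : List (List Bool)} {U : List Tm}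
    (h : List.Forall₂ R l U) : (∀ x ∈ l, ∃ u ∈ U, R x u) ∧ ∀ u ∈ U, ∃ x ∈ l, R x u := by
  induction h with
  | nil => exact ⟨fun x hx => absurd hx List.not_mem_nil, fun u hu => absurd hu List.not_mem_nil⟩
  | cons h1 _ ih =>
    refine ⟨fun x hx => ?_, fun u hu => ?_⟩
    · rcases List.mem_cons.1 hx with hx | hx
      · rw [hx]
        exact ⟨_, List.mem_cons_self, h1⟩
      · obtain ⟨u, hu, hr⟩ := ih.1 x hx
        exact ⟨u, List.mem_cons_of_mem _ hu, hr⟩
    · rcases List.mem_cons.1 hu with hu | hu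
      · rw [hu]
        exact ⟨_, List.mem_cons_self, h1⟩
      · obtain ⟨x, hx, hr⟩ := ih.2 u hu
        exact ⟨x, List.mem_cons_of_mem _ hx, hr⟩

/-- The flags of one more token. -/
private theorem Nxt_zf {n : ℕ} {q : Tok} {T : List Tok} {st st' U : List Tm} {u : Tm}
    (h : Stk T st U) (h' : Stk (q :: T) st' (U ++ [u])) (hU : ∀ v ∈ U ++ [u], Gd n v) :
    zf n (q :: T) = (q, decide (wt u ≤ n)) :: zf n T := by
  have h1 := flags_stk h fun v hv => hU v (List.mem_append_left _ hv)
  have h2 := flags_stk h' hU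
  rw [List.map_append, List.reverse_append, List.map_singleton, List.reverse_singleton,
    List.singleton_append, ← h1] at h2
  unfold zf
  rw [h2, List.zip_cons_cons]

/-- A term which is not a power has the number `1` in the second list. -/
private theorem Nxt_np {n : ℕ} {u : Tm} (h : ∀ a b, u ≠ Tm.pow a b) : Nxt_S n [true] u := by
  refine ⟨fun a b hab => ?_, fun _ => Nxt_one⟩
  unfold thr at hab
  by_cases hw : wt u ≤ n
  · rw [if_pos hw] at hab
    exact absurd hab (h a b)
  · rw [if_neg hw] at hab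
    exact absurd hab (by simp)

private theorem Nxt_val {n : ℕ} {M : List Bool} {T : List Tok} {st U : List Tm} (h : Stk T st U)
    (hU : ∀ u ∈ U, Gd n u) (hM : 2 ^ n < bval M + 2) :
    List.Forall₂ (Nxt_R n) (grun M (zf n T)).1 st ∧
      List.Forall₂ (Nxt_S n) (grun M (zf n T)).2 U := by
  have hle : ∀ u : Tm, wt u ≤ n → 2 ^ lg u < bval M + 2 := fun u hu =>
    lt_of_le_of_lt (Nat.pow_le_pow_right (by norm_num) ((TD.lg_le u).trans hu)) hM
  induction h with
  | nil => exact ⟨List.Forall₂.nil, List.Forall₂.nil⟩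
  | @one T st U h ih =>
    obtain ⟨h1, h2⟩ := ih fun u hu => hU u (List.mem_append_left _ hu)
    have h3 : grun M (zf n ((0, []) :: T)) =
        (ed0 :: (grun M (zf n T)).1, (grun M (zf n T)).2 ++ [[true]]) := by
      rw [Nxt_zf h (Stk.one h) hU, Nxt_cons]
      simp [gstep, enew]
    rw [h3]
    exact ⟨List.Forall₂.cons ⟨rfl, rfl, fun _ => ⟨rfl, rfl⟩⟩ h1,
      Nxt_app h2 (Nxt_np fun a b h => by simp at h)⟩
  | @var T st U w h ih =>
    obtain ⟨h1, h2⟩ := ih fun u hu => hU u (List.mem_append_left _ hu)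
    have h3 : grun M (zf n ((4, w) :: T)) =
        ((([true], []), (true, false)) :: (grun M (zf n T)).1,
          (grun M (zf n T)).2 ++ [[true]]) := by
      rw [Nxt_zf h (Stk.var w h) hU, Nxt_cons]
      simp [gstep, enew]
    rw [h3]
    exact ⟨List.Forall₂.cons ⟨rfl, rfl, fun _ => ⟨rfl, rfl⟩⟩ h1,
      Nxt_app h2 (Nxt_np fun a b h => by simp at h)⟩
  | @add T st U a b h ih =>
    obtain ⟨h1, h2⟩ := ih fun u hu => hU u (List.mem_append_left _ hu)
    obtain ⟨x, y, r, hl, ⟨x3, x4, x5⟩, ⟨y3, y4, y5⟩, hr⟩ := Nxt_h h1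
    have h3 : grun M (zf n ((1, []) :: T)) =
        (((rad M x.1.1 y.1.1, rad M x.1.2 y.1.2), (true, x.2.2 && y.2.2)) :: r,
          (grun M (zf n T)).2 ++ [[true]]) := by
      rw [Nxt_zf h (Stk.add h) hU, Nxt_cons]
      simp [gstep, enew, hl]
    have h7 : (x.2.2 && y.2.2) = cst (.add a b) := by
      rw [x4, y4]
      rfl
    rw [h3]
    refine ⟨List.Forall₂.cons ⟨rfl, h7, fun hw => ?_⟩ hr,
      Nxt_app h2 (Nxt_np fun a b h => by simp at h)⟩
    have h4 := hle _ hw
    have e : wt (.add a b) = wt a + wt b + 1 := rfl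
    obtain ⟨x1, x2⟩ := x5 (by omega)
    obtain ⟨y1, y2⟩ := y5 (by omega)
    constructor
    · show bval (rad M x.1.1 y.1.1) = e1 (.add a b)
      rw [rad, TW.bval_bmod_md, bval_badd, x1, y1]
      exact Nat.mod_eq_of_lt ((TD.e1_le (.add a b)).trans_lt h4)
    · show bval (rad M x.1.2 y.1.2) = cs (.add a b)
      rw [rad, TW.bval_bmod_md, bval_badd, x2, y2]
      exact Nat.mod_eq_of_lt ((TD.cs_le (.add a b)).trans_lt h4)
  | @mul T st U a b h ih =>
    obtain ⟨h1, h2⟩ := ih fun u hu => hU u (List.mem_append_left _ hu)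
    obtain ⟨x, y, r, hl, ⟨x3, x4, x5⟩, ⟨y3, y4, y5⟩, hr⟩ := Nxt_h h1
    have h3 : grun M (zf n ((2, []) :: T)) =
        (((rmu M x.1.1 y.1.1, rmu M x.1.2 y.1.2), (x.2.1 || y.2.1, x.2.2 && y.2.2)) :: r,
          (grun M (zf n T)).2 ++ [[true]]) := by
      rw [Nxt_zf h (Stk.mul h) hU, Nxt_cons]
      simp [gstep, enew, hl]
    have h7 : (x.2.2 && y.2.2) = cst (.mul a b) := by
      rw [x4, y4]
      rfl
    have h8 : (x.2.1 || y.2.1) = big (.mul a b) := by
      rw [x3, y3]
      rfl
    rw [h3]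
    refine ⟨List.Forall₂.cons ⟨h8, h7, fun hw => ?_⟩ hr,
      Nxt_app h2 (Nxt_np fun a b h => by simp at h)⟩
    have h4 := hle _ hw
    have e : wt (.mul a b) = wt a + wt b + 1 := rfl
    obtain ⟨x1, x2⟩ := x5 (by omega)
    obtain ⟨y1, y2⟩ := y5 (by omega)
    constructor
    · show bval (rmu M x.1.1 y.1.1) = e1 (.mul a b)
      rw [rmu, TW.bval_bmod_md, bval_bmul, x1, y1]
      exact Nat.mod_eq_of_lt ((TD.e1_le (.mul a b)).trans_lt h4)
    · show bval (rmu M x.1.2 y.1.2) = cs (.mul a b)
      rw [rmu, TW.bval_bmod_md, bval_bmul, x2, y2]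
      exact Nat.mod_eq_of_lt ((TD.cs_le (.mul a b)).trans_lt h4)
  | @pow T st U a b h ih =>
    obtain ⟨h1, h2⟩ := ih fun u hu => hU u (List.mem_append_left _ hu)
    obtain ⟨x, y, r, hl, ⟨x3, x4, x5⟩, ⟨y3, y4, y5⟩, hr⟩ := Nxt_h h1
    have e : wt (.pow a b) = wt a + wt b + 1 + cs b * lg a := rfl
    have h3 : grun M (zf n ((3, []) :: T)) = (TD.epow M x y :: r, (grun M (zf n T)).2 ++
        [bif decide (wt (.pow a b) ≤ n) then x.1.1 else [true]]) := by
      rw [Nxt_zf h (Stk.pow h) hU, Nxt_cons]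
      simp [gstep, enew, hl]
    have h7 : (TD.epow M x y).2.2 = cst (.pow a b) := by
      show ((x.2.2 && y.2.2) || !x.2.1) = cst (.pow a b)
      rw [x4, y4, x3]
      rfl
    rw [h3]
    refine ⟨List.Forall₂.cons ⟨x3, h7, fun hw => ?_⟩ hr, Nxt_app h2 ?_⟩
    · have h4 := hle _ hw
      obtain ⟨x1, x2⟩ := x5 (by omega)
      obtain ⟨y1, y2⟩ := y5 (by omega)
      constructor
      · show bval (bpw x.1.1 y.1.2 (md M)) = e1 (.pow a b)
        rw [TI.bval_bpw, TW.bval_md, x1, y2]
        exact Nat.mod_eq_of_lt ((TD.e1_le (.pow a b)).trans_lt h4)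
      · show bval (bif y.2.2 || !x.2.1 then bpw x.1.2 y.1.2 (md M) else []) =
          if (cst b || !big a) = true then cs a ^ cs b else 0
        rw [y4, x3]
        cases hc : (cst b || !big a) with
        | true =>
          have h7 : cs (.pow a b) = cs a ^ cs b := if_pos hc
          rw [cond_true, if_pos rfl, TI.bval_bpw, TW.bval_md, x2, y2]
          exact Nat.mod_eq_of_lt (h7 ▸ (TD.cs_le (.pow a b)).trans_lt h4)
        | false => rfl
    · by_cases hw : wt (.pow a b) ≤ n
      · have e2 : thr n (.pow a b) = .pow a b := if_pos hw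
        rw [decide_eq_true hw, cond_true]
        refine ⟨fun a' b' h => ?_, fun h => absurd e2 (h a b)⟩
        rw [e2] at h
        injection h with e1' e2'
        rw [(x5 (by omega)).1, e1']
      · have e2 : thr n (.pow a b) = .one := if_neg hw
        rw [decide_eq_false hw, cond_false]
        refine ⟨fun a' b' h => ?_, fun _ => Nxt_one⟩
        rw [e2] at h
        exact absurd h (by simp)

/-- The numbers of the bases. -/
theorem grun_val {n : ℕ} {M : List Bool} {T : List Tok} {st U : List Tm} (h : Stk T st U)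
    (hU : ∀ u ∈ U, Gd n u) (hM : 2 ^ n < bval M + 2) :
    List.Forall₂ (fun (x : Ed) u => x.2.1 = big u ∧ x.2.2 = cst u ∧
      (wt u ≤ n → bval x.1.1 = e1 u ∧ bval x.1.2 = cs u)) (grun M (zf n T)).1 st ∧
      List.Forall₂ (fun x u => (∀ a b, thr n u = Tm.pow a b → bval x = e1 a) ∧
        ((∀ a b, thr n u ≠ Tm.pow a b) → bval x = 1)) (grun M (zf n T)).2 U :=
  Nxt_val h hU hM

private theorem Nxt_hd {k : ℕ} {l : List Ed}
    (h : ∀ x ∈ l, x.1.1.length ≤ k + 4 ∧ x.1.2.length ≤ k + 4) :
    (l.headD ed0).1.1.length ≤ k + 4 := by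
  cases l with
  | nil => exact Nat.succ_le_succ (Nat.zero_le _)
  | cons x l => exact (h x List.mem_cons_self).1

private theorem Nxt_bpw (M r e : List Bool) : (bpw r e (md M)).length ≤ M.length + 4 := by
  have h1 := TI.length_bpw_le r e (md M)
  have h2 := TW.length_md_le M
  omega

private theorem Nxt_pw (M : List Bool) (a b : Ed) :
    (TD.epow M a b).1.1.length ≤ M.length + 4 ∧ (TD.epow M a b).1.2.length ≤ M.length + 4 := by
  refine ⟨Nxt_bpw _ _ _, ?_⟩
  unfold TD.epow
  cases (b.2.2 || !a.2.1) with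
  | true => exact Nxt_bpw _ _ _
  | false => exact Nat.zero_le _

private theorem Nxt_new (M : List Bool) (q : Tok) (s : List Ed) :
    (enew M q s).1.1.length ≤ M.length + 4 ∧ (enew M q s).1.2.length ≤ M.length + 4 := by
  have ht : ([true] : List Bool).length ≤ M.length + 4 := Nat.succ_le_succ (Nat.zero_le _)
  unfold enew
  cases decide (q.1 = 0) with
  | true => exact ⟨ht, ht⟩
  | false =>
    cases decide (q.1 = 4) with
    | true => exact ⟨ht, Nat.zero_le _⟩
    | false =>
      cases decide (q.1 = 1) with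
      | true => exact ⟨TW.length_rad_le _ _ _, TW.length_rad_le _ _ _⟩
      | false =>
        cases decide (q.1 = 2) with
        | true => exact ⟨TW.length_rmu_le _ _ _, TW.length_rmu_le _ _ _⟩
        | false => exact Nxt_pw _ _ _

theorem grun_len (M : List Bool) (T : List (Tok × Bool)) : (grun M T).1.length ≤ T.length ∧
    (grun M T).2.length = T.length ∧
      (∀ x ∈ (grun M T).1, x.1.1.length ≤ M.length + 4 ∧ x.1.2.length ≤ M.length + 4) ∧
        ∀ x ∈ (grun M T).2, x.length ≤ M.length + 4 := by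
  induction T with
  | nil =>
    exact ⟨le_rfl, rfl, fun x hx => absurd hx List.not_mem_nil,
      fun x hx => absurd hx List.not_mem_nil⟩
  | cons q T ih =>
    obtain ⟨i1, i2, i3, i4⟩ := ih
    have ht : ([true] : List Bool).length ≤ M.length + 4 := Nat.succ_le_succ (Nat.zero_le _)
    rw [Nxt_cons]
    unfold gstep
    refine ⟨?_, ?_, ?_, ?_⟩
    · dsimp only
      rw [List.length_cons, List.length_cons]
      cases (decide (q.1.1 = 0) || decide (q.1.1 = 4)) with
      | true => exact Nat.succ_le_succ i1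
      | false =>
        rw [cond_false, List.length_tail, List.length_tail]
        omega
    · dsimp only
      rw [List.length_append, List.length_singleton, List.length_cons, i2]
    · intro x hx
      rcases List.mem_cons.1 hx with hx | hx
      · rw [hx]
        exact Nxt_new _ _ _
      · revert hx
        cases (decide (q.1.1 = 0) || decide (q.1.1 = 4)) with
        | true => exact fun hx => i3 x hx
        | false => exact fun hx => i3 x (List.mem_of_mem_tail (List.mem_of_mem_tail hx))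
    · intro x hx
      rcases List.mem_append.1 hx with hx | hx
      · exact i4 x hx
      · rw [List.mem_singleton.1 hx]
        cases (q.2 && decide (q.1.1 = 3)) with
        | true => exact Nxt_hd i3
        | false => exact ht

private theorem Nxt_all {s t : Tm} {n : ℕ} (hn : wo s + wo t ≤ n) :
    (∀ x ∈ (grun (Mn n) (zf n (s.toks ++ t.toks))).2, x.length ≤ n + 7) ∧
      (∀ x ∈ (grun (Mn n) (zf n (s.toks ++ t.toks))).2, 1 ≤ bval x) ∧
      (n + 7) * (grun (Mn n) (zf n (s.toks ++ t.toks))).2.length ≤ Kc n ∧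
      ∀ m ∈ Bs1 (exT n s t) (s.sz + t.sz),
        ∃ x ∈ (grun (Mn n) (zf n (s.toks ++ t.toks))).2, m = bval x := by
  have hst := TC.stk_pair s t
  have hsz : s.sz + t.sz ≤ n := (Nat.add_le_add (sz_le_wo s) (sz_le_wo t)).trans hn
  have hlen : (subs t ++ subs s).length = s.sz + t.sz := by
    rw [List.length_append, TC.length_subs, TC.length_subs, add_comm]
  have hU : ∀ u ∈ subs t ++ subs s, Gd n u := by
    intro u hu
    rcases List.mem_append.1 hu with h | h
    · exact gd_subs (by omega) h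
    · exact gd_subs (by omega) h
  have hM : 2 ^ n < bval (Mn n) + 2 := by
    rw [TD.bval_Mn]
    have : 2 ^ n ≤ 2 ^ (n + 2) := Nat.pow_le_pow_right (by norm_num) (by omega)
    omega
  obtain ⟨-, hv⟩ := grun_val hst hU hM
  obtain ⟨-, l2, -, l4⟩ := grun_len (Mn n) (zf n (s.toks ++ t.toks))
  have hml : (Mn n).length = n + 3 := by
    unfold Mn pow2
    rw [List.length_append, List.length_replicate, List.length_singleton]
  refine ⟨fun x hx => ?_, fun x hx => ?_, ?_, ?_⟩
  · have h1 := l4 x hx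
    rw [hml] at h1
    exact h1
  · obtain ⟨u, -, h1, h2⟩ := (Nxt_mem hv).1 x hx
    by_cases hu : ∃ a b, thr n u = Tm.pow a b
    · obtain ⟨a, b, hab⟩ := hu
      rw [h1 a b hab]
      exact TD.e1_pos a
    · rw [h2 fun a b hab => hu ⟨a, b, hab⟩]
  · rw [l2, zf_length, ← hst.length, hlen]
    unfold Kc
    exact Nat.mul_le_mul_left _ (by omega)
  · rintro m ⟨a, ha, c, b, hab, rfl⟩
    have h1 : exF s t a ∈ subs t ++ subs s := by
      unfold exF
      rw [List.getD_eq_getElem _ _ (by rw [hlen]; exact ha)]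
      exact List.getElem_mem _
    obtain ⟨x, hx, h2, -⟩ := (Nxt_mem hv).2 _ h1
    exact ⟨x, hx, (h2 c b hab).symm⟩

theorem baseO_two {s t : Tm} {n : ℕ} (hn : wo s + wo t ≤ n) :
    (∀ P ∈ baseO n (zf n (s.toks ++ t.toks)), 2 ≤ bval P) ∧
      (baseO n (zf n (s.toks ++ t.toks))).length ≤ Kc n := by
  obtain ⟨h1, h2, h3, -⟩ := Nxt_all hn
  obtain ⟨c1, -, c3, -⟩ := TC.cob_spec h1 h2 le_rfl h3
  exact ⟨c1, c3⟩

/-- The coprime base is a base for the numbers of the bases. -/
theorem baseO_mb {s t : Tm} {n : ℕ} (hn : wo s + wo t ≤ n) :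
    MB (baseO n (zf n (s.toks ++ t.toks))).length (Pb (baseO n (zf n (s.toks ++ t.toks))))
      (muB (baseO n (zf n (s.toks ++ t.toks)))) (Bs1 (exT n s t) (s.sz + t.sz)) := by
  obtain ⟨h1, h2, h3, h4⟩ := Nxt_all hn
  have h5 := TC.mb_cob h1 h2 le_rfl h3
  exact ⟨h5.two, h5.cop, fun m hm => h5.fac m (h4 m hm)⟩

end Pool.Agent.TQ
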