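import Pool.Agent.H.MP_b2d7dd_lc.TQ.Chn
import Pool.Agent.H.MP_b2d7dd_lc.TQ.FinC
import Pool.Agent.H.MP_b2d7dd_lc.TD.Rnd

/-!
# Module Rnd: the error probability of one round

Compare TD/Rnd. At most `2 ^ n` of the prime numbers are bad.
-/

namespace Pool.Agent.TQ

open Pool.Agent.TI (Tm Tok names Valid)
open Pool.Agent.TE (bl)
open Pool.Agent.TW (SI irow cnt)
open Pool.Agent.TW (cnt_append cnt_take cnt_mono cnt_or bval_pow2 pow2 Rnd_append card_primes)
open Pool.Agent.TC (vv_ge)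
open Pool.Agent.TC (Pt rf rf_pos evl Mo Su nrm Pr Gx Lx h1 h2 al ga lcP MB Vn Coh Fai Eqv Bas crd chi)
open Pool.Agent.TC (muB Pb Stk subs exF cob eN eP uu vv Kc Qw Rr kk SS AA KK)
open Pool.Agent.TD hiding nxt tabI fin1 test0 test1 accept acceptT lv h0 nxt_coh tabI_bound tabI_coh fin1_iff test0_valid stage_cnt final_cnt tabI_append chain test0_cnt test1_cnt
open Pool.Agent.H.MP_5be563_lc.PT Finset

/-- Few prime numbers divide a number which is at most doubly exponential. -/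
theorem cnt_dvd {v n : ℕ} {z : ℤ} (hz : z ≠ 0) (hz2 : z.natAbs ≤ 2 ^ 2 ^ n) :
    cnt (2 * v) (fun e => (bval e + 2).Prime ∧ ((bval e + 2 : ℕ) : ℤ) ∣ z) ≤ 2 ^ n := by
  classical
  have h0 : z.natAbs ≠ 0 := Int.natAbs_ne_zero.2 hz
  have h1 : cnt (2 * v) (fun e => (bval e + 2).Prime ∧ ((bval e + 2 : ℕ) : ℤ) ∣ z) ≤
      z.natAbs.primeFactors.card := by
    unfold cnt
    rw [Nat.card_eq_fintype_card, Fintype.card_subtype]
    refine Finset.card_le_card_of_injOn (fun r => bval (List.ofFn r) + 2) ?_ ?_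
    · intro r hr
      rw [Finset.mem_coe, Finset.mem_filter] at hr
      rw [Finset.mem_coe, Nat.mem_primeFactors]
      exact ⟨hr.2.1, Int.natCast_dvd.1 hr.2.2, h0⟩
    · intro a _ b _ hab
      refine TI.XA_inj ?_
      have h2 : bval (List.ofFn a) + 2 = bval (List.ofFn b) + 2 := hab
      show bval (List.ofFn a) + 1 = bval (List.ofFn b) + 1
      omega
  refine h1.trans ?_
  have h2 : 2 ^ z.natAbs.primeFactors.card ≤ ∏ p ∈ z.natAbs.primeFactors, p :=
    Finset.pow_card_le_prod _ _ _ fun p hp => (Nat.prime_of_mem_primeFactors hp).two_le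
  have h3 : ∏ p ∈ z.natAbs.primeFactors, p ≤ z.natAbs :=
    Nat.le_of_dvd (Nat.pos_of_ne_zero h0) (Nat.prod_primeFactors_dvd _)
  exact (Nat.pow_le_pow_iff_right (by norm_num)).1 (h2.trans (h3.trans hz2))

/-- The number of prime numbers. -/
private theorem Rnd_primes1 {v : ℕ} (hv : 8 ≤ v) :
    2 ^ (2 * v) ≤ 4 * v * (cnt (2 * v) (fun e => 2 ^ v ≤ bval e ∧ (bval e + 2).Prime) + 1) := by
  classical
  have h1 := card_primes hv
  have h2 : Nat.card {ω : Fin (2 * v) → Bool //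
      (bval (List.ofFn ω) + 2).Prime ∧ 2 ^ v < bval (List.ofFn ω) + 2} ≤
      cnt (2 * v) (fun e => 2 ^ v ≤ bval e ∧ (bval e + 2).Prime) + 1 := by
    have h3 : cnt (2 * v) (fun e => (2 ^ v ≤ bval e ∧ (bval e + 2).Prime) ∨
        bval e + 1 = 2 ^ v) ≤ cnt (2 * v) (fun e => 2 ^ v ≤ bval e ∧ (bval e + 2).Prime) +
        cnt (2 * v) (fun e => bval e + 1 = 2 ^ v) := cnt_or _ _
    have h4 : cnt (2 * v) (fun e => bval e + 1 = 2 ^ v) ≤ 1 := by
      unfold cnt
      rw [Nat.card_eq_fintype_card, Fintype.card_subtype]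
      exact TI.card_XA_le (2 ^ v)
    refine le_trans ?_ (h3.trans (Nat.add_le_add_left h4 _))
    refine cnt_mono (m := 2 * v) (P := fun e => (bval e + 2).Prime ∧ 2 ^ v < bval e + 2) ?_
    intro z _ hz
    rcases Nat.lt_or_ge (bval z) (2 ^ v) with h5 | h5
    · exact Or.inr (by omega)
    · exact Or.inl ⟨h5, hz.1⟩
  exact h1.trans (Nat.mul_le_mul_left _ h2)

/-- Some coefficient is different. -/
private theorem Rnd_coeff {n : ℕ} {s t : Tm} (hn : wo s + wo t ≤ n) (hst : ¬ Valid s t) :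
    ∃ g, (rp (Wn s t) s).coeff g - (rp (Wn s t) t).coeff g ≠ 0 ∧
      ((rp (Wn s t) s).coeff g - (rp (Wn s t) t).coeff g).natAbs ≤ 2 ^ 2 ^ n := by
  have hne : rp (Wn s t) s ≠ rp (Wn s t) t := fun h => hst ((valid_rp s t).2 h)
  obtain ⟨g, hg⟩ : ∃ g, (rp (Wn s t) s).coeff g ≠ (rp (Wn s t) t).coeff g := by
    by_contra hcon
    apply hne
    ext g
    by_contra h2
    exact hcon ⟨g, h2⟩
  refine ⟨g, sub_ne_zero.2 hg, ?_⟩
  have hle : ∀ u : Tm, wo u ≤ n → (rp (Wn s t) u).coeff g ≤ ((2 ^ 2 ^ n : ℕ) : ℤ) := by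
    intro u hu
    have h3 := Pool.Agent.TC.coeff_le_nrm (P := rp (Wn s t) u) g
    rw [nrm_rp, abs_of_nonneg (rp_nonneg u g)] at h3
    refine h3.trans ?_
    have h4 : e1 u ≤ 2 ^ 2 ^ n := (e1_le u).trans (Nat.pow_le_pow_right two_pos
      ((lg_le_wo u).trans (Nat.pow_le_pow_right two_pos hu)))
    exact_mod_cast h4
  have h1 := hle s (by omega)
  have h2 := hle t (by omega)
  have h3 := rp_nonneg (W := Wn s t) s g
  have h4 := rp_nonneg (W := Wn s t) t g
  generalize (rp (Wn s t) s).coeff g = a at *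
  generalize (rp (Wn s t) t).coeff g = b at *
  generalize 2 ^ 2 ^ n = K at *
  omega

/-- Most prime numbers are good. -/
theorem good_primes {n : ℕ} {s t : Tm} (hn : wo s + wo t ≤ n) (hst : ¬ Valid s t) :
    2 ^ (2 * vv n) ≤ 6 * vv n * cnt (2 * vv n) (fun e =>
      2 ^ vv n ≤ bval e ∧ (bval e + 2).Prime ∧ Dif s t (bval e + 2)) := by
  have hv := vv_ge n
  obtain ⟨g, hg, hg2⟩ := Rnd_coeff hn hst
  generalize vv n = v at hv
  have h1 := Rnd_primes1 (v := v) (by omega)
  have h2 : cnt (2 * v) (fun e => 2 ^ v ≤ bval e ∧ (bval e + 2).Prime) ≤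
      cnt (2 * v) (fun e => 2 ^ v ≤ bval e ∧ (bval e + 2).Prime ∧ Dif s t (bval e + 2)) +
        2 ^ n := by
    refine le_trans ?_ (Nat.add_le_add_left (cnt_dvd (v := v) hg hg2) _)
    refine le_trans (cnt_mono ?_) (cnt_or _ _)
    intro e _ he
    by_cases hd : ((bval e + 2 : ℕ) : ℤ) ∣
        (rp (Wn s t) s).coeff g - (rp (Wn s t) t).coeff g
    · exact Or.inr ⟨he.2, hd⟩
    · refine Or.inl ⟨he.1, he.2, g, fun h => hd ?_⟩
      rw [← ZMod.intCast_zmod_eq_zero_iff_dvd, Int.cast_sub, h, sub_self]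
  generalize cnt (2 * v) (fun e => 2 ^ v ≤ bval e ∧ (bval e + 2).Prime) = G at h1 h2
  generalize cnt (2 * v) (fun e => 2 ^ v ≤ bval e ∧ (bval e + 2).Prime ∧
    Dif s t (bval e + 2)) = H at h2
  have h3 : 2 ^ (2 * v) ≤ 4 * v * (H + 2 ^ n + 1) :=
    h1.trans (Nat.mul_le_mul_left _ (Nat.add_le_add_right h2 1))
  have h4 : 12 * v * (2 ^ n + 1) ≤ 2 ^ (2 * v) := by
    have h5 : 2 ^ n + 1 ≤ 2 ^ (n + 1) := by
      have := Nat.one_le_two_pow (n := n)
      rw [pow_succ]
      omega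
    have h6 : 12 * v ≤ 2 ^ (v + 4) := by
      have := Nat.lt_two_pow_self (n := v)
      rw [pow_add]
      omega
    calc 12 * v * (2 ^ n + 1) ≤ 2 ^ (v + 4) * 2 ^ (n + 1) := Nat.mul_le_mul h6 h5
      _ = 2 ^ (v + 4 + (n + 1)) := (pow_add _ _ _).symm
      _ ≤ 2 ^ (2 * v) := Nat.pow_le_pow_right two_pos (by omega)
  have e1 : 4 * v * (H + 2 ^ n + 1) = 4 * (v * H) + 4 * (v * (2 ^ n + 1)) := by ring
  have e2 : 12 * v * (2 ^ n + 1) = 12 * (v * (2 ^ n + 1)) := by ring
  have e3 : 6 * v * H = 6 * (v * H) := by ring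
  rw [e1] at h3
  rw [e2] at h4
  rw [e3]
  omega

private theorem Rnd_bl_take {S L : ℕ} (z : List Bool) :
    bl S (z.take ((L + 1) * S)) L = bl S z L := by
  unfold TE.bl
  rw [List.drop_take, List.take_take]
  congr 1
  have : (L + 1) * S - L * S = S := by
    rw [Nat.add_mul, one_mul, Nat.add_sub_cancel_left]
  omega

private theorem Rnd_bl_append {S L : ℕ} (x y : List Bool) (hx : x.length = L * S)
    (hy : y.length = S) : bl S (x ++ y) L = y := by
  unfold TE.bl
  rw [List.drop_left' hx, List.take_of_length_le (by rw [hy])]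

private theorem Rnd_arith {n L S m C X D : ℕ} (hL : L ≤ n) (hm : n + 1 = L + 1 + m)
    (h1 : C ≤ D * 2 ^ (m * S))
    (h2 : 8 * (n + 1) * D ≤ 8 * (n + 1) * (X * 2 ^ S) + (n + 1) * 2 ^ (L * S + S))
    (h5 : 8 * (n + 1) * X ≤ L * 2 ^ (L * S)) : 4 * C ≤ 2 ^ ((n + 1) * S) := by
  have h6 : 8 * (n + 1) * (X * 2 ^ S) ≤ (n + 1) * 2 ^ (L * S + S) := by
    calc 8 * (n + 1) * (X * 2 ^ S) = 8 * (n + 1) * X * 2 ^ S := by ring
      _ ≤ L * 2 ^ (L * S) * 2 ^ S := Nat.mul_le_mul_right _ h5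
      _ = L * 2 ^ (L * S + S) := by rw [pow_add]; ring
      _ ≤ (n + 1) * 2 ^ (L * S + S) := Nat.mul_le_mul_right _ (by omega)
  have e1 : (n + 1) * S = (L * S + S) + m * S := by rw [hm]; ring
  rw [e1, pow_add]
  generalize 2 ^ (L * S + S) = M at h2 h6
  have h8 : (2 * (n + 1)) * (4 * D) ≤ (2 * (n + 1)) * M := by
    have e2 : (2 * (n + 1)) * (4 * D) = 8 * (n + 1) * D := by ring
    have e3 : (2 * (n + 1)) * M = (n + 1) * M + (n + 1) * M := by ring
    rw [e2, e3]
    exact h2.trans (Nat.add_le_add_right h6 _)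
  have h7 : 4 * D ≤ M := Nat.le_of_mul_le_mul_left h8 (Nat.succ_pos _ |> Nat.mul_pos two_pos)
  calc 4 * C ≤ 4 * (D * 2 ^ (m * S)) := Nat.mul_le_mul_left _ h1
    _ = 4 * D * 2 ^ (m * S) := by ring
    _ ≤ M * 2 ^ (m * S) := Nat.mul_le_mul_right _ h7

theorem test0_cnt {n : ℕ} {s t : Tm} (hn : wo s + wo t ≤ n)
    {e : List Bool} (hd : Dif s t (bval e + 2)) (he : 2 ^ vv n ≤ bval e)
    (he2 : bval e < 2 ^ (2 * vv n)) (hp : (bval e + 2).Prime) :
    4 * cnt ((n + 1) * SS n) (fun z => test0 n (s.toks ++ t.toks) e z = true) ≤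
      2 ^ ((n + 1) * SS n) := by
  have hTL : (s.toks ++ t.toks).length = s.sz + t.sz := by
    rw [List.length_append, TI.Tm.length_toks, TI.Tm.length_toks]
  have hsz : s.sz + t.sz ≤ n := (Nat.add_le_add (sz_le_wo s) (sz_le_wo t)).trans hn
  have h5 := chain hn (le_refl (s.sz + t.sz)) he he2 hp
  have hfin := @final_cnt n s t hn e hd he hp
  have hcoh := fun z => tabI_coh hn he (names (s.toks ++ t.toks)) z (s.sz + t.sz) le_rfl
  have hbd := fun z => tabI_bound n e (names (s.toks ++ t.toks)) (baseO n (zf n (s.toks ++ t.toks)))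
    (zf n (s.toks ++ t.toks)) z (s.sz + t.sz)
  generalize hL : s.sz + t.sz = L at *
  generalize hT : s.toks ++ t.toks = T at *
  have hble : ble (pow2 (vv n)) e = true := by
    rw [ble_iff, bval_pow2]
    exact he
  -- the property of the first bits
  set Q : List Bool → Prop := fun z =>
    fin1 n e (names T) (baseO n (zf n T)) (zf n T) (tabI n e (names T) (baseO n (zf n T)) (zf n T) z L) (bl (SS n) z L) = true with hQ
  have hPQ : ∀ z, test0 n T e z = true → Q (z.take ((L + 1) * SS n)) := by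
    intro z hz
    unfold test0 at hz
    rw [hble, cond_true, hTL] at hz
    show fin1 n e (names T) (baseO n (zf n T)) (zf n T) (tabI n e (names T) (baseO n (zf n T)) (zf n T) (z.take ((L + 1) * SS n)) L)
      (bl (SS n) (z.take ((L + 1) * SS n)) L) = true
    rw [Rnd_bl_take]
    rcases Nat.lt_or_ge z.length ((L + 1) * SS n) with hlt | hge
    · rw [List.take_of_length_le hlt.le]
      exact hz
    · have e1 : tabI n e (names T) (baseO n (zf n T)) (zf n T) z L =
          tabI n e (names T) (baseO n (zf n T)) (zf n T) (z.take ((L + 1) * SS n)) L := by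
        conv_lhs => rw [← List.take_append_drop ((L + 1) * SS n) z]
        refine tabI_append n e (names T) (baseO n (zf n T)) (zf n T) _ _ L ?_
        rw [List.length_take, min_eq_left hge]
        exact Nat.mul_le_mul_right _ (Nat.le_succ _)
      rw [← e1]
      exact hz
  obtain ⟨m, hm⟩ : ∃ m, n + 1 = L + 1 + m := ⟨n - L, by omega⟩
  have hlen : (n + 1) * SS n = (L + 1) * SS n + m * SS n := by rw [hm, Nat.add_mul]
  have h1 : cnt ((n + 1) * SS n) (fun z => test0 n T e z = true) ≤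
      cnt ((L + 1) * SS n) Q * 2 ^ (m * SS n) := by
    rw [hlen, ← cnt_take]
    exact cnt_mono fun z _ hz => hPQ z hz
  -- the first bits
  have hlen2 : (L + 1) * SS n = L * SS n + SS n := by rw [Nat.add_mul, one_mul]
  have h2 : 8 * (n + 1) * cnt (L * SS n + SS n) Q ≤
      8 * (n + 1) * (cnt (L * SS n)
        (fun z => ¬ Fai (lv n s t) L ((tabI n e (names T) (baseO n (zf n T)) (zf n T) z L).map irow)) * 2 ^ SS n) +
      (n + 1) * 2 ^ (L * SS n + SS n) := by
    refine cnt_append Q _ ?_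
    intro x hx hA
    have hF : Fai (lv n s t) L ((tabI n e (names T) (baseO n (zf n T)) (zf n T) x L).map irow) := not_not.1 hA
    have hb := hbd x
    have h3 := hfin (hcoh x) hF hb.2 (hb.1.trans hsz)
    have h4 : cnt (SS n) (fun y => Q (x ++ y)) ≤
        cnt (SS n) (fun zz => fin1 n e (names T) (baseO n (zf n T)) (zf n T) (tabI n e (names T) (baseO n (zf n T)) (zf n T) x L) zz =
          true) := by
      refine cnt_mono fun y hy hQy => ?_
      have hQy' : fin1 n e (names T) (baseO n (zf n T)) (zf n T) (tabI n e (names T) (baseO n (zf n T)) (zf n T) (x ++ y) L)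
        (bl (SS n) (x ++ y) L) = true := hQy
      rw [Rnd_bl_append x y hx hy, tabI_append n e (names T) (baseO n (zf n T)) (zf n T) x y L hx.ge] at hQy'
      exact hQy'
    calc 8 * (n + 1) * cnt (SS n) (fun y => Q (x ++ y))
        = (n + 1) * (8 * cnt (SS n) (fun y => Q (x ++ y))) := by ring
      _ ≤ (n + 1) * (8 * cnt (SS n)
          (fun zz => fin1 n e (names T) (baseO n (zf n T)) (zf n T) (tabI n e (names T) (baseO n (zf n T)) (zf n T) x L) zz = true)) :=
          Nat.mul_le_mul_left _ (Nat.mul_le_mul_left _ h4)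
      _ ≤ (n + 1) * 2 ^ SS n := Nat.mul_le_mul_left _ h3
  rw [hlen2] at h1
  exact Rnd_arith hsz hm h1 h2 h5

theorem test1_cnt {n : ℕ} {s t : Tm} (hn : wo s + wo t ≤ n)
    (hst : ¬ Valid s t) :
    2 * (4 * vv n) * cnt (AA n) (fun z => test1 n (s.toks ++ t.toks) z = true) ≤
      (2 * (4 * vv n) - 1) * 2 ^ AA n := by
  have h1 := Rnd_append (a := 2 * vv n) (b := (n + 1) * SS n) (K := 4) (c := 1)
    (fun z => test1 n (s.toks ++ t.toks) z = true)
    (fun e => 2 ^ vv n ≤ bval e ∧ (bval e + 2).Prime ∧ Dif s t (bval e + 2)) (by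
      rintro x hx ⟨hx1, hx2, hx4⟩
      have hx3 : bval x < 2 ^ (2 * vv n) := by
        have := TI.bval_lt x
        rwa [hx] at this
      rw [one_mul]
      refine le_trans (Nat.mul_le_mul_left _ (cnt_mono fun y _ hy => ?_))
        (test0_cnt hn hx4 hx1 hx3 hx2)
      have hy' : test0 n (s.toks ++ t.toks) ((x ++ y).take (2 * vv n))
        ((x ++ y).drop (2 * vv n)) = true := hy
      rwa [List.take_left' hx, List.drop_left' hx] at hy')
  have h2 := good_primes hn hst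
  have hA : AA n = 2 * vv n + (n + 1) * SS n := rfl
  rw [hA]
  have hv : 0 < vv n := lt_of_lt_of_le (by omega) (vv_ge n)
  generalize cnt (2 * vv n) (fun e => 2 ^ vv n ≤ bval e ∧ (bval e + 2).Prime ∧ Dif s t (bval e + 2)) = G at h1 h2
  generalize cnt (2 * vv n + (n + 1) * SS n)
    (fun z => test1 n (s.toks ++ t.toks) z = true) = C at h1
  have h3 : 2 ^ (2 * vv n + (n + 1) * SS n) ≤ 6 * vv n * G * 2 ^ ((n + 1) * SS n) := by
    rw [pow_add]
    exact Nat.mul_le_mul_right _ h2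
  generalize 2 ^ (2 * vv n + (n + 1) * SS n) = M at h1 h3
  generalize 2 ^ ((n + 1) * SS n) = B at h1 h3
  rw [one_mul] at h1
  have h4 : 4 * C + 3 * (G * B) ≤ 4 * M := by omega
  have h5 : 2 * vv n * (4 * C + 3 * (G * B)) ≤ 2 * vv n * (4 * M) := Nat.mul_le_mul_left _ h4
  rw [Nat.sub_mul, one_mul]
  have e1 : 2 * vv n * (4 * C + 3 * (G * B)) = 2 * (4 * vv n) * C + 6 * vv n * G * B := by ring
  have e2 : 2 * vv n * (4 * M) = 2 * (4 * vv n) * M := by ring
  rw [e1, e2] at h5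
  omega

end Pool.Agent.TQ
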